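import Mathlib

namespace Pool.Agent.Lib.helper20.AlgHomog

open FirstOrder FirstOrder.Language

universe u

/-- Function symbols of the language of `K`-algebras: `0`, `-`, one unary symbol for each scalar,
`+` and the product. -/
inductive AlgOp (K : Type u) : ℕ → Type u
  | zero : AlgOp K 0
  | neg : AlgOp K 1
  | smul (c : K) : AlgOp K 1
  | add : AlgOp K 2
  | mul : AlgOp K 2

/-- The first-order language of `K`-algebras. -/
def LK (K : Type u) : FirstOrder.Language.{u, 0} where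
  Functions := AlgOp K
  Relations _ := Empty

/-- Interpretation of the function symbols in a `K`-vector space `H` with product `m`. -/
def opEval (K : Type u) {H : Type u} [Field K] [AddCommGroup H] [Module K H] (m : H → H → H) :
    {n : ℕ} → AlgOp K n → (Fin n → H) → H
  | _, AlgOp.zero, _ => 0
  | _, AlgOp.neg, v => -v 0
  | _, AlgOp.smul c, v => c • v 0
  | _, AlgOp.add, v => v 0 + v 1
  | _, AlgOp.mul, v => m (v 0) (v 1)

/-- `H` with product `m` as a structure for the language of `K`-algebras. -/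
@[reducible] def str (K : Type u) {H : Type u} [Field K] [AddCommGroup H] [Module K H]
    (m : H → H → H) : (LK K).Structure H where
  funMap f v := opEval K m f v
  RelMap r := r.elim

/-- Logical homogeneity: two tuples satisfying the same first-order formulas are mapped to
one another by an automorphism of the algebra. -/
def Homogeneous (K H : Type u) [Field K] [AddCommGroup H] [Module K H] (m : H → H → H) : Prop :=
  ∀ (k : ℕ) (a b : Fin k → H),
    (∀ φ : (LK K).Formula (Fin k),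
      @Formula.Realize (LK K) H (str K m) (Fin k) φ a ↔
        @Formula.Realize (LK K) H (str K m) (Fin k) φ b) →
    ∃ σ : H ≃ₗ[K] H, (∀ x y, σ (m x y) = m (σ x) (σ y)) ∧ ∀ i, σ (a i) = b i

section defin

variable (K : Type u) {H : Type u} [Field K] [AddCommGroup H] [Module K H] (m : H → H → H)

def Tm {α : Type} (f : (α → H) → H) : Prop :=
  ∃ t : (LK K).Term α, ∀ v, @Term.realize (LK K) H (str K m) α v t = f v

def Df {α : Type} (p : (α → H) → Prop) : Prop :=
  ∃ φ : (LK K).Formula α, ∀ v, @Formula.Realize (LK K) H (str K m) α φ v ↔ p v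

variable {K m} {α β : Type}

lemma Tm.var (a : α) : Tm K m (fun v : α → H => v a) := ⟨Term.var a, fun _ => rfl⟩

lemma Tm.zero : Tm K m (fun _ : α → H => 0) :=
  ⟨Term.func (AlgOp.zero : (LK K).Functions 0) ![], fun _ => rfl⟩

lemma Tm.smul (c : K) {f : (α → H) → H} (hf : Tm K m f) : Tm K m (fun v => c • f v) := by
  obtain ⟨t, ht⟩ := hf
  refine ⟨Term.func (AlgOp.smul c : (LK K).Functions 1) ![t], fun v => ?_⟩
  beta_reduce
  rw [← ht v]; rfl

lemma Tm.add {f g : (α → H) → H} (hf : Tm K m f) (hg : Tm K m g) :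
    Tm K m (fun v => f v + g v) := by
  obtain ⟨t, ht⟩ := hf
  obtain ⟨s, hs⟩ := hg
  refine ⟨Term.func (AlgOp.add : (LK K).Functions 2) ![t, s], fun v => ?_⟩
  beta_reduce
  rw [← ht v, ← hs v]; rfl

lemma Tm.mul {f g : (α → H) → H} (hf : Tm K m f) (hg : Tm K m g) :
    Tm K m (fun v => m (f v) (g v)) := by
  obtain ⟨t, ht⟩ := hf
  obtain ⟨s, hs⟩ := hg
  refine ⟨Term.func (AlgOp.mul : (LK K).Functions 2) ![t, s], fun v => ?_⟩
  beta_reduce
  rw [← ht v, ← hs v]; rfl

lemma Tm.sum {ι : Type} (s : Finset ι) {f : ι → (α → H) → H} (hf : ∀ i, Tm K m (f i)) :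
    Tm K m (fun v => ∑ i ∈ s, f i v) := by
  classical
  induction s using Finset.induction_on with
  | empty => simpa using Tm.zero
  | insert a s ha ih =>
    simp only [Finset.sum_insert ha]
    exact (hf a).add ih

lemma Tm.comp {f : (β → H) → H} (hf : Tm K m f) (g : β → α) :
    Tm K m (fun v : α → H => f (v ∘ g)) := by
  obtain ⟨t, ht⟩ := hf
  let _i := str K m
  refine ⟨t.relabel g, fun v => ?_⟩
  rw [Term.realize_relabel, ht]

lemma Df.eq {f g : (α → H) → H} (hf : Tm K m f) (hg : Tm K m g) :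
    Df K m (fun v => f v = g v) := by
  obtain ⟨t, ht⟩ := hf
  obtain ⟨s, hs⟩ := hg
  let _i := str K m
  refine ⟨Term.equal t s, fun v => ?_⟩
  rw [Formula.realize_equal, ht, hs]

lemma Df.and {p q : (α → H) → Prop} (hp : Df K m p) (hq : Df K m q) :
    Df K m (fun v => p v ∧ q v) := by
  obtain ⟨t, ht⟩ := hp
  obtain ⟨s, hs⟩ := hq
  let _i := str K m
  refine ⟨t ⊓ s, fun v => ?_⟩
  rw [Formula.realize_inf, ht, hs]

lemma Df.not {p : (α → H) → Prop} (hp : Df K m p) : Df K m (fun v => ¬ p v) := by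
  obtain ⟨t, ht⟩ := hp
  let _i := str K m
  refine ⟨t.not, fun v => ?_⟩
  rw [Formula.realize_not, ht]

lemma Df.all_fin {ι : Type} [Finite ι] {p : ι → (α → H) → Prop} (hp : ∀ i, Df K m (p i)) :
    Df K m (fun v => ∀ i, p i v) := by
  choose t ht using hp
  let _i := str K m
  refine ⟨Formula.iInf t, fun v => ?_⟩
  rw [Formula.realize_iInf]
  exact forall_congr' fun i => ht i v

lemma Df.ex [Finite β] {p : (α → H) → (β → H) → Prop}
    (hp : Df K m (fun x : α ⊕ β → H => p (x ∘ Sum.inl) (x ∘ Sum.inr))) :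
    Df K m (fun v => ∃ w, p v w) := by
  obtain ⟨t, ht⟩ := hp
  let _i := str K m
  refine ⟨t.iExs β, fun v => ?_⟩
  rw [Formula.realize_iExs]
  refine exists_congr fun w => ?_
  rw [ht]
  rfl

lemma Df.all [Finite β] {p : (α → H) → (β → H) → Prop}
    (hp : Df K m (fun x : α ⊕ β → H => p (x ∘ Sum.inl) (x ∘ Sum.inr))) :
    Df K m (fun v => ∀ w, p v w) := by
  obtain ⟨t, ht⟩ := hp
  let _i := str K m
  refine ⟨t.iAlls β, fun v => ?_⟩
  rw [Formula.realize_iAlls]
  refine forall_congr' fun w => ?_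
  rw [ht]
  rfl

/-- Terms commute with homomorphisms. -/
lemma realize_hom (σ : H →ₗ[K] H) (hσ : ∀ x y, σ (m x y) = m (σ x) (σ y)) (v : α → H)
    (t : (LK K).Term α) :
    σ (@Term.realize (LK K) H (str K m) α v t) = @Term.realize (LK K) H (str K m) α (σ ∘ v) t := by
  let _i := str K m
  induction t with
  | var a => rfl
  | func f ts ih =>
    cases f with
    | zero => exact map_zero σ
    | neg =>
      change σ (-(Term.realize v (ts 0))) = -(Term.realize (σ ∘ v) (ts 0))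
      rw [map_neg, ih]
    | smul c =>
      change σ (c • (Term.realize v (ts 0))) = c • (Term.realize (σ ∘ v) (ts 0))
      rw [map_smul, ih]
    | add =>
      change σ (Term.realize v (ts 0) + Term.realize v (ts 1)) =
        Term.realize (σ ∘ v) (ts 0) + Term.realize (σ ∘ v) (ts 1)
      rw [map_add, ih, ih]
    | mul =>
      change σ (m (Term.realize v (ts 0)) (Term.realize v (ts 1))) =
        m (Term.realize (σ ∘ v) (ts 0)) (Term.realize (σ ∘ v) (ts 1))
      rw [hσ, ih, ih]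

end defin

section filt

variable {K : Type u} {H : Type u} [Field K] [AddCommGroup H] [Module K H]
  (μ : H →ₗ[K] H →ₗ[K] H)

/-- The lower filtration by right-normed products. -/
def F : ℕ → Submodule K H
  | 0 => ⊤
  | k + 1 => Submodule.map₂ μ ⊤ (F k)

lemma F_mul {k : ℕ} (a : H) {b : H} (hb : b ∈ F μ k) : μ a b ∈ F μ (k + 1) :=
  Submodule.apply_mem_map₂ μ Submodule.mem_top hb

variable {μ}

lemma F_one_mul (hA : ∀ k c d b, b ∈ F μ k → μ (μ c d) b ∈ F μ (k + 2)) {k : ℕ} {a b : H}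
    (ha : a ∈ F μ 1) (hb : b ∈ F μ k) : μ a b ∈ F μ (k + 2) := by
  have : F μ 1 ≤ (F μ (k + 2)).comap (μ.flip b) := by
    change Submodule.map₂ μ ⊤ ⊤ ≤ _
    rw [Submodule.map₂_le]
    intro c _ d _
    exact hA k c d b hb
  exact this ha

lemma key (hA : ∀ k c d b, b ∈ F μ k → μ (μ c d) b ∈ F μ (k + 2)) (S : ℕ → Submodule K H)
    (h0 : ⊤ ≤ S 0 ⊔ F μ 1) (hS : ∀ k, S k ≤ F μ k)
    (hm : ∀ k, ∀ a ∈ S 0, ∀ b ∈ S k, μ a b ∈ S (k + 1)) (k : ℕ) :
    F μ k ≤ S k ⊔ F μ (k + 1) := by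
  induction k with
  | zero => exact h0
  | succ k ih =>
    change Submodule.map₂ μ ⊤ (F μ k) ≤ _
    rw [Submodule.map₂_le]
    intro a _ b hb
    obtain ⟨s, hs, a', ha', rfl⟩ := Submodule.mem_sup.1 (h0 (Submodule.mem_top (x := a)))
    obtain ⟨t, ht, b', hb', hb''⟩ := Submodule.mem_sup.1 (ih hb)
    have e : μ (s + a') b = μ s t + (μ s b' + μ a' b) := by
      rw [map_add, LinearMap.add_apply, ← add_assoc, ← map_add, hb'']
    rw [e]
    exact Submodule.add_mem_sup (hm k s hs t ht)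
      (Submodule.add_mem _ (F_mul μ s hb') (F_one_mul hA ha' hb))

lemma key_top {N : ℕ} (hN : F μ N = ⊥) (S : ℕ → Submodule K H) (W : Submodule K H) (j : ℕ)
    (h : ∀ k, j ≤ k → F μ k ≤ S k ⊔ F μ (k + 1)) (hW : ∀ k, j ≤ k → k < N → S k ≤ W) :
    F μ j ≤ W := by
  have : ∀ d k, k + d = N → j ≤ k → F μ k ≤ W := by
    intro d
    induction d with
    | zero => intro k hk _; rw [show k = N by omega, hN]; exact bot_le
    | succ d ih =>
      intro k hk hj
      exact (h k hj).trans (sup_le (hW k hj (by omega)) (ih (k + 1) (by omega) (by omega)))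
  by_cases hj : j ≤ N
  · exact this (N - j) j (by omega) le_rfl
  · have : ∀ d, F μ (N + d) = ⊥ := by
      intro d
      induction d with
      | zero => exact hN
      | succ d ih =>
        change Submodule.map₂ μ ⊤ (F μ (N + d)) = ⊥
        rw [ih, Submodule.map₂_bot_right]
    rw [show j = N + (j - N) by omega, this]
    exact bot_le

variable {r : ℕ} {y : Fin r → H}

lemma span_sup (hgen : ∀ M : Submodule K H, (∀ i, y i ∈ M) → (∀ a ∈ M, ∀ b ∈ M, μ a b ∈ M) → M = ⊤) :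
    ⊤ ≤ Submodule.span K (Set.range y) ⊔ F μ 1 := by
  rw [top_le_iff]
  apply hgen
  · intro i
    exact Submodule.mem_sup_left (Submodule.subset_span ⟨i, rfl⟩)
  · intro a _ b _
    exact Submodule.mem_sup_right (F_mul μ a (Submodule.mem_top : b ∈ F μ 0))

def SS (μ : H →ₗ[K] H →ₗ[K] H) (P : Submodule K H) : ℕ → Submodule K H
  | 0 => P
  | k + 1 => Submodule.map₂ μ P (SS μ P k)

lemma finDim {N : ℕ} (hN : F μ N = ⊥) (hA : ∀ k c d b, b ∈ F μ k → μ (μ c d) b ∈ F μ (k + 2))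
    (hgen : ∀ M : Submodule K H, (∀ i, y i ∈ M) → (∀ a ∈ M, ∀ b ∈ M, μ a b ∈ M) → M = ⊤) :
    FiniteDimensional K H := by
  set P := Submodule.span K (Set.range y) with hP
  have hfg : ∀ k, (SS μ P k).FG := by
    intro k
    induction k with
    | zero => exact Submodule.fg_span (Set.finite_range y)
    | succ k ih => exact Submodule.FG.map₂ μ (Submodule.fg_span (Set.finite_range y)) ih
  have hS : ∀ k, SS μ P k ≤ F μ k := by
    intro k
    induction k with
    | zero => exact le_top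
    | succ k ih => exact Submodule.map₂_le_map₂ le_top ih
  have h1 := key hA (SS μ P) (span_sup hgen) hS
    (fun k a ha b hb => Submodule.apply_mem_map₂ μ ha hb)
  have h2 := key_top hN (SS μ P) ((Finset.range N).sup (SS μ P)) 0 (fun k _ => h1 k)
    (fun k _ hk => Finset.le_sup (f := SS μ P) (Finset.mem_range.2 hk))
  have h3 : ((Finset.range N).sup (SS μ P)).FG := Submodule.fg_finset_sup _ _ fun k _ => hfg k
  have h4 : ((Finset.range N).sup (SS μ P)) = ⊤ := top_le_iff.1 h2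
  rw [h4] at h3
  exact ⟨h3⟩

lemma surj_of {N : ℕ} (hN : F μ N = ⊥) (hA : ∀ k c d b, b ∈ F μ k → μ (μ c d) b ∈ F μ (k + 2))
    (σ : H →ₗ[K] H) (hσ : ∀ x y, σ (μ x y) = μ (σ x) (σ y))
    (h : ⊤ ≤ LinearMap.range σ ⊔ F μ 1) : Function.Surjective σ := by
  have h1 := key hA (fun k => LinearMap.range σ ⊓ F μ k)
    (by simpa [F] using h) (fun k => inf_le_right) (by
      rintro k a ⟨⟨a', rfl⟩, -⟩ b ⟨⟨b', rfl⟩, hb⟩
      exact ⟨⟨μ a' b', hσ _ _⟩, F_mul μ _ hb⟩)
  have h2 := key_top hN (fun k => LinearMap.range σ ⊓ F μ k) (LinearMap.range σ) 0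
    (fun k _ => h1 k) (fun k _ _ => inf_le_left)
  exact LinearMap.range_eq_top.1 (top_le_iff.1 h2)

lemma F_one_rep {N : ℕ} (hN : F μ N = ⊥) (hA : ∀ k c d b, b ∈ F μ k → μ (μ c d) b ∈ F μ (k + 2))
    (hgen : ∀ M : Submodule K H, (∀ i, y i ∈ M) → (∀ a ∈ M, ∀ b ∈ M, μ a b ∈ M) → M = ⊤)
    {z : H} (hz : z ∈ F μ 1) : ∃ b : Fin r → H, z = ∑ j, μ (y j) (b j) := by
  let W : Submodule K H := LinearMap.range
    (∑ j : Fin r, (μ (y j)).comp (LinearMap.proj j : (Fin r → H) →ₗ[K] H))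
  have hW : ∀ s ∈ Submodule.span K (Set.range y), ∀ b, μ s b ∈ W := by
    intro s hs b
    obtain ⟨c, rfl⟩ := (Submodule.mem_span_range_iff_exists_fun K).1 hs
    refine ⟨fun j => c j • b, ?_⟩
    simp [LinearMap.sum_apply, map_sum]
  have h1 : ∀ k, 1 ≤ k → F μ k ≤ W ⊔ F μ (k + 1) := by
    intro k hk
    obtain ⟨k, rfl⟩ : ∃ l, k = l + 1 := ⟨k - 1, by omega⟩
    change Submodule.map₂ μ ⊤ (F μ k) ≤ _
    rw [Submodule.map₂_le]
    intro a _ b hb
    obtain ⟨s, hs, a', ha', rfl⟩ :=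
      Submodule.mem_sup.1 (span_sup hgen (Submodule.mem_top (x := a)))
    rw [map_add, LinearMap.add_apply]
    exact Submodule.add_mem_sup (hW s hs b) (F_one_mul hA ha' hb)
  obtain ⟨b, hb⟩ := key_top hN (fun _ => W) W 1 h1 (fun _ _ _ => le_rfl) hz
  refine ⟨b, ?_⟩
  rw [← hb]
  simp [LinearMap.sum_apply]

lemma exists_term
    (hgen : ∀ M : Submodule K H, (∀ i, y i ∈ M) → (∀ a ∈ M, ∀ b ∈ M, μ a b ∈ M) → M = ⊤) (h : H) :
    ∃ f : (Fin r → H) → H, Tm K (fun a b => μ a b) f ∧ f y = h := by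
  let M : Submodule K H :=
    { carrier := {h | ∃ f : (Fin r → H) → H, Tm K (fun a b => μ a b) f ∧ f y = h}
      add_mem' := by
        rintro _ _ ⟨f, hf, rfl⟩ ⟨g, hg, rfl⟩
        exact ⟨_, hf.add hg, rfl⟩
      zero_mem' := ⟨_, Tm.zero, rfl⟩
      smul_mem' := by
        rintro c _ ⟨f, hf, rfl⟩
        exact ⟨_, hf.smul c, rfl⟩ }
  have : M = ⊤ := by
    apply hgen
    · intro i
      exact ⟨_, Tm.var i, rfl⟩
    · rintro _ ⟨f, hf, rfl⟩ _ ⟨g, hg, rfl⟩
      exact ⟨_, hf.mul hg, rfl⟩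
  have h' : h ∈ M := this ▸ Submodule.mem_top
  exact h'

/-- The main criterion. -/
theorem homogeneous_of {N : ℕ} (hN : F μ N = ⊥)
    (hA : ∀ k c d b, b ∈ F μ k → μ (μ c d) b ∈ F μ (k + 2))
    (hgen : ∀ M : Submodule K H, (∀ i, y i ∈ M) → (∀ a ∈ M, ∀ b ∈ M, μ a b ∈ M) → M = ⊤)
    (hend : ∀ y' : Fin r → H, ∃ σ : H →ₗ[K] H, (∀ a b, σ (μ a b) = μ (σ a) (σ b)) ∧
      ∀ i, σ (y i) = y' i)
    (c : K) (hyy : ∀ a, μ a a = c • μ a a)
    (hy : ∀ i, y i ∉ F μ 1)
    (hcent : ∀ a b, μ a b = c • μ b a → ∀ l n : H →ₗ[K] K, (∀ x ∈ F μ 1, l x = 0) →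
      (∀ x ∈ F μ 1, n x = 0) → l a * n b = l b * n a) :
    Homogeneous K H (fun a b => μ a b) := by
  classical
  intro k a b hab
  choose f hf hfy using exists_term hgen
  let Q : (Fin k → H) → (Fin r → H) → Prop := fun x y' =>
    (∀ i, x i = f (a i) y') ∧
    (∀ i, ¬ ∃ w : Fin r ⊕ Fin r → H, y' i = ∑ j, μ (w (.inl j)) (w (.inr j))) ∧
    ∀ z : Unit → H, ∃ w : Fin r ⊕ (Fin r ⊕ Fin r) → H,
      (∀ i, μ (y' i) (w (.inl i)) = c • μ (w (.inl i)) (y' i)) ∧
      z () = ∑ i, w (.inl i) + ∑ j, μ (w (.inr (.inl j))) (w (.inr (.inr j)))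
  have hQ : Df K (fun a b => μ a b) (fun x => ∃ y', Q x y') := by
    apply Df.ex
    refine Df.and (Df.all_fin fun i => Df.eq (Tm.var (Sum.inl i)) ((hf (a i)).comp Sum.inr))
      (Df.and (Df.all_fin fun i => Df.not ?_) ?_)
    · apply Df.ex
      exact Df.eq (Tm.var (Sum.inl (Sum.inr i)))
        (Tm.sum _ fun j => Tm.mul (Tm.var (Sum.inr (Sum.inl j))) (Tm.var (Sum.inr (Sum.inr j))))
    · apply Df.all
      apply Df.ex
      refine Df.and (Df.all_fin fun i => Df.eq ?_ ?_) (Df.eq ?_ (Tm.add ?_ ?_))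
      · exact Tm.mul (Tm.var (Sum.inl (Sum.inl (Sum.inr i)))) (Tm.var (Sum.inr (Sum.inl i)))
      · exact Tm.smul c
          (Tm.mul (Tm.var (Sum.inr (Sum.inl i))) (Tm.var (Sum.inl (Sum.inl (Sum.inr i)))))
      · exact Tm.var (Sum.inl (Sum.inr ()))
      · exact Tm.sum _ fun i => Tm.var (Sum.inr (Sum.inl i))
      · exact Tm.sum _ fun j => Tm.mul (Tm.var (Sum.inr (Sum.inr (Sum.inl j))))
          (Tm.var (Sum.inr (Sum.inr (Sum.inr j))))
  obtain ⟨φ, hφ⟩ := hQ
  have hQa : ∃ y', Q a y' := by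
    refine ⟨y, fun i => (hfy _).symm, fun i ⟨w, hw⟩ => hy i ?_, fun z => ?_⟩
    · rw [hw]
      exact Submodule.sum_mem _ fun j _ => F_mul μ _ (Submodule.mem_top : _ ∈ F μ 0)
    · obtain ⟨s, hs, a', ha', hz⟩ :=
        Submodule.mem_sup.1 (span_sup hgen (Submodule.mem_top (x := z ())))
      obtain ⟨e, rfl⟩ := (Submodule.mem_span_range_iff_exists_fun K).1 hs
      obtain ⟨b', hb'⟩ := F_one_rep hN hA hgen ha'
      refine ⟨Sum.elim (fun i => e i • y i) (Sum.elim y b'), fun i => ?_, ?_⟩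
      · simp only [Sum.elim_inl, map_smul, LinearMap.smul_apply]
        rw [smul_comm, ← hyy]
      · simp only [Sum.elim_inl, Sum.elim_inr]
        rw [← hb', hz]
  obtain ⟨y', h1, h2, h3⟩ : ∃ y', Q b y' := (hφ b).1 ((hab φ).1 ((hφ a).2 hQa))
  obtain ⟨σ, hσ, hσy⟩ := hend y'
  have hy' : ∀ i, y' i ∉ F μ 1 := by
    intro i hi
    obtain ⟨b', hb'⟩ := F_one_rep hN hA hgen hi
    exact h2 i ⟨Sum.elim y b', hb'⟩
  have hsur : Function.Surjective σ := by
    apply surj_of hN hA σ hσ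
    intro z _
    obtain ⟨w, hw, hz⟩ := h3 (fun _ => z)
    change z = _ at hz
    rw [hz]
    refine Submodule.add_mem _ (Submodule.sum_mem _ fun i _ => ?_) (Submodule.mem_sup_right
      (Submodule.sum_mem _ fun j _ => F_mul μ _ (Submodule.mem_top : _ ∈ F μ 0)))
    by_contra hn
    obtain ⟨n, hn1, hn2⟩ := Submodule.exists_dual_map_eq_bot_of_notMem hn inferInstance
    obtain ⟨l, hl1, hl2⟩ := Submodule.exists_dual_map_eq_bot_of_notMem (hy' i) inferInstance
    have hn3 : ∀ x ∈ LinearMap.range σ ⊔ F μ 1, n x = 0 := fun x hx => by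
      have : n x ∈ Submodule.map n (LinearMap.range σ ⊔ F μ 1) := Submodule.mem_map_of_mem hx
      rwa [hn2, Submodule.mem_bot] at this
    have hl3 : ∀ x ∈ F μ 1, l x = 0 := fun x hx => by
      have : l x ∈ Submodule.map l (F μ 1) := Submodule.mem_map_of_mem hx
      rwa [hl2, Submodule.mem_bot] at this
    have := hcent _ _ (hw i) l n hl3 (fun x hx => hn3 x (Submodule.mem_sup_right hx))
    rw [hn3 (y' i) (Submodule.mem_sup_left ⟨y i, hσy i⟩), mul_zero] at this
    exact mul_ne_zero hl1 hn1 this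
  haveI := finDim hN hA hgen
  have hinj : Function.Injective σ := (LinearMap.injective_iff_surjective).2 hsur
  refine ⟨LinearEquiv.ofBijective σ ⟨hinj, hsur⟩, hσ, fun i => ?_⟩
  change σ (a i) = b i
  obtain ⟨t, ht⟩ := hf (a i)
  have e : σ ∘ y = y' := funext hσy
  rw [h1 i, ← ht y', ← e, ← realize_hom σ hσ y t, ht, hfy]

/-- Zero product: a vector space is homogeneous. -/
theorem homogeneous_zero (m : H → H → H) (hm : ∀ a b, m a b = 0) :
    Homogeneous K H m := by
  classical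
  intro k a b hab
  have hrel : ∀ e : Fin k → K, ∑ i, e i • a i = 0 ↔ ∑ i, e i • b i = 0 := by
    intro e
    obtain ⟨φ, hφ⟩ : Df K m (fun x : Fin k → H => ∑ i, e i • x i = 0) :=
      Df.eq (Tm.sum _ fun i => (Tm.var i).smul (e i)) Tm.zero
    exact (hφ a).symm.trans ((hab φ).trans (hφ b))
  let A : (Fin k → K) →ₗ[K] H := Fintype.linearCombination K a
  let B : (Fin k → K) →ₗ[K] H := Fintype.linearCombination K b
  have hker : LinearMap.ker A = LinearMap.ker B := by
    ext e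
    simp only [LinearMap.mem_ker, A, B, Fintype.linearCombination_apply]
    exact hrel e
  let g : LinearMap.range A ≃ₗ[K] LinearMap.range B :=
    (A.quotKerEquivRange.symm.trans (Submodule.quotEquivOfEq _ _ hker)).trans B.quotKerEquivRange
  obtain ⟨σ, hσ⟩ := Submodule.exists_linearEquiv_restrict_eq g
  refine ⟨σ, fun x y => by rw [hm, hm, map_zero], fun i => ?_⟩
  have hA : A (Pi.single i 1) = a i := by simp [A]
  have hB : B (Pi.single i 1) = b i := by simp [B]
  have := hσ ⟨A (Pi.single i 1), LinearMap.mem_range_self _ _⟩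
  rw [← hB, ← hA, ← this]
  simp [g, LinearMap.quotKerEquivRange_symm_apply_image]

end filt

end Pool.Agent.Lib.helper20.AlgHomog
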