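import Pool.Agent.Lib.helper20.AlgHomog

namespace Pool.Agent.Lib.helper20.AlgHomog

open FirstOrder FirstOrder.Language

universe u

/-- The tuple `a` of `H` and the tuple `b` of `H'` satisfy the same first-order formulas. -/
def SameType (K : Type u) {H H' : Type u} [Field K] [AddCommGroup H] [Module K H]
    [AddCommGroup H'] [Module K H'] (m : H → H → H) (m' : H' → H' → H') {k : ℕ}
    (a : Fin k → H) (b : Fin k → H') : Prop :=
  ∀ φ : (LK K).Formula (Fin k),
    @Formula.Realize (LK K) H (str K m) (Fin k) φ a ↔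
      @Formula.Realize (LK K) H' (str K m') (Fin k) φ b

/-- Isotypic algebras: they realise the same types of finite tuples. -/
def Isotypic (K H H' : Type u) [Field K] [AddCommGroup H] [Module K H]
    [AddCommGroup H'] [Module K H'] (m : H → H → H) (m' : H' → H' → H') : Prop :=
  ∀ k : ℕ, (∀ a : Fin k → H, ∃ b : Fin k → H', SameType K m m' a b) ∧
    (∀ b : Fin k → H', ∃ a : Fin k → H, SameType K m m' a b)

variable {K H H' : Type u} [Field K] [AddCommGroup H] [Module K H]
    [AddCommGroup H'] [Module K H'] {m : H → H → H} {m' : H' → H' → H'}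

lemma realize_hom2 {α : Type} (σ : H →ₗ[K] H') (hσ : ∀ x y, σ (m x y) = m' (σ x) (σ y))
    (v : α → H) (t : (LK K).Term α) :
    σ (@Term.realize (LK K) H (str K m) α v t) =
      @Term.realize (LK K) H' (str K m') α (σ ∘ v) t := by
  let _i := str K m
  let _j := str K m'
  induction t with
  | var a => rfl
  | func f ts ih =>
    cases f with
    | zero => exact map_zero σ
    | neg =>
      change σ (-(Term.realize v (ts 0))) = -(Term.realize (σ ∘ v) (ts 0))
      rw [map_neg, ih]
    | smul c =>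
      change σ (c • (Term.realize v (ts 0))) = c • (Term.realize (σ ∘ v) (ts 0))
      rw [map_smul, ih]
    | add =>
      change σ (Term.realize v (ts 0) + Term.realize v (ts 1)) =
        Term.realize (σ ∘ v) (ts 0) + Term.realize (σ ∘ v) (ts 1)
      rw [map_add, ih, ih]
    | mul =>
      change σ (m (Term.realize v (ts 0)) (Term.realize v (ts 1))) =
        m' (Term.realize (σ ∘ v) (ts 0)) (Term.realize (σ ∘ v) (ts 1))
      rw [hσ, ih, ih]

theorem iso_of_isotypic {r : ℕ} {y : Fin r → H} (hh : Homogeneous K H m)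
    (hterm : ∀ h : H, ∃ f : (Fin r → H) → H, Tm K m f ∧ f y = h)
    (hext : ∀ y' : Fin r → H', ∃ f : H →ₗ[K] H', (∀ a b, f (m a b) = m' (f a) (f b)) ∧
      ∀ i, f (y i) = y' i)
    (hi : Isotypic K H H' m m') :
    ∃ e : H ≃ₗ[K] H', ∀ a b, e (m a b) = m' (e a) (e b) := by
  let _i := str K m
  let _j := str K m'
  obtain ⟨y', hy'⟩ := (hi r).1 y
  obtain ⟨f, hf, hfy⟩ := hext y'
  have e0 : f ∘ y = y' := funext hfy
  have hinj : Function.Injective f := by
    intro a b hab
    obtain ⟨_, ⟨t, ht⟩, rfl⟩ := hterm a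
    obtain ⟨_, ⟨s, hs⟩, rfl⟩ := hterm b
    rw [← ht y, ← hs y] at hab ⊢
    rw [realize_hom2 f hf, realize_hom2 f hf, e0] at hab
    have := (hy' (Term.equal t s)).2 (by rw [Formula.realize_equal]; exact hab)
    rwa [Formula.realize_equal] at this
  have hsur : Function.Surjective f := by
    intro h
    obtain ⟨w, hw⟩ := (hi (r + 1)).2 (Fin.snoc y' h)
    have e1 : (Fin.snoc y' h : Fin (r + 1) → H') ∘ Fin.castSucc = y' := by
      funext i; simp
    obtain ⟨σ, hσ, hσy⟩ := hh r y (w ∘ Fin.castSucc) (fun φ => by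
      have := hw (φ.relabel Fin.castSucc)
      rw [Formula.realize_relabel, Formula.realize_relabel, e1] at this
      exact (hy' φ).trans this.symm)
    obtain ⟨_, ⟨t, ht⟩, hty⟩ := hterm (σ.symm (w (Fin.last r)))
    have e2 : (σ : H →ₗ[K] H) ∘ y = w ∘ Fin.castSucc := funext hσy
    have e3 : Term.realize (w ∘ Fin.castSucc) t = w (Fin.last r) := by
      rw [← e2, ← realize_hom2 (m := m) (m' := m) (σ : H →ₗ[K] H) hσ y t, ht, hty]
      simp
    have e4 := (hw (Term.equal (t.relabel Fin.castSucc) (Term.var (Fin.last r)))).1 (by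
      rw [Formula.realize_equal, Term.realize_relabel, e3]; rfl)
    rw [Formula.realize_equal, Term.realize_relabel, e1] at e4
    refine ⟨Term.realize y t, ?_⟩
    rw [realize_hom2 f hf, e0, e4]
    simp
  exact ⟨LinearEquiv.ofBijective f ⟨hinj, hsur⟩, hf⟩

end Pool.Agent.Lib.helper20.AlgHomog
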