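import Pool.Agent.Lib.helper20.AlgHomog

namespace Pool.Agent.Lib.helper20.AlgHomog

universe u

/-- `y` freely generates the associative (not necessarily unital) `K`-algebra `A` in the class
`P` of such algebras: `A` lies in `P` and every map of the generators into an algebra of `P`
extends uniquely to a `K`-algebra homomorphism. -/
def IsFreeIn (K : Type u) [Field K]
    (P : ∀ (B : Type u) [NonUnitalRing B] [Module K B], Prop)
    (A : Type u) [NonUnitalRing A] [Module K A] {r : ℕ} (y : Fin r → A) : Prop :=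
  P A ∧ ∀ (B : Type u) [NonUnitalRing B] [Module K B] [IsScalarTower K B B] [SMulCommClass K B B],
    P B → ∀ b : Fin r → B, ∃! f : A →ₙₐ[K] B, ∀ i, f (y i) = b i

def T3 (K : Type u) : Type u := K × K × K

variable {K : Type u} [Field K]

instance : AddCommGroup (T3 K) := inferInstanceAs (AddCommGroup (K × K × K))
instance : Module K (T3 K) := inferInstanceAs (Module K (K × K × K))

def T3.mk (a b c : K) : T3 K := (a, b, c)
def T3.p1 : T3 K →ₗ[K] K := LinearMap.fst K K (K × K)
def T3.p2 : T3 K →ₗ[K] K := (LinearMap.fst K K K).comp (LinearMap.snd K K (K × K))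
def T3.p3 : T3 K →ₗ[K] K := (LinearMap.snd K K K).comp (LinearMap.snd K K (K × K))

lemma T3.ext' {x z : T3 K} (h1 : T3.p1 x = T3.p1 z) (h2 : T3.p2 x = T3.p2 z)
    (h3 : T3.p3 x = T3.p3 z) : x = z := Prod.ext h1 (Prod.ext h2 h3)

@[simp] lemma T3.p1_mk (a b c : K) : T3.p1 (T3.mk a b c) = a := rfl
@[simp] lemma T3.p2_mk (a b c : K) : T3.p2 (T3.mk a b c) = b := rfl
@[simp] lemma T3.p3_mk (a b c : K) : T3.p3 (T3.mk a b c) = c := rfl

instance : Mul (T3 K) := ⟨fun x z => T3.mk 0 0 (T3.p1 x * T3.p2 z)⟩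

@[simp] lemma T3.p1_mul (x z : T3 K) : T3.p1 (x * z) = 0 := rfl
@[simp] lemma T3.p2_mul (x z : T3 K) : T3.p2 (x * z) = 0 := rfl
@[simp] lemma T3.p3_mul (x z : T3 K) : T3.p3 (x * z) = T3.p1 x * T3.p2 z := rfl

instance : NonUnitalRing (T3 K) :=
  { (inferInstance : AddCommGroup (T3 K)), (inferInstance : Mul (T3 K)) with
    left_distrib := fun a b c => T3.ext' (by simp) (by simp) (by simp [mul_add])
    right_distrib := fun a b c => T3.ext' (by simp) (by simp) (by simp [add_mul])
    zero_mul := fun a => T3.ext' (by simp) (by simp) (by simp)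
    mul_zero := fun a => T3.ext' (by simp) (by simp) (by simp)
    mul_assoc := fun a b c => T3.ext' (by simp) (by simp) (by simp) }

instance : IsScalarTower K (T3 K) (T3 K) :=
  ⟨fun a b c => T3.ext' (by simp) (by simp) (by simp [mul_assoc])⟩

instance : SMulCommClass K (T3 K) (T3 K) :=
  ⟨fun a b c => T3.ext' (by simp) (by simp) (by simp [mul_left_comm])⟩

variable {A : Type u} [NonUnitalRing A] [Module K A] [IsScalarTower K A A] [SMulCommClass K A A]

lemma assoc_hA (k : ℕ) (c d b : A) (hb : b ∈ F (LinearMap.mul K A) k) :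
    LinearMap.mul K A (LinearMap.mul K A c d) b ∈ F (LinearMap.mul K A) (k + 2) := by
  have := F_mul (LinearMap.mul K A) c (F_mul (LinearMap.mul K A) d hb)
  simpa [mul_assoc] using this

lemma lin_eq_of {r : ℕ} {H : Type u} [AddCommGroup H] [Module K H]
    {μ : H →ₗ[K] H →ₗ[K] H} {y : Fin r → H}
    (hgen : ∀ M : Submodule K H, (∀ i, y i ∈ M) → (∀ a ∈ M, ∀ b ∈ M, μ a b ∈ M) → M = ⊤)
    (l l' : H →ₗ[K] K) (hl : ∀ x ∈ F μ 1, l x = 0) (hl' : ∀ a b, l' (μ a b) = 0)
    (h : ∀ i, l (y i) = l' (y i)) (x : H) : l x = l' x := by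
  have : LinearMap.eqLocus l l' = ⊤ := by
    apply hgen
    · exact h
    · intro a _ b _
      change l _ = l' _
      rw [hl', hl _ (F_mul μ a (Submodule.mem_top : b ∈ F μ 0))]
  have hx : x ∈ LinearMap.eqLocus l l' := this ▸ Submodule.mem_top
  exact hx

theorem assoc_homog {P : ∀ (B : Type u) [NonUnitalRing B] [Module K B], Prop} {r : ℕ}
    {y : Fin r → A} (hfree : IsFreeIn K P A y)
    (hsub : ∀ S : NonUnitalSubalgebra K A, P S)
    {N : ℕ} (hN : F (LinearMap.mul K A) N = ⊥) (hT : P (T3 K)) :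
    Homogeneous K A (fun a b => a * b) := by
  classical
  obtain ⟨hP, hU⟩ := hfree
  have hgen : ∀ M : Submodule K A, (∀ i, y i ∈ M) →
      (∀ a ∈ M, ∀ b ∈ M, LinearMap.mul K A a b ∈ M) → M = ⊤ := by
    intro M hy hM
    let S : NonUnitalSubalgebra K A := M.toNonUnitalSubalgebra (fun a b ha hb => hM a ha b hb)
    obtain ⟨f, hf, -⟩ := hU S (hsub S) (fun i => ⟨y i, hy i⟩)
    obtain ⟨g, -, hg⟩ := hU A hP y
    have e1 := hg ((NonUnitalSubalgebraClass.subtype S).comp f) (fun i => by simp [hf])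
    have e2 := hg (NonUnitalAlgHom.id K A) (fun i => rfl)
    rw [eq_top_iff]
    intro x _
    have : x = ((f x : S) : A) := DFunLike.congr_fun (e2.trans e1.symm) x
    rw [this]
    exact (f x).2
  refine homogeneous_of (μ := LinearMap.mul K A) hN assoc_hA hgen ?_ 1 (fun a => (one_smul _ _).symm)
    ?_ ?_
  · intro y'
    obtain ⟨f, hf, -⟩ := hU A hP y'
    exact ⟨(f : A →ₗ[K] A), fun a b => by simp, hf⟩
  · intro i hi
    obtain ⟨f, hf, -⟩ := hU (T3 K) hT (fun _ => T3.mk 1 0 0)
    have : F (LinearMap.mul K A) 1 ≤ LinearMap.ker (T3.p1.comp (f : A →ₗ[K] T3 K)) := by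
      change Submodule.map₂ _ ⊤ ⊤ ≤ _
      rw [Submodule.map₂_le]
      intro a _ b _
      simp
    have h2 := this hi
    simp [hf] at h2
  · intro a b hab l n hl hn
    obtain ⟨f, hf, -⟩ := hU (T3 K) hT (fun i => T3.mk (l (y i)) (n (y i)) 0)
    have h1 := lin_eq_of (y := y) hgen l (T3.p1.comp (f : A →ₗ[K] T3 K)) hl
      (fun a b => by simp) (fun i => by simp [hf])
    have h2 := lin_eq_of (y := y) hgen n (T3.p2.comp (f : A →ₗ[K] T3 K)) hn
      (fun a b => by simp) (fun i => by simp [hf])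
    have h3 : a * b = b * a := by simpa using hab
    have h4 := congrArg (fun x => T3.p3 (f x)) h3
    simp only [map_mul, T3.p3_mul] at h4
    rw [h1 a, h1 b, h2 a, h2 b]
    exact h4

lemma F_add_le (i j : ℕ) : F (LinearMap.mul K A) (i + j + 1) ≤
    Submodule.map₂ (LinearMap.mul K A) (F (LinearMap.mul K A) i) (F (LinearMap.mul K A) j) := by
  induction i with
  | zero => rw [Nat.zero_add]; exact le_rfl
  | succ i ih =>
    rw [show i + 1 + j + 1 = (i + j + 1) + 1 by ring]
    change Submodule.map₂ _ ⊤ (F _ (i + j + 1)) ≤ _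
    rw [Submodule.map₂_le]
    intro a _ b hb
    have : Submodule.map₂ (LinearMap.mul K A) (F (LinearMap.mul K A) i) (F (LinearMap.mul K A) j) ≤
        (Submodule.map₂ (LinearMap.mul K A) (F (LinearMap.mul K A) (i + 1))
          (F (LinearMap.mul K A) j)).comap (LinearMap.mul K A a) := by
      rw [Submodule.map₂_le]
      intro c hc d hd
      have := Submodule.apply_mem_map₂ (LinearMap.mul K A) (F_mul (LinearMap.mul K A) a hc) hd
      simpa [mul_assoc] using this
    exact this (ih hb)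

end Pool.Agent.Lib.helper20.AlgHomog
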