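import Mathlib

namespace Pool.Agent.Lib.helper20.Bicross

open TensorProduct

variable {k : Type} [Field k] [CharP k 2]

/-- relations; `t = 1` adds `g = 1`, `t = 2` adds `x = 0` -/
def Rel (b : k) (t : ℕ) (p q : FreeAlgebra k Bool) : Prop :=
  (p = FreeAlgebra.ι k false ^ 4 ∧ q = 0) ∨
  (p = FreeAlgebra.ι k true * FreeAlgebra.ι k true ∧ q = 1) ∨
  (p = FreeAlgebra.ι k true * FreeAlgebra.ι k false ∧
    q = (FreeAlgebra.ι k false + b • FreeAlgebra.ι k false ^ 2) * FreeAlgebra.ι k true) ∨
  (t = 1 ∧ p = FreeAlgebra.ι k true ∧ q = 1) ∨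
  (t = 2 ∧ p = FreeAlgebra.ι k false ∧ q = 0)

def E (b : k) (t : ℕ) : Type := RingQuot (Rel b t)

noncomputable instance (b : k) (t : ℕ) : Ring (E b t) := inferInstanceAs (Ring (RingQuot (Rel b t)))
noncomputable instance (b : k) (t : ℕ) : Algebra k (E b t) :=
  inferInstanceAs (Algebra k (RingQuot (Rel b t)))

noncomputable def mk (b : k) (t : ℕ) : FreeAlgebra k Bool →ₐ[k] E b t :=
  RingQuot.mkAlgHom k (Rel b t)

noncomputable def x (b : k) (t : ℕ) : E b t := mk b t (FreeAlgebra.ι k false)
noncomputable def g (b : k) (t : ℕ) : E b t := mk b t (FreeAlgebra.ι k true)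

variable (b : k) (t : ℕ)

omit [CharP k 2] in
lemma mk_rel {p q : FreeAlgebra k Bool} (h : Rel b t p q) : mk b t p = mk b t q :=
  RingQuot.mkAlgHom_rel k h

omit [CharP k 2] in
lemma x4 : x b t ^ 4 = 0 := by
  have := mk_rel b t (Or.inl ⟨rfl, rfl⟩)
  simpa [x] using this

omit [CharP k 2] in
lemma gg : g b t * g b t = 1 := by
  have := mk_rel b t (Or.inr (Or.inl ⟨rfl, rfl⟩))
  simpa [g] using this

omit [CharP k 2] in
lemma gx : g b t * x b t = (x b t + b • x b t ^ 2) * g b t := by
  have := mk_rel b t (Or.inr (Or.inr (Or.inl ⟨rfl, rfl⟩)))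
  simpa [g, x] using this

omit [CharP k 2] in
lemma g1 (h : t = 1) : g b t = 1 := by
  have := mk_rel b t (Or.inr (Or.inr (Or.inr (Or.inl ⟨h, rfl, rfl⟩))))
  simpa [g] using this

omit [CharP k 2] in
lemma x0 (h : t = 2) : x b t = 0 := by
  have := mk_rel b t (Or.inr (Or.inr (Or.inr (Or.inr ⟨h, rfl, rfl⟩))))
  simpa [x] using this

noncomputable def lift {B : Type} [Ring B] [Algebra k B] (X G : B) (h1 : X ^ 4 = 0)
    (h2 : G * G = 1) (h3 : G * X = (X + b • X ^ 2) * G) (h4 : t = 1 → G = 1)
    (h5 : t = 2 → X = 0) : E b t →ₐ[k] B :=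
  RingQuot.liftAlgHom k ⟨FreeAlgebra.lift k (fun c => if c then G else X), by
    rintro p q (⟨rfl, rfl⟩ | ⟨rfl, rfl⟩ | ⟨rfl, rfl⟩ | ⟨h, rfl, rfl⟩ | ⟨h, rfl, rfl⟩)
    · simpa using h1
    · simpa using h2
    · simpa using h3
    · simpa using h4 h
    · simpa using h5 h⟩

omit [CharP k 2] in
@[simp] lemma lift_x {B : Type} [Ring B] [Algebra k B] (X G : B) (h1 h2 h3 h4 h5) :
    lift b t X G h1 h2 h3 h4 h5 (x b t) = X := by
  unfold lift x mk
  exact (RingQuot.liftAlgHom_mkAlgHom_apply k _ _ _).trans (by simp)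

omit [CharP k 2] in
@[simp] lemma lift_g {B : Type} [Ring B] [Algebra k B] (X G : B) (h1 h2 h3 h4 h5) :
    lift b t X G h1 h2 h3 h4 h5 (g b t) = G := by
  unfold lift g mk
  exact (RingQuot.liftAlgHom_mkAlgHom_apply k _ _ _).trans (by simp)

omit [CharP k 2] in
lemma ind {P : E b t → Prop} (h0 : ∀ r : k, P (algebraMap k _ r)) (hx : P (x b t))
    (hg : P (g b t)) (hm : ∀ a c, P a → P c → P (a * c)) (ha : ∀ a c, P a → P c → P (a + c))
    (z : E b t) : P z := by
  obtain ⟨w, rfl⟩ : ∃ w, mk b t w = z := RingQuot.mkAlgHom_surjective k (Rel b t) z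
  induction w using FreeAlgebra.induction with
  | grade0 r => simpa using h0 r
  | grade1 c => cases c; exacts [hx, hg]
  | mul a c h1 h2 => rw [map_mul]; exact hm _ _ h1 h2
  | add a c h1 h2 => rw [map_add]; exact ha _ _ h1 h2

omit [CharP k 2] in
lemma hom_ext {B : Type} [Ring B] [Algebra k B] {f f' : E b t →ₐ[k] B}
    (hx : f (x b t) = f' (x b t)) (hg : f (g b t) = f' (g b t)) : f = f' := by
  ext z
  refine ind b t (P := fun z => f z = f' z) (by simp) hx hg ?_ ?_ z
  · intro a c h1 h2; simp only [map_mul, h1, h2]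
  · intro a c h1 h2; simp only [map_add, h1, h2]

lemma two_smul_eq {M : Type} [AddCommGroup M] [Module k M] (m : M) : m + m = 0 := by
  have h : (2 : k) = 0 := CharP.cast_eq_zero k 2
  rw [← two_smul k m, h, zero_smul]

lemma sq_add {B : Type} [Ring B] [Algebra k B] (u v : B) (h : Commute u v) :
    (u + v) ^ 2 = u ^ 2 + v ^ 2 := by
  have : u * v + u * v = 0 := two_smul_eq (k := k) _
  rw [sq, add_mul, mul_add, mul_add, ← h.eq, sq, sq]
  calc u * u + u * v + (u * v + v * v) = u * u + v * v + (u * v + u * v) := by abel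
    _ = _ := by rw [this, add_zero]

lemma sig_sq {B : Type} [Ring B] [Algebra k B] (X : B) (a c : k) (h1 : X ^ 4 = 0) :
    (a • X + c • X ^ 2) ^ 2 = a ^ 2 • X ^ 2 := by
  rw [sq_add (k := k) _ _ (((Commute.refl X).pow_right 2).smul_left a |>.smul_right c),
    smul_pow, smul_pow, ← pow_mul, h1, smul_zero, add_zero]

lemma gx2 : g b t * x b t ^ 2 = x b t ^ 2 * g b t := by
  have h := sig_sq (x b t) 1 b (x4 b t)
  simp only [one_smul, one_pow] at h
  rw [sq, ← mul_assoc, gx, mul_assoc, gx, ← mul_assoc, ← sq, h, sq]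

lemma gx3 : g b t * x b t ^ 3 = x b t ^ 3 * g b t := by
  rw [pow_succ' _ 2, ← mul_assoc, gx, mul_assoc, gx2, ← mul_assoc, add_mul, smul_mul_assoc,
    ← pow_add, x4]
  simp

noncomputable def dX : E b t ⊗[k] E b t :=
  x b t ⊗ₜ 1 + 1 ⊗ₜ x b t + (x b t ^ 2) ⊗ₜ (x b t ^ 2)

lemma dX_sq : dX b t ^ 2 = (x b t ^ 2) ⊗ₜ 1 + 1 ⊗ₜ (x b t ^ 2) := by
  unfold dX
  rw [sq_add (k := k), sq_add (k := k)]
  · simp [Algebra.TensorProduct.tmul_pow, ← pow_mul, x4]
  · simp [Commute, SemiconjBy]
  · refine Commute.add_left ?_ ?_ <;> simp [Commute, SemiconjBy, ← pow_succ, ← pow_succ']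

noncomputable def comul : E b t →ₐ[k] E b t ⊗[k] E b t :=
  lift b t (dX b t) (g b t ⊗ₜ g b t)
    (by
      rw [show (4 : ℕ) = 2 * 2 from rfl, pow_mul, dX_sq, sq_add (k := k)]
      · simp [Algebra.TensorProduct.tmul_pow, ← pow_mul, x4]
      · simp [Commute, SemiconjBy])
    (by simp [gg, Algebra.TensorProduct.one_def])
    (by
      rw [dX_sq]
      simp only [dX, mul_add, add_mul, Algebra.TensorProduct.tmul_mul_tmul, mul_one, one_mul, gx,
        gx2, smul_add, smul_mul_assoc, add_tmul, tmul_add, smul_tmul', tmul_smul]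
      abel)
    (fun h => by rw [g1 b t h]; rfl)
    (fun h => by simp [dX, x0 b t h])

noncomputable def counit : E b t →ₐ[k] k :=
  lift b t 0 1 (by simp) (by simp) (by simp) (by simp) (by simp)

@[simp] lemma comul_x : comul b t (x b t) = dX b t := lift_x ..
@[simp] lemma comul_g : comul b t (g b t) = g b t ⊗ₜ g b t := lift_g ..
omit [CharP k 2] in
@[simp] lemma counit_x : counit b t (x b t) = 0 := lift_x ..
omit [CharP k 2] in
@[simp] lemma counit_g : counit b t (g b t) = 1 := lift_g ..

noncomputable instance : Bialgebra k (E b t) :=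
  Bialgebra.ofAlgHom (comul b t) (counit b t)
    (by
      apply hom_ext
      · have h := dX_sq b t
        simp only [AlgHom.comp_apply, comul_x]
        conv_lhs => rw [dX]
        conv_rhs => rw [dX]
        simp only [map_add, Algebra.TensorProduct.map_tmul, comul_x, map_one, map_pow, h,
          AlgHom.id_apply]
        simp [dX, add_tmul, tmul_add, Algebra.TensorProduct.one_def]
        abel
      · simp)
    (by
      apply hom_ext
      · simp [dX]
      · simp)
    (by
      apply hom_ext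
      · simp [dX]
      · simp)

lemma comul_eq (z : E b t) : Coalgebra.comul (R := k) z = comul b t z := rfl
lemma counit_eq (z : E b t) : Coalgebra.counit (R := k) z = counit b t z := rfl

noncomputable def antiOp : E b t →ₐ[k] (E b t)ᵐᵒᵖ :=
  lift b t (MulOpposite.op (x b t)) (MulOpposite.op (g b t))
    (by rw [← MulOpposite.op_pow, x4]; rfl)
    (by rw [← MulOpposite.op_mul, gg]; rfl)
    (by
      rw [← MulOpposite.op_pow, ← MulOpposite.op_smul, ← MulOpposite.op_add, ← MulOpposite.op_mul,
        ← MulOpposite.op_mul, mul_add, mul_smul_comm, gx, gx2, add_mul, smul_mul_assoc, add_assoc,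
        two_smul_eq (k := k), add_zero])
    (fun h => by rw [g1 b t h]; rfl)
    (fun h => by rw [x0 b t h]; rfl)

noncomputable def anti : E b t →ₗ[k] E b t :=
  (MulOpposite.opLinearEquiv k).symm.toLinearMap ∘ₗ (antiOp b t).toLinearMap

lemma anti_mul (u v : E b t) : anti b t (u * v) = anti b t v * anti b t u := by
  simp [anti]
lemma anti_one : anti b t 1 = 1 := by simp [anti]
lemma anti_x : anti b t (x b t) = x b t := by simp [anti, antiOp]
lemma anti_g : anti b t (g b t) = g b t := by simp [anti, antiOp]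
lemma anti_x2 : anti b t (x b t ^ 2) = x b t ^ 2 := by rw [sq, anti_mul, anti_x]

lemma left_mul (s : E b t ⊗[k] E b t) (r : k)
    (hs : LinearMap.mul' k _ ((anti b t).rTensor _ s) = algebraMap k _ r) (u : E b t ⊗[k] E b t) :
    LinearMap.mul' k _ ((anti b t).rTensor _ (s * u)) =
      algebraMap k _ r * LinearMap.mul' k _ ((anti b t).rTensor _ u) := by
  induction u using TensorProduct.induction_on with
  | zero => simp
  | add u v h1 h2 => simp only [mul_add, map_add, h1, h2]
  | tmul a c =>
    have : ∀ s : E b t ⊗[k] E b t, LinearMap.mul' k _ ((anti b t).rTensor _ (s * a ⊗ₜ c)) =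
        anti b t a * LinearMap.mul' k _ ((anti b t).rTensor _ s) * c := by
      intro s
      induction s using TensorProduct.induction_on with
      | zero => simp
      | add u v h1 h2 => simp only [mul_add, add_mul, map_add, h1, h2]
      | tmul a' c' => simp [anti_mul, mul_assoc]
    rw [this, hs, ← Algebra.commutes]
    simp [mul_assoc]

lemma right_mul (s : E b t ⊗[k] E b t) (r : k)
    (hs : LinearMap.mul' k _ ((anti b t).lTensor _ s) = algebraMap k _ r) (u : E b t ⊗[k] E b t) :
    LinearMap.mul' k _ ((anti b t).lTensor _ (u * s)) =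
      LinearMap.mul' k _ ((anti b t).lTensor _ u) * algebraMap k _ r := by
  induction u using TensorProduct.induction_on with
  | zero => simp
  | add u v h1 h2 => simp only [add_mul, map_add, h1, h2]
  | tmul a c =>
    have : ∀ s : E b t ⊗[k] E b t, LinearMap.mul' k _ ((anti b t).lTensor _ (a ⊗ₜ c * s)) =
        a * LinearMap.mul' k _ ((anti b t).lTensor _ s) * anti b t c := by
      intro s
      induction s using TensorProduct.induction_on with
      | zero => simp
      | add u v h1 h2 => simp only [mul_add, add_mul, map_add, h1, h2]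
      | tmul a' c' => simp [anti_mul, mul_assoc]
    rw [this, hs, mul_assoc, Algebra.commutes]
    simp [mul_assoc]

noncomputable instance : HopfAlgebra k (E b t) where
  antipode := anti b t
  mul_antipode_rTensor_comul := by
    ext z
    simp only [LinearMap.comp_apply, comul_eq, counit_eq, Algebra.linearMap_apply]
    refine ind b t (P := fun z => LinearMap.mul' k _ ((anti b t).rTensor _ (comul b t z)) =
      algebraMap k _ (counit b t z)) ?_ ?_ ?_ ?_ ?_ z
    · intro r
      simp [Algebra.algebraMap_eq_smul_one, Algebra.TensorProduct.one_def, anti_one]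
    · simp [dX, anti_x, anti_x2, anti_one, ← pow_add, x4, two_smul_eq (k := k)]
    · simp [anti_g, gg]
    · intro a c h1 h2
      rw [map_mul, left_mul b t _ _ h1, h2, map_mul, map_mul]
    · intro a c h1 h2
      simp only [map_add, h1, h2]
  mul_antipode_lTensor_comul := by
    ext z
    simp only [LinearMap.comp_apply, comul_eq, counit_eq, Algebra.linearMap_apply]
    refine ind b t (P := fun z => LinearMap.mul' k _ ((anti b t).lTensor _ (comul b t z)) =
      algebraMap k _ (counit b t z)) ?_ ?_ ?_ ?_ ?_ z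
    · intro r
      simp [Algebra.algebraMap_eq_smul_one, Algebra.TensorProduct.one_def, anti_one]
    · simp [dX, anti_x, anti_x2, anti_one, ← pow_add, x4, two_smul_eq (k := k)]
    · simp [anti_g, gg]
    · intro a c h1 h2
      rw [map_mul, right_mul b t _ _ h2, h1, map_mul, map_mul]
    · intro a c h1 h2
      simp only [map_add, h1, h2]

end Pool.Agent.Lib.helper20.Bicross
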