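import Pool.Agent.Lib.helper20.Bicross

namespace Pool.Agent.Lib.helper20.Bicross

open TensorProduct

variable {k : Type} [Field k] [CharP k 2] (b : k) (t : ℕ)

noncomputable def e : Fin 8 → E b t :=
  ![1, x b t, x b t ^ 2, x b t ^ 3, g b t, x b t * g b t, x b t ^ 2 * g b t, x b t ^ 3 * g b t]

lemma span_e : Submodule.span k (Set.range (e b t)) = ⊤ := by
  set S := Submodule.span k (Set.range (e b t))
  have m : ∀ i, e b t i ∈ S := fun i => Submodule.subset_span ⟨i, rfl⟩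
  have m0 : (1 : E b t) ∈ S := m 0
  have m1 : x b t ∈ S := m 1
  have m2 : x b t ^ 2 ∈ S := m 2
  have m3 : x b t ^ 3 ∈ S := m 3
  have m4 : g b t ∈ S := m 4
  have m5 : x b t * g b t ∈ S := m 5
  have m6 : x b t ^ 2 * g b t ∈ S := m 6
  have m7 : x b t ^ 3 * g b t ∈ S := m 7
  have key : ∀ z : E b t, ∀ s ∈ S, z * s ∈ S := by
    have gen : ∀ z : E b t, (∀ i, z * e b t i ∈ S) → ∀ s ∈ S, z * s ∈ S := by
      intro z hz s hs
      induction hs using Submodule.span_induction with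
      | mem _ h => obtain ⟨i, rfl⟩ := h; exact hz i
      | zero => simp
      | add u v _ _ h1 h2 => rw [mul_add]; exact S.add_mem h1 h2
      | smul a u _ h => rw [mul_smul_comm]; exact S.smul_mem a h
    intro z
    refine ind b t (P := fun z => ∀ s ∈ S, z * s ∈ S) ?_ ?_ ?_ ?_ ?_ z
    · intro r s hs
      rw [← Algebra.smul_def]; exact S.smul_mem r hs
    · refine gen _ fun i => ?_
      fin_cases i <;> simp [e, ← mul_assoc, ← pow_succ', ← sq, x4, *]
    · refine gen _ fun i => ?_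
      fin_cases i <;> simp [e, ← mul_assoc, gx, gx2, gx3, gg, add_mul, *] <;>
        simp [mul_assoc, gg, S.add_mem, S.smul_mem, *]
    · intro a c h1 h2 s hs
      rw [mul_assoc]; exact h1 _ (h2 s hs)
    · intro a c h1 h2 s hs
      rw [add_mul]; exact S.add_mem (h1 s hs) (h2 s hs)
  rw [eq_top_iff]
  intro z _
  simpa using key z 1 m0

lemma exists_coord (z : E b t) : ∃ c : Fin 8 → k, z = ∑ i, c i • e b t i := by
  have : z ∈ Submodule.span k (Set.range (e b t)) := by rw [span_e]; trivial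
  obtain ⟨c, hc⟩ := (Submodule.mem_span_range_iff_exists_fun k).mp this
  exact ⟨c, hc.symm⟩

instance : FiniteDimensional k (E b t) :=
  ⟨(span_e b t) ▸ Submodule.fg_span (Set.finite_range _)⟩

def opX : Module.End k (Fin 8 → k) where
  toFun v := ![0, v 0, v 1, v 2, 0, v 4, v 5, v 6]
  map_add' u v := by ext i; fin_cases i <;> simp
  map_smul' a v := by ext i; fin_cases i <;> simp

def opG : Module.End k (Fin 8 → k) where
  toFun v := ![v 4, v 5, v 6 + b * v 5, v 7, v 0, v 1, v 2 + b * v 1, v 3]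
  map_add' u v := by ext i; fin_cases i <;> simp <;> ring
  map_smul' a v := by ext i; fin_cases i <;> simp <;> ring

noncomputable def rho : E b 0 →ₐ[k] Module.End k (Fin 8 → k) :=
  lift b 0 opX (opG b)
    (by
      refine LinearMap.ext fun v => funext fun i => ?_
      fin_cases i <;> simp [opX, pow_succ])
    (by
      have h2 : (2 : k) = 0 := CharP.cast_eq_zero k 2
      refine LinearMap.ext fun v => funext fun i => ?_
      fin_cases i <;> simp [opG]
      · linear_combination b * v 1 * h2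
      · linear_combination b * v 5 * h2)
    (by
      have h2 : (2 : k) = 0 := CharP.cast_eq_zero k 2
      refine LinearMap.ext fun v => funext fun i => ?_
      fin_cases i <;> simp [opX, opG, pow_succ]
      · linear_combination (- b * v 5) * h2
      · linear_combination (- b * v 1) * h2)
    (by simp) (by simp)

noncomputable def co : E b 0 →ₗ[k] (Fin 8 → k) :=
  (LinearMap.applyₗ (Pi.single 0 1 : Fin 8 → k)) ∘ₗ (rho b).toLinearMap

lemma co_e (i : Fin 8) : co b (e b 0 i) = Pi.single i 1 := by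
  have hx : rho b (x b 0) = opX := lift_x ..
  have hg : rho b (g b 0) = opG b := lift_g ..
  funext j
  fin_cases i <;> fin_cases j <;> simp [co, e, hx, hg, opX, opG, pow_succ]

lemma co_sum (c : Fin 8 → k) : co b (∑ i, c i • e b 0 i) = c := by
  funext j
  simp [map_sum, co_e, Pi.single_apply]

noncomputable def F (i j : Fin 8) : E b 0 ⊗[k] E b 0 →ₗ[k] k :=
  LinearMap.mul' k k ∘ₗ TensorProduct.map (LinearMap.proj i ∘ₗ co b) (LinearMap.proj j ∘ₗ co b)

lemma F_tmul (i j : Fin 8) (u v : E b 0) : F b i j (u ⊗ₜ v) = co b u i * co b v j := by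
  simp [F]

lemma comul_e (i : Fin 8) : comul b t (e b t i) =
    ![e b t 0 ⊗ₜ e b t 0,
      e b t 1 ⊗ₜ e b t 0 + e b t 0 ⊗ₜ e b t 1 + e b t 2 ⊗ₜ e b t 2,
      e b t 2 ⊗ₜ e b t 0 + e b t 0 ⊗ₜ e b t 2,
      e b t 3 ⊗ₜ e b t 0 + e b t 2 ⊗ₜ e b t 1 + e b t 1 ⊗ₜ e b t 2 + e b t 0 ⊗ₜ e b t 3,
      e b t 4 ⊗ₜ e b t 4,
      e b t 5 ⊗ₜ e b t 4 + e b t 4 ⊗ₜ e b t 5 + e b t 6 ⊗ₜ e b t 6,
      e b t 6 ⊗ₜ e b t 4 + e b t 4 ⊗ₜ e b t 6,
      e b t 7 ⊗ₜ e b t 4 + e b t 6 ⊗ₜ e b t 5 + e b t 5 ⊗ₜ e b t 6 + e b t 4 ⊗ₜ e b t 7] i := by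
  have h2 := dX_sq b t
  have h3 : dX b t ^ 3 = (x b t ^ 3) ⊗ₜ 1 + (x b t ^ 2) ⊗ₜ x b t + x b t ⊗ₜ (x b t ^ 2)
      + 1 ⊗ₜ (x b t ^ 3) := by
    rw [pow_succ' _ 2, h2, dX]
    simp [mul_add, add_mul, ← pow_succ', ← pow_add, x4]
    abel
  fin_cases i
  · simp [e, Algebra.TensorProduct.one_def]
  · simp [e, dX]
  · simp [e, h2]
  · simp [e, h3]
  · simp [e]
  · simp [e, dX, add_mul]
  · simp [e, h2, add_mul]
  · simp [e, h3, add_mul]

lemma prim (z : E b 0) (hz : comul b 0 z = z ⊗ₜ 1 + 1 ⊗ₜ z) : ∃ a : k, z = a • x b 0 ^ 2 := by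
  obtain ⟨c, hc⟩ := exists_coord b 0 z
  have hco : co b z = c := by rw [hc, co_sum]
  have h1 : co b 1 = Pi.single 0 1 := co_e b 0
  have key : ∀ i j, ∑ l, c l * F b i j (comul b 0 (e b 0 l)) =
      c i * (Pi.single (0 : Fin 8) (1 : k) : Fin 8 → k) j
        + (Pi.single (0 : Fin 8) (1 : k) : Fin 8 → k) i * c j := by
    intro i j
    have := congrArg (F b i j) hz
    rw [map_add, F_tmul, F_tmul, hco, h1] at this
    rw [← this, hc]
    simp [map_sum]
  have k00 := key 0 0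
  have k22 := key 2 2
  have k12 := key 1 2
  have k44 := key 4 4
  have k54 := key 5 4
  have k64 := key 6 4
  have k74 := key 7 4
  simp [Fin.sum_univ_eight, comul_e, F_tmul, co_e] at k00 k22 k12 k44 k54 k64 k74
  refine ⟨c 2, ?_⟩
  rw [hc]
  simp [Fin.sum_univ_eight, e, *]

lemma grp (z : E b 0) (hz : comul b 0 z = z ⊗ₜ z) (h0 : counit b 0 z = 1) :
    z = 1 ∨ z = g b 0 := by
  obtain ⟨c, hc⟩ := exists_coord b 0 z
  have hco : co b z = c := by rw [hc, co_sum]
  have key : ∀ i j, ∑ l, c l * F b i j (comul b 0 (e b 0 l)) = c i * c j := by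
    intro i j
    have := congrArg (F b i j) hz
    rw [F_tmul, hco] at this
    rw [← this, hc]
    simp [map_sum]
  have k04 := key 0 4
  have k11 := key 1 1
  have k22 := key 2 2
  have k33 := key 3 3
  have k55 := key 5 5
  have k66 := key 6 6
  have k77 := key 7 7
  simp [Fin.sum_univ_eight, comul_e, F_tmul, co_e] at k04 k11 k22 k33 k55 k66 k77
  rw [k11] at k22
  rw [k55] at k66
  simp at k22 k66
  have hz' : z = c 0 • 1 + c 4 • g b 0 := by
    rw [hc]
    simp [Fin.sum_univ_eight, e, *]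
  rw [hz'] at h0
  simp at h0
  rcases k04 with h | h
  · right
    rw [h, zero_add] at h0
    rw [hz', h, h0]; simp
  · left
    rw [h, add_zero] at h0
    rw [hz', h, h0]; simp

lemma cube_eq' (c : k) (φ : E b 0 →ₐ[k] E c 0) (hinj : Function.Injective φ)
    (hΔ : ∀ z, comul c 0 (φ z) = Algebra.TensorProduct.map φ φ (comul b 0 z))
    (hε : ∀ z, counit c 0 (φ z) = counit b 0 z) : b ^ 3 = c ^ 3 := by
  have e2 : ∀ d : k, co d (x d 0 ^ 2) 2 = 1 := fun d => by
    have := congrFun (co_e d 2) 2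
    simpa [e] using this
  have hg : φ (g b 0) = g c 0 := by
    rcases grp c (φ (g b 0)) (by rw [hΔ]; simp) (by rw [hε]; simp) with h | h
    · exfalso
      have h1 : g b 0 = 1 := hinj (by rw [h, map_one])
      have h4 := congrFun (co_e b 4) 0
      have h0 := congrFun (co_e b 0) 0
      simp [e] at h4 h0
      rw [h1, h0] at h4
      exact one_ne_zero h4
    · exact h
  obtain ⟨a, ha⟩ := prim c (φ (x b 0) ^ 2) (by
    rw [← map_pow, hΔ, map_pow, comul_x, dX_sq]; simp)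
  have ha0 : a ≠ 0 := by
    rintro rfl
    rw [zero_smul, ← map_pow, map_eq_zero_iff _ hinj] at ha
    have := e2 b
    rw [ha] at this
    simp at this
  obtain ⟨d, hd⟩ := prim c (φ (x b 0) - a ^ 2 • x c 0) (by
    rw [map_sub, hΔ, map_smul, comul_x, comul_x]
    simp only [dX, map_add, Algebra.TensorProduct.map_tmul, map_one, map_pow, ha,
      smul_add, sub_tmul, tmul_sub, smul_tmul', tmul_smul, smul_smul, ← sq]
    abel)
  have hv : φ (x b 0) = a ^ 2 • x c 0 + d • x c 0 ^ 2 := by rw [← hd]; abel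
  have ha4 : a = (a ^ 2) ^ 2 := by
    have h := sig_sq (x c 0) (a ^ 2) d (x4 c 0)
    rw [← hv, ha] at h
    have := congrArg (fun z => co c z 2) h
    simpa [e2] using this
  have hrel := congrArg φ (gx b 0)
  rw [map_mul, map_mul, map_add, map_smul, map_pow, hg, ha, hv, mul_add, mul_smul_comm,
    mul_smul_comm, gx, gx2] at hrel
  have h6 := congrArg (fun z => co c z 6) hrel
  have e5 := congrFun (co_e c 5) 6
  have e6 := congrFun (co_e c 6) 6
  simp [e] at e5 e6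
  simp [add_mul, e5, e6] at h6
  have ha3 : a ^ 3 = 1 := by
    apply mul_left_cancel₀ ha0
    linear_combination -ha4
  have hb : b = a * c := by
    apply mul_left_cancel₀ ha0
    linear_combination -h6
  rw [hb, mul_pow, ha3, one_mul]

lemma cube_eq (c : k) (φ : E b 0 ≃ₐc[k] E c 0) : b ^ 3 = c ^ 3 :=
  cube_eq' b c (φ : E b 0 →ₐ[k] E c 0) φ.injective
    (fun z => (CoalgHomClass.map_comp_comul_apply (R := k) φ z).symm)
    (fun z => CoalgHomClass.counit_comp_apply (R := k) φ z)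

noncomputable def iA : E (0 : k) 1 →ₐ[k] E b 0 :=
  lift 0 1 (x b 0) 1 (x4 b 0) (by simp) (by simp) (by simp) (by simp)

noncomputable def jH : E (0 : k) 2 →ₐ[k] E b 0 :=
  lift 0 2 0 (g b 0) (by simp) (gg b 0) (by simp) (by simp) (by simp)

omit [CharP k 2] in
@[simp] lemma iA_x : iA b (x 0 1) = x b 0 := lift_x ..
omit [CharP k 2] in
@[simp] lemma iA_g : iA b (g 0 1) = 1 := lift_g ..
omit [CharP k 2] in
@[simp] lemma jH_x : jH b (x 0 2) = 0 := lift_x ..
omit [CharP k 2] in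
@[simp] lemma jH_g : jH b (g 0 2) = g b 0 := lift_g ..

noncomputable def iB : E (0 : k) 1 →ₐc[k] E b 0 :=
  BialgHom.ofAlgHom (iA b)
    (by apply hom_ext <;> simp [counit_eq])
    (by apply hom_ext <;> simp [comul_eq, dX, Algebra.TensorProduct.one_def])

noncomputable def jB : E (0 : k) 2 →ₐc[k] E b 0 :=
  BialgHom.ofAlgHom (jH b)
    (by apply hom_ext <;> simp [counit_eq])
    (by apply hom_ext <;> simp [comul_eq, dX])

lemma coordA (z : E (0 : k) 1) : ∃ c0 c1 c2 c3 : k,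
    z = c0 • 1 + c1 • x 0 1 + c2 • x 0 1 ^ 2 + c3 • x 0 1 ^ 3 := by
  obtain ⟨c, hc⟩ := exists_coord 0 1 z
  refine ⟨c 0 + c 4, c 1 + c 5, c 2 + c 6, c 3 + c 7, ?_⟩
  rw [hc]
  simp [Fin.sum_univ_eight, e, g1, add_smul]
  abel

lemma coordH (z : E (0 : k) 2) : ∃ c0 c1 : k, z = c0 • 1 + c1 • g 0 2 := by
  obtain ⟨c, hc⟩ := exists_coord 0 2 z
  refine ⟨c 0, c 4, ?_⟩
  rw [hc]
  simp [Fin.sum_univ_eight, e, x0]

noncomputable def mu : E (0 : k) 1 ⊗[k] E (0 : k) 2 →ₗ[k] E b 0 :=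
  TensorProduct.lift (((LinearMap.mul k (E b 0)).comp (iB b).toLinearMap).compl₂ (jB b).toLinearMap)

lemma mu_tmul (u : E (0 : k) 1) (v : E (0 : k) 2) : mu b (u ⊗ₜ v) = iA b u * jH b v := rfl

noncomputable def e' : Fin 8 → E (0 : k) 1 ⊗[k] E (0 : k) 2 :=
  ![1 ⊗ₜ 1, x 0 1 ⊗ₜ 1, (x 0 1 ^ 2) ⊗ₜ 1, (x 0 1 ^ 3) ⊗ₜ 1,
    1 ⊗ₜ g 0 2, x 0 1 ⊗ₜ g 0 2, (x 0 1 ^ 2) ⊗ₜ g 0 2, (x 0 1 ^ 3) ⊗ₜ g 0 2]

lemma mu_e' (i : Fin 8) : mu b (e' i) = e b 0 i := by
  fin_cases i <;> simp [e', e, mu_tmul]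

lemma coordT (z : E (0 : k) 1 ⊗[k] E (0 : k) 2) : ∃ c : Fin 8 → k, z = ∑ i, c i • e' i := by
  induction z using TensorProduct.induction_on with
  | zero => exact ⟨0, by simp⟩
  | add u v h1 h2 =>
    obtain ⟨c, rfl⟩ := h1
    obtain ⟨d, rfl⟩ := h2
    exact ⟨c + d, by simp [add_smul, Finset.sum_add_distrib]⟩
  | tmul u v =>
    obtain ⟨c0, c1, c2, c3, rfl⟩ := coordA u
    obtain ⟨d0, d1, rfl⟩ := coordH v
    refine ⟨![d0 * c0, d0 * c1, d0 * c2, d0 * c3, d1 * c0, d1 * c1, d1 * c2, d1 * c3], ?_⟩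
    simp [Fin.sum_univ_eight, e', add_tmul, tmul_add, ← smul_tmul', tmul_smul, smul_smul]
    abel

lemma mu_bij : Function.Bijective (mu b) := by
  constructor
  · rw [injective_iff_map_eq_zero]
    intro z hz
    obtain ⟨c, rfl⟩ := coordT z
    have : co b (mu b (∑ i, c i • e' i)) = c := by
      simp only [map_sum (mu b), map_smul (mu b), mu_e', co_sum]
    rw [hz, map_zero] at this
    simp [← this]
  · intro z
    obtain ⟨c, rfl⟩ := exists_coord b 0 z
    exact ⟨∑ i, c i • e' i, by simp only [map_sum (mu b), map_smul (mu b), mu_e']⟩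

lemma iB_inj : Function.Injective (iB b) := by
  intro u v h
  have h1 : mu b (u ⊗ₜ 1) = mu b (v ⊗ₜ 1) := by
    rw [mu_tmul, mu_tmul]; exact congrArg (· * _) h
  have h2 := congrArg (fun w => TensorProduct.rid k _
    (LinearMap.lTensor _ (counit (0 : k) 2).toLinearMap w)) ((mu_bij b).1 h1)
  simpa using h2

lemma jB_inj : Function.Injective (jB b) := by
  intro u v h
  have h1 : mu b (1 ⊗ₜ u) = mu b (1 ⊗ₜ v) := by
    rw [mu_tmul, mu_tmul]; exact congrArg (_ * ·) h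
  have h2 := congrArg (fun w => TensorProduct.lid k _
    (LinearMap.rTensor _ (counit (0 : k) 1).toLinearMap w)) ((mu_bij b).1 h1)
  simpa using h2

end Pool.Agent.Lib.helper20.Bicross
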