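import Mathlib

open Filter Topology

namespace Pool.Agent.Lib.helper20.CoverDens

/-- affine image -/
def aff (k : ℕ+) (h : ℤ) (X : Set ℤ) : Set ℤ := (fun x => ((k : ℕ) : ℤ) * x + h) '' X

lemma classes_cover {ι : Type*} (s : Finset ι) (k : ι → ℕ+) (h : ι → ℤ)
    (hc : ∀ r : ℤ, ∃ i ∈ s, ((k i : ℕ) : ℤ) ∣ r - h i) : 1 ≤ ∑ i ∈ s, 1 / ((k i : ℕ) : ℝ) := by
  classical
  set M : ℕ := ∏ i ∈ s, (k i : ℕ) with hM
  have hM0 : 0 < M := Finset.prod_pos fun i _ => (k i).2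
  have h1 : Finset.range M ⊆ s.biUnion fun i =>
      (Finset.range M).filter fun r : ℕ => ((k i : ℕ) : ℤ) ∣ (r : ℤ) - h i := by
    intro r hr
    obtain ⟨i, hi, hd⟩ := hc r
    exact Finset.mem_biUnion.2 ⟨i, hi, Finset.mem_filter.2 ⟨hr, hd⟩⟩
  have h2 : ∀ i ∈ s, (((Finset.range M).filter
      fun r : ℕ => ((k i : ℕ) : ℤ) ∣ (r : ℤ) - h i).card : ℝ) ≤ M * (1 / ((k i : ℕ) : ℝ)) := by
    intro i hi
    obtain ⟨q, hq⟩ : (k i : ℕ) ∣ M := Finset.dvd_prod_of_mem _ hi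
    have hk : 0 < (k i : ℕ) := (k i).2
    have : ((Finset.range M).filter fun r : ℕ => ((k i : ℕ) : ℤ) ∣ (r : ℤ) - h i).card ≤
        (Finset.range q).card := by
      refine Finset.card_le_card_of_injOn (fun r => r / (k i : ℕ)) (fun r hr => ?_) ?_
      · have := Finset.mem_range.1 (Finset.mem_filter.1 hr).1
        refine Finset.mem_coe.2 (Finset.mem_range.2 ?_)
        rw [Nat.div_lt_iff_lt_mul hk, mul_comm, ← hq]; exact this
      · intro a ha b hb hab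
        have h3 := (Finset.mem_filter.1 ha).2
        have h4 := (Finset.mem_filter.1 hb).2
        have h5 : ((k i : ℕ) : ℤ) ∣ (b : ℤ) - a := by
          have := dvd_sub h4 h3
          rwa [sub_sub_sub_cancel_right] at this
        have h6 : a % (k i : ℕ) = b % (k i : ℕ) := (Nat.modEq_iff_dvd).2 h5
        have hab' : a / (k i : ℕ) = b / (k i : ℕ) := hab
        rw [← Nat.div_add_mod a (k i), ← Nat.div_add_mod b (k i), hab', h6]
    rw [Finset.card_range] at this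
    have hk' : (0 : ℝ) < (k i : ℕ) := by exact_mod_cast hk
    calc _ ≤ (q : ℝ) := by exact_mod_cast this
      _ = _ := by rw [hq]; push_cast; field_simp
  have h3 : (M : ℝ) ≤ ∑ i ∈ s, M * (1 / ((k i : ℕ) : ℝ)) := by
    have := (Finset.card_le_card h1).trans Finset.card_biUnion_le
    rw [Finset.card_range] at this
    refine le_trans ?_ (Finset.sum_le_sum h2)
    exact_mod_cast this
  rw [← Finset.mul_sum] at h3
  have : (0 : ℝ) < M := by exact_mod_cast hM0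
  nlinarith

/-- A set whose affine pull-backs are independent. -/
def Generic (G : Set ℤ) : Prop :=
  ∀ (F P : Finset (ℕ+ × ℤ)) (m : ℕ+) (r N : ℤ), ∃ n, N ≤ n ∧ ((m : ℕ) : ℤ) ∣ n - r ∧
    ∀ p ∈ F, ∀ x, n = ((p.1 : ℕ) : ℤ) * x + p.2 → (x ∈ G ↔ p ∈ P)

lemma exists_generic : ∃ G, Generic G := by
  classical
  let U : Finset (ℕ+ × ℤ) × Finset (ℕ+ × ℤ) × ℕ+ × ℤ × ℤ → Set (ℤ → Bool) := fun q =>
    {g | ∃ n, q.2.2.2.2 ≤ n ∧ ((q.2.2.1 : ℕ) : ℤ) ∣ n - q.2.2.2.1 ∧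
      ∀ p ∈ q.1, ∀ x, n = ((p.1 : ℕ) : ℤ) * x + p.2 → g x = decide (p ∈ q.2.1)}
  have ho : ∀ q, IsOpen (U q) := by
    intro q
    rw [isOpen_iff_mem_nhds]
    rintro g ⟨n, h1, h2, h3⟩
    have : ∀ᶠ g' in 𝓝 g, ∀ p ∈ q.1, g' ((n - p.2) / (p.1 : ℕ)) = g ((n - p.2) / (p.1 : ℕ)) := by
      rw [Finset.eventually_all]
      intro p _
      exact ((continuous_apply ((n - p.2) / (p.1 : ℕ))).tendsto g).eventually
        (p := fun y => y = g ((n - p.2) / (p.1 : ℕ))) (by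
        rw [nhds_discrete]; exact eventually_pure.2 rfl)
    refine this.mono fun g' hg' => ⟨n, h1, h2, fun p hp x hx => ?_⟩
    have hk : ((p.1 : ℕ) : ℤ) ≠ 0 := by exact_mod_cast p.1.2.ne'
    have e : (n - p.2) / (p.1 : ℕ) = x := by
      rw [hx, add_sub_cancel_right, Int.mul_ediv_cancel_left _ hk]
    rw [← h3 p hp x hx, ← e]; exact hg' p hp
  have hd : ∀ q, Dense (U q) := by
    rintro ⟨F, P, m, r, N⟩ g
    have key : ∀ B : ℕ, ∃ g' ∈ U (F, P, m, r, N), ∀ x : ℤ, x < B → g' x = g x := by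
      intro B
      obtain ⟨C, hC⟩ : ∃ C : ℕ, B ≤ C ∧ ∀ p ∈ F, ∀ p' ∈ F, |p.2 - p'.2| < C := by
        refine ⟨B + 1 + ∑ p ∈ F, 2 * p.2.natAbs, by omega, fun p hp p' hp' => ?_⟩
        have a1 := Finset.single_le_sum (f := fun p : ℕ+ × ℤ => p.2.natAbs)
          (fun _ _ => Nat.zero_le _) hp
        have a2 := Finset.single_le_sum (f := fun p : ℕ+ × ℤ => p.2.natAbs)
          (fun _ _ => Nat.zero_le _) hp'
        rw [← Finset.mul_sum]
        rw [abs_lt]; omega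
      obtain ⟨n, hn1, hn2, hn3⟩ : ∃ n : ℤ, N ≤ n ∧ ((m : ℕ) : ℤ) ∣ n - r ∧
          ∀ p ∈ F, ((p.1 : ℕ) : ℤ) * C + p.2 ≤ n := by
        have e1 : ∀ᶠ t : ℤ in atTop, ∀ p ∈ F, ((p.1 : ℕ) : ℤ) * C + p.2 - r ≤ t :=
          (Finset.eventually_all F).2 fun p _ => eventually_ge_atTop _
        obtain ⟨t, ht1, ht2, ht3⟩ :=
          (e1.and ((eventually_ge_atTop (N - r)).and (eventually_ge_atTop 0))).exists
        have hm : (1 : ℤ) ≤ (m : ℕ) := by exact_mod_cast m.2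
        refine ⟨(m : ℕ) * t + r, by nlinarith, ⟨t, by ring⟩, fun p hp => ?_⟩
        have := ht1 p hp
        nlinarith
      have big : ∀ p ∈ F, ∀ x, n = ((p.1 : ℕ) : ℤ) * x + p.2 → (C : ℤ) ≤ x := by
        intro p hp x hx
        have h1 := hn3 p hp
        have hk : (0 : ℤ) < (p.1 : ℕ) := by exact_mod_cast p.1.2
        exact le_of_mul_le_mul_left (by linarith) hk
      refine ⟨fun x => if C ≤ x then decide (∃ p ∈ F, p ∈ P ∧ n = ((p.1 : ℕ) : ℤ) * x + p.2)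
        else g x, ⟨n, hn1, hn2, fun p hp x hx => ?_⟩, fun x hx => ?_⟩
      · have hx' := big p hp x hx
        simp only [hx', if_true, decide_eq_decide]
        refine ⟨?_, fun h => ⟨p, hp, h, hx⟩⟩
        rintro ⟨p', hp', hP, hx2⟩
        have h1 := hC.2 p hp p' hp'
        have h2 : (((p'.1 : ℕ) : ℤ) - (p.1 : ℕ)) * x = p.2 - p'.2 := by linarith
        have h3 : ((p'.1 : ℕ) : ℤ) - (p.1 : ℕ) = 0 := by
          by_contra hne
          have h4 : 1 ≤ |((p'.1 : ℕ) : ℤ) - (p.1 : ℕ)| := Int.one_le_abs hne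
          rw [← h2, abs_mul, abs_of_nonneg (by omega : 0 ≤ x)] at h1
          have : (0 : ℤ) ≤ C := by omega
          nlinarith
        have h5 : p = p' := by
          refine Prod.ext (PNat.eq (by omega)) ?_
          rw [h3] at h2; omega
        rwa [h5]
      · have : ¬ (C : ℤ) ≤ x := by omega
        simp only [this, if_false]
    choose f hf1 hf2 using key
    refine mem_closure_of_tendsto (f := f) (b := atTop) ?_ (Eventually.of_forall hf1)
    rw [tendsto_pi_nhds]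
    intro x
    refine tendsto_const_nhds.congr' ?_
    filter_upwards [eventually_gt_atTop x.toNat] with B hB
    exact (hf2 B x (by omega)).symm
  obtain ⟨g, hg⟩ := (dense_iInter_of_isOpen ho hd).nonempty
  refine ⟨{x | g x = true}, fun F P m r N => ?_⟩
  obtain ⟨n, h1, h2, h3⟩ := Set.mem_iInter.1 hg (F, P, m, r, N)
  exact ⟨n, h1, h2, fun p hp x hx => by
    simp only [Set.mem_ofPred_eq, h3 p hp x hx, decide_eq_true_eq]⟩

section
variable {τ : Type} (T : τ → Set ℤ) (w : τ → ℝ)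

def Covers (L : Finset (ℕ+ × ℤ × τ)) (Z : Set ℤ) : Prop :=
  ∀ᶠ n in atTop, n ∈ Z → ∃ p ∈ L, n ∈ aff p.1 p.2.1 (T p.2.2)

noncomputable def cost (p : ℕ+ × ℤ × τ) : ℝ := w p.2.2 / ((p.1 : ℕ) : ℝ)

noncomputable def mu (Z : Set ℤ) : ℝ := sInf {t | ∃ L, Covers T L Z ∧ t = ∑ p ∈ L, cost w p}

variable {T w} {t0 : τ}

lemma cost_nonneg (hw : ∀ t, 1 / 2 ≤ w t) (p : ℕ+ × ℤ × τ) : 0 ≤ cost w p :=
  div_nonneg (by linarith [hw p.2.2]) (Nat.cast_nonneg _)

lemma covers_one (h0 : T t0 = Set.univ) (Z : Set ℤ) : Covers T {(1, 0, t0)} Z :=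
  Eventually.of_forall fun n _ => ⟨_, Finset.mem_singleton_self _, n, by simp [h0], by simp⟩

lemma mu_le (hw : ∀ t, 1 / 2 ≤ w t) {L : Finset (ℕ+ × ℤ × τ)} {Z : Set ℤ} (h : Covers T L Z) :
    mu T w Z ≤ ∑ p ∈ L, cost w p :=
  csInf_le ⟨0, by
    rintro _ ⟨L, -, rfl⟩; exact Finset.sum_nonneg fun p _ => cost_nonneg hw p⟩ ⟨L, h, rfl⟩

lemma le_mu (h0 : T t0 = Set.univ) {Z : Set ℤ} {c : ℝ}
    (h : ∀ L, Covers T L Z → c ≤ ∑ p ∈ L, cost w p) : c ≤ mu T w Z :=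
  le_csInf ⟨_, _, covers_one h0 Z, rfl⟩ (by rintro _ ⟨L, hL, rfl⟩; exact h L hL)

lemma exists_cover_lt (h0 : T t0 = Set.univ) {Z : Set ℤ} {c : ℝ} (h : mu T w Z < c) :
    ∃ L, Covers T L Z ∧ ∑ p ∈ L, cost w p < c := by
  by_contra hc
  push Not at hc
  exact absurd (le_mu h0 hc) (not_le.2 h)

lemma mu_nonneg (hw : ∀ t, 1 / 2 ≤ w t) (h0 : T t0 = Set.univ) (Z : Set ℤ) : 0 ≤ mu T w Z :=
  le_mu h0 fun _ _ => Finset.sum_nonneg fun p _ => cost_nonneg hw p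

lemma mu_le_one (hw : ∀ t, 1 / 2 ≤ w t) (h0 : T t0 = Set.univ) (h1 : w t0 = 1) (Z : Set ℤ) :
    mu T w Z ≤ 1 := by
  simpa [cost, h1] using mu_le hw (covers_one h0 Z)

lemma mu_mono (hw : ∀ t, 1 / 2 ≤ w t) (h0 : T t0 = Set.univ) {X Y : Set ℤ} (h : X ⊆ Y) :
    mu T w X ≤ mu T w Y :=
  le_mu h0 fun _ hL => mu_le hw (hL.mono fun _ hn hx => hn (h hx))

lemma sum_union_le (hw : ∀ t, 1 / 2 ≤ w t) [DecidableEq (ℕ+ × ℤ × τ)]
    (L L' : Finset (ℕ+ × ℤ × τ)) :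
    ∑ p ∈ L ∪ L', cost w p ≤ ∑ p ∈ L, cost w p + ∑ p ∈ L', cost w p := by
  rw [← Finset.sum_union_inter]
  linarith [Finset.sum_nonneg (s := L ∩ L') fun p _ => cost_nonneg hw p]

lemma mu_union (hw : ∀ t, 1 / 2 ≤ w t) (h0 : T t0 = Set.univ) (X Y : Set ℤ) :
    mu T w (X ∪ Y) ≤ mu T w X + mu T w Y := by
  classical
  have : ∀ L, Covers T L X → ∀ L', Covers T L' Y →
      mu T w (X ∪ Y) ≤ ∑ p ∈ L, cost w p + ∑ p ∈ L', cost w p := by
    intro L hL L' hL'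
    refine (mu_le hw (L := L ∪ L') ?_).trans (sum_union_le hw L L')
    filter_upwards [hL, hL'] with n h1 h2 hn
    rcases hn with hn | hn
    · obtain ⟨p, hp, h⟩ := h1 hn; exact ⟨p, Finset.mem_union_left _ hp, h⟩
    · obtain ⟨p, hp, h⟩ := h2 hn; exact ⟨p, Finset.mem_union_right _ hp, h⟩
  have h1 : mu T w (X ∪ Y) - mu T w Y ≤ mu T w X := le_mu h0 fun L hL => by
    have : mu T w (X ∪ Y) - ∑ p ∈ L, cost w p ≤ mu T w Y :=
      le_mu h0 fun L' hL' => by linarith [this L hL L' hL']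
    linarith
  linarith

lemma sum_image_le (hw : ∀ t, 1 / 2 ≤ w t) [DecidableEq (ℕ+ × ℤ × τ)]
    (L : Finset (ℕ+ × ℤ × τ)) (f : ℕ+ × ℤ × τ → ℕ+ × ℤ × τ) (c : ℝ)
    (h : ∀ p, cost w (f p) ≤ c * cost w p) :
    ∑ p ∈ L.image f, cost w p ≤ c * ∑ p ∈ L, cost w p := by
  induction L using Finset.induction_on with
  | empty => simp
  | insert a s ha ih =>
    rw [Finset.image_insert, Finset.sum_insert ha, Finset.insert_eq, mul_add]
    refine (sum_union_le hw _ _).trans ?_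
    rw [Finset.sum_singleton]
    linarith [h a]

lemma tend (k : ℕ+) (h : ℤ) : Tendsto (fun x : ℤ => ((k : ℕ) : ℤ) * x + h) atTop atTop := by
  refine tendsto_atTop_add_const_right _ _ ?_
  exact Tendsto.const_mul_atTop' (by exact_mod_cast k.2) tendsto_id

lemma pull (hw : ∀ t, 1 / 2 ≤ w t) (h0 : T t0 = Set.univ) (h1 : w t0 = 1) (k : ℕ+) (h : ℤ)
    (p : ℕ+ × ℤ × τ) : ∃ p' : ℕ+ × ℤ × τ, cost w p' ≤ ((k : ℕ) : ℝ) * cost w p ∧
      ∀ x, ((k : ℕ) : ℤ) * x + h ∈ aff p.1 p.2.1 (T p.2.2) → x ∈ aff p'.1 p'.2.1 (T p'.2.2) := by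
  obtain ⟨k', h', t⟩ := p
  have hk : (0 : ℝ) < (k : ℕ) := by exact_mod_cast k.2
  have hk' : (0 : ℝ) < (k' : ℕ) := by exact_mod_cast k'.2
  have hkz : ((k : ℕ) : ℤ) ≠ 0 := by exact_mod_cast k.2.ne'
  by_cases hd : (k : ℕ) ∣ k'
  · obtain ⟨q, hq⟩ := hd
    have hq0 : 0 < q := Nat.pos_of_ne_zero (by rintro rfl; exact k'.2.ne' hq)
    refine ⟨(⟨q, hq0⟩, (h' - h) / (k : ℕ), t), le_of_eq ?_, ?_⟩
    · have : (0 : ℝ) < q := by exact_mod_cast hq0
      simp only [cost, PNat.mk_coe, hq]; push_cast; field_simp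
    · rintro x ⟨y, hy, e⟩
      refine ⟨y, hy, ?_⟩
      simp only [PNat.mk_coe] at e ⊢
      have e2 : h' - h = ((k : ℕ) : ℤ) * (x - q * y) := by
        rw [hq] at e; push_cast at e; linarith
      rw [e2, Int.mul_ediv_cancel_left _ hkz]; ring
  · set g := Nat.gcd k k' with hg
    have hg0 : 0 < g := Nat.gcd_pos_of_pos_left _ k.2
    obtain ⟨a, ha⟩ : g ∣ k := Nat.gcd_dvd_left _ _
    obtain ⟨b, hb⟩ : g ∣ k' := Nat.gcd_dvd_right _ _
    have hb0 : 0 < b := Nat.pos_of_ne_zero (by rintro rfl; exact k'.2.ne' hb)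
    have ha2 : 2 ≤ a := by
      by_contra hlt
      have : a = 0 ∨ a = 1 := by omega
      rcases this with rfl | rfl
      · exact k.2.ne' ha
      · exact hd ⟨b, by rw [ha, mul_one]; exact hb⟩
    have hab : Nat.Coprime b a := by
      have := Nat.coprime_div_gcd_div_gcd (m := k) (n := k') hg0
      rw [← hg] at this
      have e1 : (k : ℕ) / g = a := by rw [ha]; exact Nat.mul_div_cancel_left _ hg0
      have e2 : (k' : ℕ) / g = b := by rw [hb]; exact Nat.mul_div_cancel_left _ hg0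
      rw [e1, e2] at this
      exact this.symm
    have hc : ∀ x0 : ℤ, cost w ((⟨b, hb0⟩ : ℕ+), x0, t0) ≤ ((k : ℕ) : ℝ) * cost w (k', h', t) := by
      intro x0
      have hb' : (0 : ℝ) < b := by exact_mod_cast hb0
      have hg' : (0 : ℝ) < g := by exact_mod_cast hg0
      have ha' : (2 : ℝ) ≤ a := by exact_mod_cast ha2
      simp only [cost, PNat.mk_coe, h1]
      rw [ha, hb]; push_cast
      rw [show (g : ℝ) * a * (w t / (g * b)) = a * w t / b by field_simp]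
      exact div_le_div_of_nonneg_right (by nlinarith [hw t]) hb'.le
    by_cases hx : ∃ x0, ((k : ℕ) : ℤ) * x0 + h ∈ aff k' h' (T t)
    · obtain ⟨x0, y0, -, e0⟩ := hx
      refine ⟨_, hc x0, ?_⟩
      rintro x ⟨y, -, e⟩
      simp only at e e0
      have e2 : (b : ℤ) * (y - y0) = a * (x - x0) := by
        have hgz : (g : ℤ) ≠ 0 := by exact_mod_cast hg0.ne'
        refine mul_left_cancel₀ hgz ?_
        rw [ha, hb] at e e0; push_cast at e e0; linarith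
      obtain ⟨z, hz⟩ : (b : ℤ) ∣ x - x0 :=
        (Nat.isCoprime_iff_coprime.2 hab).dvd_of_dvd_mul_left ⟨_, e2.symm⟩
      exact ⟨z, by simp [h0], by simp only [PNat.mk_coe]; linarith⟩
    · exact ⟨_, hc 0, fun x hx' => absurd ⟨x, hx'⟩ hx⟩

lemma mu_aff (hw : ∀ t, 1 / 2 ≤ w t) (h0 : T t0 = Set.univ) (h1 : w t0 = 1) (k : ℕ+) (h : ℤ)
    (Z : Set ℤ) : mu T w (aff k h Z) = 1 / ((k : ℕ) : ℝ) * mu T w Z := by
  classical
  have hk : (0 : ℝ) < (k : ℕ) := by exact_mod_cast k.2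
  have hkz : (0 : ℤ) < (k : ℕ) := by exact_mod_cast k.2
  apply le_antisymm
  · have : ((k : ℕ) : ℝ) * mu T w (aff k h Z) ≤ mu T w Z := le_mu h0 fun L hL => by
      have h2 : Covers T (L.image fun p => (k * p.1, (k : ℕ) * p.2.1 + h, p.2.2)) (aff k h Z) := by
        obtain ⟨N, hN⟩ := eventually_atTop.1 hL
        filter_upwards [eventually_ge_atTop (((k : ℕ) : ℤ) * N + h)] with n hn
        rintro ⟨x, hx, rfl⟩
        obtain ⟨p, hp, y, hy, e⟩ := hN x (le_of_mul_le_mul_left (by linarith) hkz) hx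
        refine ⟨_, Finset.mem_image_of_mem _ hp, y, hy, ?_⟩
        simp only [PNat.mul_coe] at e ⊢
        rw [← e]; push_cast; ring
      have h3 := (mu_le hw h2).trans (sum_image_le hw L _ (1 / ((k : ℕ) : ℝ)) fun p => le_of_eq (by
        simp only [cost, PNat.mul_coe]; push_cast; field_simp))
      rwa [one_div_mul_eq_div, le_div_iff₀ hk, mul_comm] at h3
    rwa [one_div_mul_eq_div, le_div_iff₀ hk, mul_comm]
  · refine le_mu h0 fun L hL => ?_
    choose f hf1 hf2 using pull hw h0 h1 k h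
    have h2 : Covers T (L.image f) Z := by
      filter_upwards [(tend k h).eventually hL] with x hx hxZ
      obtain ⟨p, hp, e⟩ := hx ⟨x, hxZ, rfl⟩
      exact ⟨_, Finset.mem_image_of_mem _ hp, hf2 p x e⟩
    have h3 := (mu_le hw h2).trans (sum_image_le hw L f _ hf1)
    rwa [one_div_mul_eq_div, div_le_iff₀ hk, mul_comm]

end

end Pool.Agent.Lib.helper20.CoverDens
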