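import Mathlib

open Complex MeasureTheory Filter Topology Set
open scoped FourierTransform

namespace Pool.Agent.H20Deg

/-- Hahn-Banach representation of a functional dominated by a summable family of functionals. -/
lemma dual_rep {V : Type} [AddCommGroup V] [Module ℂ V] (T : ℕ → V →ₗ[ℂ] ℂ) (l : V →ₗ[ℂ] ℂ)
    (K : ℝ) (hK : 0 ≤ K) (hs : ∀ v, Summable fun n => ‖T n v‖)
    (hb : ∀ v m, (∀ n, ‖T n v‖ ≤ m) → ‖l v‖ ≤ K * m) :
    ∃ γ : ℕ → ℂ, (∀ n, ‖γ n‖ ≤ K) ∧ ∀ v, HasSum (fun n => γ n * T n v) (l v) := by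
  let S : V →ₗ[ℂ] lp (fun _ : ℕ => ℂ) 1 :=
    { toFun := fun v => ⟨fun n => T n v, memℓp_gen (by simpa using hs v)⟩
      map_add' := fun v w => by ext n; simp
      map_smul' := fun c v => by ext n; simp }
  have hS : ∀ v n, (S v : ℕ → ℂ) n = T n v := fun v n => rfl
  have hbd : ∀ v, ‖l v‖ ≤ K * ‖S v‖ := fun v =>
    hb v _ fun n => by rw [← hS]; exact lp.norm_apply_le_norm one_ne_zero (S v) n
  have hker : LinearMap.ker S ≤ LinearMap.ker l := by
    intro v hv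
    have := hbd v
    rw [LinearMap.mem_ker.mp hv, norm_zero, mul_zero] at this
    exact LinearMap.mem_ker.mpr (norm_le_zero_iff.mp this)
  let g0 : LinearMap.range S →ₗ[ℂ] ℂ :=
    ((LinearMap.ker S).liftQ l hker).comp S.quotKerEquivRange.symm.toLinearMap
  have hg0 : ∀ v, g0 ⟨S v, LinearMap.mem_range_self S v⟩ = l v := by
    intro v
    simp only [g0, LinearMap.comp_apply, LinearEquiv.coe_coe]
    rw [LinearMap.quotKerEquivRange_symm_apply_image]
    rfl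
  have hg0b : ∀ y, ‖g0 y‖ ≤ K * ‖y‖ := by
    rintro ⟨y, v, rfl⟩
    rw [hg0]; exact hbd v
  obtain ⟨g, hg, hn⟩ := exists_extension_norm_eq (LinearMap.range S) (g0.mkContinuous K hg0b)
  have hgK : ‖g‖ ≤ K := hn ▸ LinearMap.mkContinuous_norm_le _ hK _
  refine ⟨fun n => g (lp.single 1 n 1), fun n => ?_, fun v => ?_⟩
  · refine (g.le_opNorm _).trans ?_
    rw [lp.norm_single one_pos, norm_one, mul_one]; exact hgK
  · have h1 := (lp.hasSum_single (p := 1) ENNReal.one_ne_top (S v)).mapL g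
    have h2 : g (S v) = l v := by
      have := hg ⟨S v, LinearMap.mem_range_self S v⟩
      simpa [hg0] using this
    rw [h2] at h1
    refine (congrArg (fun f => HasSum f _) (funext fun n => ?_)).mpr h1
    rw [hS, mul_comm, ← smul_eq_mul, ← map_smul, ← lp.single_smul]
    simp

/-- the sample points -/
noncomputable def pt (d : ℝ) (n : ℕ) : ℝ := (1 / 1000) * (n : ℝ) ^ (1 / d)

lemma pt_nonneg (d : ℝ) (n : ℕ) : 0 ≤ pt d n := by unfold pt; positivity

lemma pt_dense {d : ℝ} (hd : 4 ≤ d) {x : ℝ} (hx : 0 ≤ x) :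
    ∃ n : ℕ, x ≤ pt d (n + 2) ∧ (1 + x) ^ 3 * (pt d (n + 2) - x) ≤ 16 / 1000 := by
  set u : ℝ := 1000 * x with hu
  have hu0 : 0 ≤ u := by positivity
  have hd0 : 0 < d := by linarith
  set y : ℝ := u ^ d with hy
  have hy0 : 0 ≤ y := by positivity
  have huy : y ^ (1 / d) = u := by
    rw [hy, ← Real.rpow_mul hu0, mul_one_div_cancel hd0.ne', Real.rpow_one]
  have hd1 : 1 / d ≤ 1 := by rw [div_le_one hd0]; linarith
  have hd2 : 0 ≤ 1 / d := by positivity
  by_cases h2 : y ≤ 2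
  · refine ⟨0, ?_, ?_⟩
    · have : u ≤ (2:ℝ) ^ (1 / d) := by rw [← huy]; exact Real.rpow_le_rpow hy0 h2 hd2
      simp only [pt, zero_add, Nat.cast_ofNat]
      linarith
    · have h3 : (2:ℝ) ^ (1 / d) ≤ 2 := by
        have := Real.rpow_le_rpow_of_exponent_le (show (1:ℝ) ≤ 2 by norm_num) hd1
        rwa [Real.rpow_one] at this
      have h4 : u ≤ (2:ℝ) ^ (1 / d) := by rw [← huy]; exact Real.rpow_le_rpow hy0 h2 hd2
      have h5 : x ≤ 1 := by linarith
      have h6 : (1 + x) ^ 3 ≤ 8 := by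
        have := pow_le_pow_left₀ (by linarith : 0 ≤ 1 + x) (by linarith : 1 + x ≤ 2) 3
        linarith
      simp only [pt, zero_add, Nat.cast_ofNat]
      have h7 : 1 / 1000 * (2:ℝ) ^ (1 / d) - x ≤ 2 / 1000 := by linarith
      have h8 : 0 ≤ 1 / 1000 * (2:ℝ) ^ (1 / d) - x := by linarith
      calc _ ≤ (8:ℝ) * (2 / 1000) := by gcongr
        _ = _ := by norm_num
  · push Not at h2
    have hc : 2 ≤ ⌈y⌉₊ := by
      have := Nat.le_ceil y
      have h3 : (2:ℝ) < ⌈y⌉₊ := by linarith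
      exact_mod_cast h3.le
    obtain ⟨n, hn⟩ := Nat.exists_eq_add_of_le' hc
    have hy1 : y ≤ ((n + 2 : ℕ) : ℝ) := hn ▸ Nat.le_ceil y
    have hy2 : ((n + 2 : ℕ) : ℝ) ≤ y + 1 := hn ▸ (Nat.ceil_lt_add_one hy0).le
    have hypos : 0 < y := by linarith
    have hu1 : 1 ≤ u := by
      rw [← huy]; exact Real.one_le_rpow (by linarith) hd2
    have a1 : u ≤ ((n + 2 : ℕ) : ℝ) ^ (1 / d) := by
      rw [← huy]; exact Real.rpow_le_rpow hy0 hy1 hd2
    have a2 : ((n + 2 : ℕ) : ℝ) ^ (1 / d) ≤ u * (1 + 1 / y) := by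
      calc _ ≤ (y * (1 + 1 / y)) ^ (1 / d) := by
            apply Real.rpow_le_rpow (by positivity) _ hd2
            rw [mul_add, mul_one, mul_one_div_cancel hypos.ne']; exact hy2
        _ = u * (1 + 1 / y) ^ (1 / d) := by rw [Real.mul_rpow hy0 (by positivity), huy]
        _ ≤ u * (1 + 1 / y) := by
            have h1y : 1 ≤ 1 + 1 / y := by have := one_div_pos.mpr hypos; linarith
            have := Real.rpow_le_rpow_of_exponent_le h1y hd1
            rw [Real.rpow_one] at this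
            gcongr
    have a3 : u ^ 4 ≤ y := by
      have := Real.rpow_le_rpow_of_exponent_le hu1 hd
      rw [hy]
      rwa [show (4:ℝ) = ((4:ℕ):ℝ) by norm_num, Real.rpow_natCast] at this
    refine ⟨n, ?_, ?_⟩
    · simp only [pt]; linarith
    · have b1 : (1 + x) ^ 3 ≤ 8 * u ^ 3 := by
        have := pow_le_pow_left₀ (by linarith : 0 ≤ 1 + x) (by linarith : 1 + x ≤ 2 * u) 3
        linarith
      have b2 : pt d (n + 2) - x ≤ (1 / 1000) * (u / y) := by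
        simp only [pt]
        have : u * (1 + 1 / y) = u + u / y := by ring
        linarith
      have b3 : 0 ≤ pt d (n + 2) - x := by simp only [pt]; linarith
      have b4 : u ^ 3 * (u / y) ≤ 1 := by
        rw [← mul_div_assoc, div_le_one hypos]; nlinarith
      calc _ ≤ (8 * u ^ 3) * ((1 / 1000) * (u / y)) := by gcongr
        _ = 8 / 1000 * (u ^ 3 * (u / y)) := by ring
        _ ≤ _ := by linarith

/-- explicit Fourier integral -/
noncomputable def FT (h : ℝ → ℂ) (x : ℝ) : ℂ :=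
  ∫ ξ : ℝ, cexp (I * (2 * Real.pi * x : ℝ) * ξ) * h ξ

lemma norm_char (x ξ : ℝ) : ‖cexp (I * (2 * Real.pi * x : ℝ) * ξ)‖ = 1 := by
  rw [Complex.norm_exp]; simp

lemma integrable_of_bd {h : ℝ → ℂ} (hc : Continuous h) {M : ℝ}
    (hM : ∀ x, (1 + |x|) ^ 3 * ‖h x‖ ≤ M) : Integrable h := by
  refine Integrable.mono' (integrable_inv_one_add_sq.const_mul M) hc.aestronglyMeasurable
    (Eventually.of_forall fun x => ?_)
  have h1 := hM x
  have h2 : 1 + x ^ 2 ≤ (1 + |x|) ^ 3 := by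
    have := abs_nonneg x
    rw [← sq_abs x]; nlinarith [mul_nonneg this this, mul_nonneg (mul_nonneg this this) this]
  rw [← div_eq_mul_inv, le_div_iff₀ (by positivity)]
  nlinarith [norm_nonneg (h x)]

lemma integrable_char {h : ℝ → ℂ} (hi : Integrable h) (x : ℝ) :
    Integrable fun ξ : ℝ => cexp (I * (2 * Real.pi * x : ℝ) * ξ) * h ξ :=
  hi.bdd_mul (c := 1) (Continuous.aestronglyMeasurable (by fun_prop))
    (Eventually.of_forall fun ξ => (norm_char x ξ).le)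

lemma FT_lip {h : ℝ → ℂ} (hc : Continuous h) {M : ℝ}
    (hM : ∀ x, (1 + |x|) ^ 3 * ‖h x‖ ≤ M) (x y : ℝ) : ‖FT h x - FT h y‖ ≤ 20 * M * |x - y| := by
  have hi := integrable_of_bd hc hM
  have hM0 : 0 ≤ M := le_trans (by positivity) (hM 0)
  rw [FT, FT, ← integral_sub (integrable_char hi x) (integrable_char hi y)]
  refine (norm_integral_le_of_norm_le
    (integrable_inv_one_add_sq.const_mul (2 * Real.pi * |x - y| * M))
    (Eventually.of_forall fun ξ => ?_)).trans ?_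
  · rw [← sub_mul, norm_mul]
    have e : cexp (I * (2 * Real.pi * x : ℝ) * ξ) - cexp (I * (2 * Real.pi * y : ℝ) * ξ)
        = cexp (I * (2 * Real.pi * y : ℝ) * ξ) *
          (cexp (I * ((2 * Real.pi * (x - y) * ξ : ℝ) : ℂ)) - 1) := by
      rw [mul_sub, mul_one, ← Complex.exp_add]; congr 2; push_cast; ring
    rw [e, norm_mul, norm_char, one_mul]
    have h1 := Real.norm_exp_I_mul_ofReal_sub_one_le (x := 2 * Real.pi * (x - y) * ξ)
    have h2 : ‖2 * Real.pi * (x - y) * ξ‖ = 2 * Real.pi * |x - y| * |ξ| := by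
      rw [Real.norm_eq_abs, abs_mul, abs_mul, abs_of_pos (by positivity : 0 < 2 * Real.pi)]
    rw [h2] at h1
    have h3 : |ξ| * ‖h ξ‖ ≤ M * (1 + ξ ^ 2)⁻¹ := by
      have h4 := hM ξ
      have h5 : |ξ| * (1 + ξ ^ 2) ≤ (1 + |ξ|) ^ 3 := by
        have := abs_nonneg ξ
        rw [← sq_abs ξ]; nlinarith [mul_nonneg this this]
      rw [← div_eq_mul_inv, le_div_iff₀ (by positivity)]
      nlinarith [norm_nonneg (h ξ)]
    calc _ ≤ (2 * Real.pi * |x - y| * |ξ|) * ‖h ξ‖ := by gcongr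
      _ = (2 * Real.pi * |x - y|) * (|ξ| * ‖h ξ‖) := by ring
      _ ≤ (2 * Real.pi * |x - y|) * (M * (1 + ξ ^ 2)⁻¹) := by gcongr
      _ = _ := by ring
  · rw [integral_const_mul, integral_univ_inv_one_add_sq]
    have := Real.pi_lt_d2
    have hp := Real.pi_pos
    have h3 : Real.pi * Real.pi ≤ 10 := by nlinarith
    have : 0 ≤ |x - y| * M := by positivity
    nlinarith

/-- the space of test functions -/
def TV (d : ℝ) : Submodule ℂ (ℝ → ℂ) where
  carrier := {h | Continuous h ∧ (∃ M, ∀ x, (1 + |x|) ^ 3 * ‖h x‖ ≤ M) ∧ (∀ x, h (-x) = h x) ∧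
    (∀ x, h x = -FT h x) ∧ Summable fun n => (1 + pt d n) ^ 3 * ‖h (pt d n)‖}
  add_mem' := by
    rintro f g ⟨f1, ⟨M, f2⟩, f3, f4, f5⟩ ⟨g1, ⟨M', g2⟩, g3, g4, g5⟩
    refine ⟨f1.add g1, ⟨M + M', fun x => ?_⟩, fun x => by simp [f3, g3], fun x => ?_, ?_⟩
    · have := norm_add_le (f x) (g x)
      have h1 := f2 x
      have h2 := g2 x
      have h3 : 0 ≤ (1 + |x|) ^ 3 := by positivity
      simp only [Pi.add_apply]
      nlinarith
    · simp only [Pi.add_apply, FT, mul_add]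
      rw [integral_add (integrable_char (integrable_of_bd f1 f2) x)
        (integrable_char (integrable_of_bd g1 g2) x), f4 x, g4 x]
      simp only [FT]; ring
    · refine Summable.of_nonneg_of_le (fun n => by have := pt_nonneg d n; positivity)
        (fun n => ?_) (f5.add g5)
      have := norm_add_le (f (pt d n)) (g (pt d n))
      have h3 : 0 ≤ (1 + pt d n) ^ 3 := by have := pt_nonneg d n; positivity
      simp only [Pi.add_apply]
      nlinarith
  zero_mem' := ⟨continuous_const, ⟨0, by simp⟩, by simp, by simp [FT], by simp [summable_zero]⟩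
  smul_mem' := by
    rintro c f ⟨f1, ⟨M, f2⟩, f3, f4, f5⟩
    refine ⟨f1.const_smul c, ⟨‖c‖ * M, fun x => ?_⟩, fun x => by simp [f3], fun x => ?_, ?_⟩
    · have h1 := f2 x
      simp only [Pi.smul_apply, norm_smul]
      nlinarith [norm_nonneg c]
    · simp only [Pi.smul_apply, FT, smul_eq_mul]
      rw [f4 x, FT, mul_neg, ← integral_const_mul]
      congr 2; ext ξ; ring
    · refine (f5.mul_left ‖c‖).congr fun n => ?_
      simp only [Pi.smul_apply, norm_smul]; ring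

lemma key_ineq {d : ℝ} (hd : 4 ≤ d) {h : ℝ → ℂ} (hh : h ∈ TV d) {m : ℝ}
    (hm : ∀ n, (1 + pt d (n + 2)) ^ 3 * ‖h (pt d (n + 2))‖ ≤ m) (x : ℝ) : ‖h x‖ ≤ 2 * m := by
  obtain ⟨f1, ⟨M, f2⟩, f3, f4, -⟩ := hh
  have hbdd : BddAbove (range fun x => (1 + |x|) ^ 3 * ‖h x‖) := ⟨M, by rintro _ ⟨x, rfl⟩; exact f2 x⟩
  set N := ⨆ x, (1 + |x|) ^ 3 * ‖h x‖ with hN
  have hN1 : ∀ x, (1 + |x|) ^ 3 * ‖h x‖ ≤ N := fun x => le_ciSup hbdd x
  have hN0 : 0 ≤ N := le_trans (by positivity) (hN1 0)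
  have pos : ∀ x, 0 ≤ x → (1 + |x|) ^ 3 * ‖h x‖ ≤ m + N / 2 := by
    intro x hx
    obtain ⟨n, h1, h2⟩ := pt_dense hd hx
    have l := FT_lip f1 hN1 (pt d (n + 2)) x
    rw [abs_of_nonneg (by linarith)] at l
    have l2 : ‖h x‖ ≤ ‖h (pt d (n + 2))‖ + 20 * N * (pt d (n + 2) - x) := by
      have : h x = h (pt d (n + 2)) + (FT h (pt d (n + 2)) - FT h x) := by
        rw [f4 x, f4 (pt d (n + 2))]; ring
      rw [this]
      exact (norm_add_le _ _).trans (by linarith)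
    rw [abs_of_nonneg hx]
    have l3 : (1 + x) ^ 3 ≤ (1 + pt d (n + 2)) ^ 3 := by gcongr
    have l4 := hm n
    calc _ ≤ (1 + x) ^ 3 * (‖h (pt d (n + 2))‖ + 20 * N * (pt d (n + 2) - x)) := by gcongr
      _ = (1 + x) ^ 3 * ‖h (pt d (n + 2))‖ + 20 * N * ((1 + x) ^ 3 * (pt d (n + 2) - x)) := by ring
      _ ≤ (1 + pt d (n + 2)) ^ 3 * ‖h (pt d (n + 2))‖ + 20 * N * (16 / 1000) := by gcongr
      _ ≤ _ := by linarith
  have hNle : N ≤ m + N / 2 := by
    refine ciSup_le fun x => ?_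
    rcases le_total 0 x with hx | hx
    · exact pos x hx
    · have := pos (-x) (by linarith)
      rwa [abs_neg, f3] at this
  have h1 := hN1 x
  have h2 : 1 ≤ (1 + |x|) ^ 3 := one_le_pow₀ (by have := abs_nonneg x; linarith)
  nlinarith [norm_nonneg (h x)]

/-- the frequencies -/
noncomputable def lam (d : ℝ) (n : ℕ) : ℝ := Real.pi * pt d n ^ 2

lemma lam_eq (d : ℝ) (n : ℕ) : lam d n = Real.pi / 10 ^ 6 * (n : ℝ) ^ (2 / d) := by
  rw [lam, pt, mul_pow, ← Real.rpow_natCast ((n:ℝ) ^ (1 / d)), ← Real.rpow_mul (Nat.cast_nonneg n)]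
  rw [show 1 / d * ((2:ℕ):ℝ) = 2 / d by push_cast; ring]
  ring

lemma term_bound {d : ℝ} (hd : 0 < d) {k : ℕ} (hk : 3 * d ≤ 2 * k) (n : ℕ) {y : ℝ} (hy : 0 < y) :
    (n : ℝ) * Real.exp (-(lam d n * y)) ≤
      (k.factorial / (Real.pi / 10 ^ 6) ^ k) * (y ^ k)⁻¹ * (1 / (n:ℝ) ^ 2) := by
  rcases Nat.eq_zero_or_pos n with rfl | hn
  · simp
  have hn1 : (1:ℝ) ≤ n := by exact_mod_cast hn
  have hp := Real.pi_pos
  have hl : 0 < lam d n := by rw [lam_eq]; positivity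
  have h1 := Real.pow_div_factorial_le_exp (lam d n * y) (by positivity) k
  have h2 : (Real.pi / 10 ^ 6) ^ k * (n:ℝ) ^ 3 ≤ lam d n ^ k := by
    rw [lam_eq, mul_pow]
    gcongr
    rw [← Real.rpow_natCast ((n:ℝ) ^ (2 / d)), ← Real.rpow_mul (by positivity),
      ← Real.rpow_natCast (n:ℝ) 3]
    apply Real.rpow_le_rpow_of_exponent_le hn1
    rw [div_mul_eq_mul_div, le_div_iff₀ hd]; push_cast; linarith
  have hf : (0:ℝ) < k.factorial := by exact_mod_cast k.factorial_pos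
  rw [Real.exp_neg]
  have h3 : (Real.exp (lam d n * y))⁻¹ ≤ ((Real.pi / 10 ^ 6) ^ k * (n:ℝ) ^ 3 * y ^ k / k.factorial)⁻¹ := by
    apply inv_anti₀ (by positivity)
    refine le_trans ?_ h1
    rw [mul_pow]; gcongr
  calc _ ≤ (n:ℝ) * ((Real.pi / 10 ^ 6) ^ k * (n:ℝ) ^ 3 * y ^ k / k.factorial)⁻¹ := by gcongr
    _ = _ := by field_simp

lemma summable_term {d : ℝ} (hd : 0 < d) {y : ℝ} (hy : 0 < y) :
    Summable fun n : ℕ => (n : ℝ) * Real.exp (-(lam d n * y)) := by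
  obtain ⟨k, hk⟩ := exists_nat_ge (3 * d)
  refine Summable.of_nonneg_of_le (fun n => by positivity)
    (fun n => term_bound hd (k := k) (by linarith) n hy) ?_
  exact (Real.summable_one_div_nat_pow.mpr one_lt_two).mul_left _

lemma pt_cube {d : ℝ} (hd : 4 ≤ d) {n : ℕ} (hn : 1 ≤ n) : (1 + pt d n) ^ 3 ≤ 8 * n := by
  have hn1 : (1:ℝ) ≤ n := by exact_mod_cast hn
  have h1 : (n:ℝ) ^ (1 / d) ≤ (n:ℝ) ^ (1 / 3 : ℝ) := by
    apply Real.rpow_le_rpow_of_exponent_le hn1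
    apply one_div_le_one_div_of_le <;> linarith
  have h2 : 1 ≤ (n:ℝ) ^ (1 / 3 : ℝ) := Real.one_le_rpow hn1 (by norm_num)
  have h3 : ((n:ℝ) ^ (1 / 3 : ℝ)) ^ 3 = n := by
    rw [← Real.rpow_natCast, ← Real.rpow_mul (by positivity)]; norm_num
  have h4 : 1 + pt d n ≤ 2 * (n:ℝ) ^ (1 / 3 : ℝ) := by simp only [pt]; linarith
  have h5 := pow_le_pow_left₀ (by have := pt_nonneg d n; linarith) h4 3
  rw [mul_pow, h3] at h5
  linarith

/-- Gaussian -/
noncomputable def GG (z : ℂ) (x : ℝ) : ℂ := cexp (-(Real.pi * z) * x ^ 2)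

lemma norm_GG (z : ℂ) (x : ℝ) : ‖GG z x‖ = Real.exp (-(Real.pi * x ^ 2 * z.re)) := by
  rw [GG, Complex.norm_exp]
  congr 1
  rw [show -((Real.pi : ℂ) * z) * (x:ℂ) ^ 2 = ((-(Real.pi * x ^ 2) : ℝ) : ℂ) * z by push_cast; ring,
    re_ofReal_mul]
  ring

lemma GG_pt (d : ℝ) (z : ℂ) (n : ℕ) : GG z (pt d n) = cexp (-(lam d n * z)) := by
  rw [GG, lam]; congr 1; push_cast; ring

lemma FT_GG {z : ℂ} (hz : 0 < z.re) (x : ℝ) : FT (GG z) x = (1 / z) ^ (1 / 2 : ℂ) * GG (1 / z) x := by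
  have hz0 : z ≠ 0 := by rintro rfl; simp at hz
  have hp : (Real.pi : ℂ) ≠ 0 := ofReal_ne_zero.mpr Real.pi_pos.ne'
  have := fourierIntegral_gaussian (b := Real.pi * z) (by simpa using mul_pos Real.pi_pos hz)
    ((2 * Real.pi * x : ℝ) : ℂ)
  simp only [FT, GG]
  rw [this]
  congr 2
  · field_simp
  · push_cast; field_simp; ring

lemma inv_re_pos {z : ℂ} (hz : 0 < z.re) : 0 < (1 / z).re := by
  have hz0 : z ≠ 0 := by rintro rfl; simp at hz
  rw [one_div, inv_re]; exact div_pos hz (normSq_pos.mpr hz0)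

lemma arg_ne_pi {z : ℂ} (hz : 0 < z.re) : z.arg ≠ Real.pi := by
  intro h; rw [arg_eq_pi_iff] at h; linarith [h.1]

lemma half_mul {z : ℂ} (hz : 0 < z.re) : (1 / z) ^ (1 / 2 : ℂ) * z ^ (1 / 2 : ℂ) = 1 := by
  have hz0 : z ≠ 0 := by rintro rfl; simp at hz
  rw [one_div z, inv_cpow _ _ (arg_ne_pi hz), inv_mul_cancel₀]
  simp [hz0]

lemma GG_bd {z : ℂ} (hz : 0 < z.re) : ∃ M, ∀ x, (1 + |x|) ^ 3 * ‖GG z x‖ ≤ M := by
  set a := Real.pi * z.re with ha
  have ha0 : 0 < a := mul_pos Real.pi_pos hz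
  refine ⟨8 + 16 / a ^ 2, fun x => ?_⟩
  rw [norm_GG, show Real.pi * x ^ 2 * z.re = a * x ^ 2 by rw [ha]; ring]
  have h0 := abs_nonneg x
  have h1 : (1 + |x|) ^ 3 ≤ 8 + 8 * (x ^ 2) ^ 2 := by
    rw [← sq_abs x]
    rcases le_total |x| 1 with h | h
    · have := pow_le_pow_left₀ (by linarith : 0 ≤ 1 + |x|) (by linarith : 1 + |x| ≤ 2) 3
      nlinarith [sq_nonneg (|x| ^ 2)]
    · have := pow_le_pow_left₀ (by linarith : 0 ≤ 1 + |x|) (by linarith : 1 + |x| ≤ 2 * |x|) 3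
      have h3 : |x| ^ 3 ≤ |x| ^ 4 := pow_le_pow_right₀ h (by norm_num)
      nlinarith
  have h2 := Real.pow_div_factorial_le_exp (a * x ^ 2) (by positivity) 2
  have h3 : Real.exp (-(a * x ^ 2)) ≤ 1 := Real.exp_le_one_iff.mpr (by
    have : 0 ≤ a * x ^ 2 := by positivity
    linarith)
  have h4 : Real.exp (-(a * x ^ 2)) * Real.exp (a * x ^ 2) = 1 := by rw [← Real.exp_add]; simp
  have h5 := Real.exp_pos (-(a * x ^ 2))
  have h6 : (x ^ 2) ^ 2 * Real.exp (-(a * x ^ 2)) ≤ 2 / a ^ 2 := by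
    rw [le_div_iff₀ (by positivity)]
    norm_num [Nat.factorial] at h2
    nlinarith
  calc _ ≤ (8 + 8 * (x ^ 2) ^ 2) * Real.exp (-(a * x ^ 2)) := by gcongr
    _ = 8 * Real.exp (-(a * x ^ 2)) + 8 * ((x ^ 2) ^ 2 * Real.exp (-(a * x ^ 2))) := by ring
    _ ≤ 8 * 1 + 8 * (2 / a ^ 2) := by gcongr
    _ = _ := by ring

lemma GG_sum {d : ℝ} (hd : 4 ≤ d) {z : ℂ} (hz : 0 < z.re) :
    Summable fun n => (1 + pt d n) ^ 3 * ‖GG z (pt d n)‖ := by
  rw [← summable_nat_add_iff 1]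
  have := (summable_nat_add_iff 1).mpr ((summable_term (d := d) (by linarith) hz).mul_left 8)
  refine Summable.of_nonneg_of_le (fun n => by have := pt_nonneg d (n + 1); positivity)
    (fun n => ?_) this
  rw [norm_GG, ← lam, ← mul_assoc]
  gcongr
  exact pt_cube hd (by omega)

lemma GG_cont (z : ℂ) : Continuous (GG z) := by unfold GG; fun_prop

/-- the antisymmetrised Gaussian -/
noncomputable def HH (z : ℂ) (x : ℝ) : ℂ := GG z x - (1 / z) ^ (1 / 2 : ℂ) * GG (1 / z) x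

lemma HH_mem {d : ℝ} (hd : 4 ≤ d) {z : ℂ} (hz : 0 < z.re) : HH z ∈ TV d := by
  have hz' := inv_re_pos hz
  obtain ⟨M, hM⟩ := GG_bd hz
  obtain ⟨M', hM'⟩ := GG_bd hz'
  set w := (1 / z) ^ (1 / 2 : ℂ) with hw
  have hn : ∀ x, ‖HH z x‖ ≤ ‖GG z x‖ + ‖w‖ * ‖GG (1 / z) x‖ := fun x => by
    rw [← norm_mul]; exact norm_sub_le _ _
  refine ⟨(GG_cont z).sub ((GG_cont _).const_mul _), ⟨M + ‖w‖ * M', fun x => ?_⟩,
    fun x => by simp [HH, GG], fun x => ?_, ?_⟩
  · have h1 := hM x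
    have h2 := hM' x
    calc _ ≤ (1 + |x|) ^ 3 * (‖GG z x‖ + ‖w‖ * ‖GG (1 / z) x‖) := by gcongr; exact hn x
      _ = (1 + |x|) ^ 3 * ‖GG z x‖ + ‖w‖ * ((1 + |x|) ^ 3 * ‖GG (1 / z) x‖) := by ring
      _ ≤ _ := by gcongr
  · have e : FT (HH z) x = FT (GG z) x - w * FT (GG (1 / z)) x := by
      simp only [FT, HH, mul_sub]
      rw [integral_sub (integrable_char (integrable_of_bd (GG_cont _) hM) x), ← integral_const_mul]
      · congr 2; ext ξ; ring
      · refine ((integrable_char (integrable_of_bd (GG_cont _) hM') x).const_mul w).congr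
          (Eventually.of_forall fun ξ => ?_)
        simp only; ring
    rw [e, FT_GG hz, FT_GG hz', one_div_one_div, ← mul_assoc, hw, half_mul hz, HH]
    ring
  · refine Summable.of_nonneg_of_le (fun n => by have := pt_nonneg d n; positivity)
      (fun n => ?_) ((GG_sum hd hz).add ((GG_sum hd hz').mul_left ‖w‖))
    have := pt_nonneg d n
    calc _ ≤ (1 + pt d n) ^ 3 * (‖GG z (pt d n)‖ + ‖w‖ * ‖GG (1 / z) (pt d n)‖) := by
          gcongr; exact hn _
      _ = _ := by ring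

lemma conj_HH {z : ℂ} (hz : 0 < z.re) (x : ℝ) :
    (starRingEnd ℂ) (HH ((starRingEnd ℂ) z) x) = HH z x := by
  have h1 : (starRingEnd ℂ) ((1 / (starRingEnd ℂ) z) ^ (1 / 2 : ℂ)) = (1 / z) ^ (1 / 2 : ℂ) := by
    have := Complex.cpow_conj (1 / z) (1 / 2 : ℂ) (arg_ne_pi (inv_re_pos hz))
    rw [show (starRingEnd ℂ) (1 / 2 : ℂ) = 1 / 2 by simp [map_ofNat]] at this
    rw [this]; simp
  simp only [HH, GG, map_sub, map_mul, h1, ← Complex.exp_conj]
  simp

theorem exists_coeff {d : ℝ} (hd : 4 ≤ d) : ∃ (c : ℕ → ℝ) (K : ℝ), c 1 = 1 ∧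
    (∀ n, |c n| ≤ K * n) ∧ ∀ z : ℂ, 0 < z.re → HasSum (fun n => (c n : ℂ) * HH z (pt d n)) 0 := by
  let ev : ℝ → TV d →ₗ[ℂ] ℂ := fun x => (LinearMap.proj x).comp (TV d).subtype
  have hev : ∀ x (v : TV d), ev x v = (v : ℝ → ℂ) x := fun _ _ => rfl
  let T : ℕ → TV d →ₗ[ℂ] ℂ := fun n => (((1 + pt d (n + 2)) ^ 3 : ℝ) : ℂ) • ev (pt d (n + 2))
  have hT : ∀ n (v : TV d), ‖T n v‖ = (1 + pt d (n + 2)) ^ 3 * ‖(v : ℝ → ℂ) (pt d (n + 2))‖ := by
    intro n v
    have := pt_nonneg d (n + 2)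
    simp only [T, LinearMap.smul_apply, norm_smul, hev, norm_real]
    rw [Real.norm_of_nonneg (by positivity)]
  obtain ⟨γ, hγ, hs⟩ := dual_rep T (ev (pt d 1)) 2 (by norm_num)
    (fun v => by
      simp only [hT]
      exact (summable_nat_add_iff (f := fun n => (1 + pt d n) ^ 3 * ‖(v : ℝ → ℂ) (pt d n)‖) 2).mpr
        v.2.2.2.2.2)
    (fun v m hm => key_ineq hd v.2 (fun n => by rw [← hT]; exact hm n) _)
  let c' : ℕ → ℂ := fun n => match n with
    | 0 => 0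
    | 1 => 1
    | n + 2 => -(γ n * (((1 + pt d (n + 2)) ^ 3 : ℝ) : ℂ))
  have h1 : ∀ z : ℂ, 0 < z.re → HasSum (fun n => c' n * HH z (pt d n)) 0 := by
    intro z hz
    have := (hs ⟨HH z, HH_mem hd hz⟩).neg
    rw [← hasSum_nat_add_iff' 2]
    simp only [Finset.sum_range_succ, Finset.sum_range_zero, c', zero_mul, one_mul, zero_add,
      zero_sub, add_zero]
    refine (congrArg (fun f => HasSum f _) (funext fun n => ?_)).mpr this
    simp only [T, LinearMap.smul_apply, hev, smul_eq_mul]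
    ring
  have h2 : ∀ z : ℂ, 0 < z.re → HasSum (fun n => (starRingEnd ℂ) (c' n) * HH z (pt d n)) 0 := by
    intro z hz
    have := (h1 ((starRingEnd ℂ) z) (by simpa using hz)).mapL (conjCLE : ℂ →L[ℝ] ℂ)
    simpa [conj_HH hz] using this
  refine ⟨fun n => (c' n).re, 16, by simp [c'], fun n => ?_, fun z hz => ?_⟩
  · refine (abs_re_le_norm _).trans ?_
    match n with
    | 0 => simp [c']
    | 1 => simp [c']
    | n + 2 =>
      have := pt_nonneg d (n + 2)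
      have h3 := pt_cube hd (show 1 ≤ n + 2 by omega)
      simp only [c', norm_neg, norm_mul, norm_real]
      rw [Real.norm_of_nonneg (by positivity)]
      calc _ ≤ 2 * (8 * ((n + 2 : ℕ) : ℝ)) := by gcongr; exact hγ n
        _ = _ := by ring
  · have := ((h1 z hz).add (h2 z hz)).mul_left (1 / 2)
    simp only [add_zero, mul_zero] at this
    refine (congrArg (fun f => HasSum f _) (funext fun n => ?_)).mpr this
    rw [re_eq_add_conj]; ring

end Pool.Agent.H20Deg
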