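import Pool.Agent.Lib.helper20.DegA
import Pool.Agent.Lib.helper3.BarnesA

open Complex MeasureTheory Filter Topology Set Asymptotics

namespace Pool.Agent.H20Deg

open Pool.Agent.H3Barnes (conv_exp mellin_exp)

lemma real_mul_cpow {x : ℝ} (hx : 0 < x) {u : ℂ} (hu : u ≠ 0) (s : ℂ) :
    ((x : ℂ) * u) ^ s = (x : ℂ) ^ s * u ^ s := by
  rw [cpow_def_of_ne_zero (x := (x : ℂ) * u) (mul_ne_zero (ofReal_ne_zero.mpr hx.ne') hu),
    log_ofReal_mul hx hu, cpow_def_of_ne_zero hu,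
    cpow_def_of_ne_zero (ofReal_ne_zero.mpr hx.ne'), add_mul, Complex.exp_add, ofReal_log hx.le]

/-- termwise Mellin transform along a ray, with coefficients -/
lemma hasSum_mellin_ray' {a : ℕ → ℂ} {p : ℕ → ℝ} {F : ℝ → ℂ} {s u : ℂ}
    (hp : ∀ i, a i = 0 ∨ 0 < p i) (hs : 0 < s.re) (hu : 0 < u.re)
    (hF : ∀ t ∈ Ioi (0:ℝ), HasSum (fun i ↦ a i * cexp (-(p i * (t * u)))) (F t))
    (h_sum : Summable fun i ↦ ‖a i‖ * (p i) ^ (-s.re)) :
    HasSum (fun i ↦ u ^ (-s) * Gamma s * (a i * (p i : ℂ) ^ (-s))) (mellin F s) := by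
  have hu0 : u ≠ 0 := by rintro rfl; simp at hu
  have hpu : ∀ i, 0 < p i → 0 < ((p i : ℂ) * u).re := fun i hi => by simpa using mul_pos hi hu
  have e : ∀ i (t : ℝ), (t:ℂ) ^ (s - 1) * (a i * cexp (-(p i * (t * u)))) =
      a i * ((t:ℂ) ^ (s - 1) * cexp (-(t * (p i * u)))) := fun i t => by
    rw [show (p i : ℂ) * (t * u) = t * (p i * u) by ring]; ring
  simp_rw [mellin, smul_eq_mul, ← setIntegral_congr_fun measurableSet_Ioi
    (fun t ht ↦ congr_arg _ (hF t ht).tsum_eq), ← tsum_mul_left, e]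
  have key := hasSum_integral_of_summable_integral_norm (μ := volume.restrict (Ioi (0:ℝ)))
    (F := fun i (t : ℝ) ↦ a i * ((t:ℂ) ^ (s - 1) * cexp (-(t * (p i * u)))))
      (fun i ↦ ?_) ?_
  · refine (congrArg (fun f => HasSum f _) (funext fun i => ?_)).mpr key
    rcases hp i with h | h
    · simp [h]
    have := mellin_exp hs (hpu i h)
    simp only [mellin, smul_eq_mul] at this
    rw [integral_const_mul, this, real_mul_cpow h hu0]
    ring
  · rcases hp i with h | h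
    · simp [h]
    exact (conv_exp hs (hpu i h)).const_mul _
  · refine (h_sum.mul_left (u.re ^ (-s.re) * Real.Gamma s.re)).congr fun i => ?_
    rcases hp i with h | h
    · simp [h]
    have hpi : 0 < p i * u.re := mul_pos h hu
    have := Real.integral_rpow_mul_exp_neg_mul_Ioi hs hpi
    rw [one_div, Real.inv_rpow hpi.le, ← Real.rpow_neg hpi.le, Real.mul_rpow h.le hu.le] at this
    rw [show u.re ^ (-s.re) * Real.Gamma s.re * (‖a i‖ * p i ^ (-s.re))
      = ‖a i‖ * (p i ^ (-s.re) * u.re ^ (-s.re) * Real.Gamma s.re) by ring, ← this,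
      ← integral_const_mul]
    refine setIntegral_congr_fun measurableSet_Ioi (fun t ht ↦ ?_)
    rw [norm_mul, norm_mul, norm_cpow_eq_rpow_re_of_pos ht, sub_re, one_re, Complex.norm_exp]
    have : (-((t:ℂ) * (p i * u))).re = -(p i * u.re * t) := by simp; ring
    rw [this]

lemma mellin_bound {φ : ℝ → ℂ} {B : ℝ} {w : ℂ}
    (h1 : ∀ x, 0 < x → x ≤ 1 → x ^ (w.re - 1) * ‖φ x‖ ≤ B)
    (h2 : ∀ x, 1 ≤ x → x ^ (w.re - 1) * ‖φ x‖ ≤ B * (x ^ 2)⁻¹) : ‖mellin φ w‖ ≤ 4 * B := by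
  have hB : 0 ≤ B := le_trans (by positivity) (h1 1 one_pos le_rfl)
  rw [mellin]
  refine (norm_integral_le_of_norm_le
    (integrable_inv_one_add_sq.const_mul (2 * B)).integrableOn
    ((ae_restrict_mem measurableSet_Ioi).mono fun x hx => ?_)).trans ?_
  · have hx0 : 0 < x := hx
    rw [norm_smul, norm_cpow_eq_rpow_re_of_pos hx0, sub_re, one_re]
    rcases le_total x 1 with h | h
    · refine (h1 x hx0 h).trans ?_
      rw [← div_eq_mul_inv, le_div_iff₀ (by positivity)]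
      have : x ^ 2 ≤ 1 := by nlinarith
      nlinarith
    · refine (h2 x h).trans ?_
      rw [← div_eq_mul_inv, ← div_eq_mul_inv, div_le_div_iff₀ (by positivity) (by positivity)]
      have : 1 ≤ x ^ 2 := by nlinarith
      nlinarith
  · rw [integral_const_mul, integral_Ioi_inv_one_add_sq, Real.arctan_zero, sub_zero]
    have := Real.pi_lt_d2
    nlinarith

lemma exists_ray (t : ℝ) : ∃ u : ℂ, ‖u‖ = 1 ∧ (2 * (1 + |t|))⁻¹ ≤ u.re ∧
    ∀ w : ℂ, w.im = t → Real.exp (Real.pi / 2 * |t| - 1) ≤ ‖u ^ (-w)‖ := by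
  have h0 := abs_nonneg t
  set η : ℝ := (1 + |t|)⁻¹ with hη
  have hη0 : 0 < η := by positivity
  have hη1 : η ≤ 1 := inv_le_one_of_one_le₀ (by linarith)
  have hp := Real.pi_gt_three
  have hp2 := Real.pi_lt_d2
  have hηt : η * |t| ≤ 1 := by
    rw [hη, inv_mul_le_iff₀ (by positivity)]; linarith
  obtain ⟨θ, h1, h2, h3, h4⟩ : ∃ θ : ℝ, -Real.pi < θ ∧ θ ≤ Real.pi ∧ Real.cos θ = Real.sin η ∧
      θ * t = (Real.pi / 2 - η) * |t| := by
    rcases le_total 0 t with h | h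
    · exact ⟨Real.pi / 2 - η, by linarith, by linarith, Real.cos_pi_div_two_sub η,
        by rw [abs_of_nonneg h]⟩
    · exact ⟨-(Real.pi / 2 - η), by linarith, by linarith,
        by rw [Real.cos_neg, Real.cos_pi_div_two_sub], by rw [abs_of_nonpos h]; ring⟩
  refine ⟨cexp (θ * I), norm_exp_ofReal_mul_I θ, ?_, fun w hw => ?_⟩
  · rw [exp_ofReal_mul_I_re, h3]
    refine le_trans ?_ (Real.mul_le_sin hη0.le (by linarith))
    rw [mul_inv, ← hη]
    gcongr
    rw [inv_le_iff_one_le_mul₀ (by norm_num), div_mul_eq_mul_div, le_div_iff₀ (by linarith)]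
    linarith
  · rw [cpow_def_of_ne_zero (Complex.exp_ne_zero _), log_exp (by simpa using h1) (by simpa using h2),
      Complex.norm_exp]
    apply Real.exp_le_exp.mpr
    have : ((θ:ℂ) * I * -w).re = θ * t := by simp [hw]
    rw [this, h4]
    nlinarith

lemma inv_pow_le {t ρ : ℝ} (h : (2 * (1 + |t|))⁻¹ ≤ ρ) (k : ℕ) :
    (ρ ^ k)⁻¹ ≤ 2 ^ k * (1 + |t|) ^ k := by
  have h0 := abs_nonneg t
  rw [← mul_pow, ← inv_pow]
  have h1 : 0 < (2 * (1 + |t|))⁻¹ := by positivity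
  refine pow_le_pow_left₀ (by have : 0 < ρ := by linarith
                              positivity) ?_ k
  exact inv_le_of_inv_le₀ (by positivity) h

lemma gamma_pos_bound (k : ℕ) (z : ℂ) (h1 : 1 ≤ z.re) (h2 : z.re + 1 ≤ k) :
    ‖Gamma z‖ * Real.exp (Real.pi / 2 * |z.im| - 1) ≤
      4 * k.factorial * 2 ^ k * (1 + |z.im|) ^ k := by
  obtain ⟨u, hu1, hu2, hu3⟩ := exists_ray z.im
  have h0 := abs_nonneg z.im
  have hρ : 0 < u.re := lt_of_lt_of_le (by positivity) hu2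
  have hρ1 : u.re ≤ 1 := hu1 ▸ re_le_norm u
  have e := mellin_exp (s := z) (by linarith) hρ
  have hf : (1:ℝ) ≤ k.factorial := by exact_mod_cast k.factorial_pos
  have hn : ∀ x : ℝ, ‖cexp (-(x * u))‖ = Real.exp (-(x * u.re)) := fun x => by
    rw [Complex.norm_exp]; simp
  have hk1 : 1 ≤ (u.re ^ k)⁻¹ := (one_le_inv₀ (by positivity)).mpr (pow_le_one₀ hρ.le hρ1)
  have b := mellin_bound (φ := fun x : ℝ => cexp (-(x * u))) (w := z)
    (B := k.factorial * (u.re ^ k)⁻¹) ?_ ?_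
  · rw [e, norm_mul] at b
    have c := inv_pow_le hu2 k
    calc _ ≤ ‖Gamma z‖ * ‖u ^ (-z)‖ := by gcongr; exact hu3 z rfl
      _ ≤ 4 * (k.factorial * (u.re ^ k)⁻¹) := by rw [mul_comm]; exact b
      _ ≤ 4 * (k.factorial * (2 ^ k * (1 + |z.im|) ^ k)) := by gcongr
      _ = _ := by ring
  · intro x hx hx1
    rw [hn]
    have a1 : x ^ (z.re - 1) ≤ 1 := Real.rpow_le_one hx.le hx1 (by linarith)
    have a2 : Real.exp (-(x * u.re)) ≤ 1 :=
      Real.exp_le_one_iff.mpr (by have := mul_pos hx hρ; linarith)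
    calc _ ≤ (1:ℝ) * 1 := by gcongr
      _ ≤ _ := by gcongr
  · intro x hx
    have hx0 : 0 < x := by linarith
    rw [hn]
    have a1 : x ^ (z.re - 1) ≤ x ^ k * (x ^ 2)⁻¹ := by
      rw [← Real.rpow_natCast, ← Real.rpow_natCast, ← Real.rpow_neg hx0.le, ← Real.rpow_add hx0]
      apply Real.rpow_le_rpow_of_exponent_le hx
      push_cast; linarith
    have a2 : Real.exp (-(x * u.re)) ≤ ((x * u.re) ^ k / k.factorial)⁻¹ := by
      rw [Real.exp_neg]
      exact inv_anti₀ (by positivity) (Real.pow_div_factorial_le_exp _ (by positivity) k)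
    calc _ ≤ (x ^ k * (x ^ 2)⁻¹) * ((x * u.re) ^ k / k.factorial)⁻¹ := by gcongr
      _ = _ := by rw [mul_pow]; field_simp

lemma gamma_shift (m : ℕ) (z : ℂ) (hz : 1 ≤ |z.im|) : ‖Gamma z‖ ≤ ‖Gamma (z + m)‖ := by
  induction m with
  | zero => simp
  | succ m ih =>
    have h1 : 1 ≤ ‖z + m‖ := by
      have := abs_im_le_norm (z + m)
      simp only [add_im, natCast_im, add_zero] at this
      linarith
    have h2 : z + m ≠ 0 := by intro h; rw [h] at h1; simp at h1; linarith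
    rw [Nat.cast_succ, ← add_assoc, Gamma_add_one _ h2, norm_mul]
    nlinarith [norm_nonneg (Gamma (z + m))]

lemma norm_sin_le (z : ℂ) : ‖Complex.sin z‖ ≤ Real.exp |z.im| := by
  rw [Complex.sin, norm_div, norm_mul, norm_I, mul_one]
  have h1 : ‖cexp (-z * I)‖ ≤ Real.exp |z.im| := by
    rw [Complex.norm_exp]; apply Real.exp_le_exp.mpr; simpa using le_abs_self _
  have h2 : ‖cexp (z * I)‖ ≤ Real.exp |z.im| := by
    rw [Complex.norm_exp]; apply Real.exp_le_exp.mpr; simpa using neg_le_abs _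
  have := norm_sub_le (cexp (-z * I)) (cexp (z * I))
  simp only [Complex.norm_ofNat]
  linarith

lemma inv_gamma_bound (R : ℕ) : ∃ (C : ℝ) (k : ℕ), 0 ≤ C ∧ ∀ w : ℂ, |w.re| ≤ R → 1 ≤ |w.im| →
    ‖(Gamma w)⁻¹‖ ≤ C * (1 + |w.im|) ^ k * Real.exp (Real.pi / 2 * |w.im| + 1) := by
  refine ⟨4 * (2 * R + 2).factorial * 2 ^ (2 * R + 2), 2 * R + 2, by positivity,
    fun w h1 h2 => ?_⟩
  obtain ⟨h3, h4⟩ := abs_le.mp h1
  have hne : ∀ z : ℂ, 1 ≤ |z.im| → Gamma z ≠ 0 := fun z hz =>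
    Complex.Gamma_ne_zero fun m h => by rw [h] at hz; simp at hz; linarith
  have g1 := hne w h2
  have g2 := hne (1 - w) (by simpa using h2)
  have r := Complex.Gamma_mul_Gamma_one_sub w
  have hs : Complex.sin (Real.pi * w) ≠ 0 := by
    intro h; rw [h, div_zero] at r; exact mul_ne_zero g1 g2 r
  have hp : (Real.pi : ℂ) ≠ 0 := ofReal_ne_zero.mpr Real.pi_pos.ne'
  have e : (Gamma w)⁻¹ = Gamma (1 - w) * Complex.sin (Real.pi * w) / Real.pi := by
    rw [eq_div_iff hs] at r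
    rw [eq_div_iff hp, inv_mul_eq_iff_eq_mul₀ g1]
    linear_combination -r
  have b1 := gamma_shift R (1 - w) (by simpa using h2)
  have b2 := gamma_pos_bound (2 * R + 2) (1 - w + R) (by simp; linarith) (by simp; linarith)
  have e2 : |(1 - w + R).im| = |w.im| := by simp
  rw [e2] at b2
  have b3 := norm_sin_le (Real.pi * w)
  have e3 : |((Real.pi : ℂ) * w).im| = Real.pi * |w.im| := by
    simp [abs_mul, abs_of_pos Real.pi_pos]
  rw [e3] at b3
  have e4 : Real.exp (Real.pi * |w.im|) = Real.exp (Real.pi / 2 * |w.im| - 1) *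
      Real.exp (Real.pi / 2 * |w.im| + 1) := by rw [← Real.exp_add]; congr 1; ring
  rw [e, norm_div, norm_mul, norm_real, Real.norm_of_nonneg Real.pi_pos.le]
  have hp3 := Real.pi_gt_three
  calc _ ≤ ‖Gamma (1 - w)‖ * ‖Complex.sin (Real.pi * w)‖ :=
        div_le_self (by positivity) (by linarith)
    _ ≤ ‖Gamma (1 - w + R)‖ * Real.exp (Real.pi * |w.im|) := by gcongr
    _ = (‖Gamma (1 - w + R)‖ * Real.exp (Real.pi / 2 * |w.im| - 1)) *
        Real.exp (Real.pi / 2 * |w.im| + 1) := by rw [e4]; ring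
    _ ≤ _ := by gcongr

end Pool.Agent.H20Deg
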