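import Pool.Agent.Lib.helper20.DegB

open Complex MeasureTheory Filter Topology Set Asymptotics

namespace Pool.Agent.H20Deg

/-- the theta-like series -/
noncomputable def th (d : ℝ) (c : ℕ → ℝ) (z : ℂ) : ℂ := ∑' n, (c n : ℂ) * cexp (-(lam d n * z))

structure Data (d : ℝ) (c : ℕ → ℝ) (K : ℝ) : Prop where
  hd : 4 ≤ d
  hc : ∀ n, |c n| ≤ K * n
  fe : ∀ z : ℂ, 0 < z.re → HasSum (fun n => (c n : ℂ) * HH z (pt d n)) 0

variable {d : ℝ} {c : ℕ → ℝ} {K : ℝ}

lemma Data.K_nonneg (D : Data d c K) : 0 ≤ K := by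
  have := D.hc 1
  have h := abs_nonneg (c 1)
  simp at this; linarith

lemma Data.c_zero (D : Data d c K) : c 0 = 0 := by simpa using D.hc 0

lemma lam_nonneg (d : ℝ) (n : ℕ) : 0 ≤ lam d n := by
  have := Real.pi_pos
  unfold lam; positivity

lemma lam_pos (d : ℝ) {n : ℕ} (hn : n ≠ 0) : 0 < lam d n := by
  have := Real.pi_pos
  have h : (0:ℝ) < n := by exact_mod_cast Nat.pos_of_ne_zero hn
  rw [lam_eq]; positivity

lemma Data.term_le (D : Data d c K) {z : ℂ} {y : ℝ} (hy : y ≤ z.re) (n : ℕ) :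
    ‖(c n : ℂ) * cexp (-(lam d n * z))‖ ≤ K * ((n : ℝ) * Real.exp (-(lam d n * y))) := by
  rw [norm_mul, norm_real, Complex.norm_exp, ← mul_assoc, Real.norm_eq_abs]
  have h1 := D.hc n
  have h2 := lam_nonneg d n
  have h3 := D.K_nonneg
  gcongr
  simp only [neg_re, re_ofReal_mul]
  nlinarith

lemma Data.summable (D : Data d c K) {z : ℂ} (hz : 0 < z.re) :
    Summable fun n => (c n : ℂ) * cexp (-(lam d n * z)) :=
  Summable.of_norm_bounded ((summable_term (d := d) (by linarith [D.hd]) hz).mul_left K)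
    (D.term_le le_rfl)

lemma Data.th_fe (D : Data d c K) {z : ℂ} (hz : 0 < z.re) :
    th d c z = (1 / z) ^ (1 / 2 : ℂ) * th d c (1 / z) := by
  have h1 := (D.summable hz).hasSum.sub
    ((D.summable (inv_re_pos hz)).hasSum.mul_left ((1 / z) ^ (1 / 2 : ℂ)))
  have h2 := D.fe z hz
  simp only [HH, GG_pt] at h2
  have h3 := h2.unique (by
    refine (congrArg (fun f => HasSum f _) (funext fun n => ?_)).mpr h1
    ring)
  simp only [th]
  linear_combination -h3

lemma Data.th_bound (D : Data d c K) {k : ℕ} (hk : 3 * d ≤ 2 * k) :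
    ∃ C, 0 ≤ C ∧ ∀ z : ℂ, 0 < z.re → ‖th d c z‖ ≤ C * (z.re ^ k)⁻¹ := by
  have hs := Real.summable_one_div_nat_pow.mpr one_lt_two
  have hK := D.K_nonneg
  have hp := Real.pi_pos
  have h0 : 0 ≤ ∑' n : ℕ, 1 / (n:ℝ) ^ 2 := tsum_nonneg fun n => by positivity
  refine ⟨K * (k.factorial / (Real.pi / 10 ^ 6) ^ k) * ∑' n : ℕ, 1 / (n:ℝ) ^ 2, by positivity,
    fun z hz => ?_⟩
  refine (tsum_of_norm_bounded
    (hs.hasSum.mul_left (K * (k.factorial / (Real.pi / 10 ^ 6) ^ k) * (z.re ^ k)⁻¹))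
    fun n => ?_).trans (le_of_eq (by ring))
  refine (D.term_le le_rfl n).trans ?_
  have := term_bound (d := d) (by linarith [D.hd]) hk n hz
  calc _ ≤ K * ((k.factorial / (Real.pi / 10 ^ 6) ^ k) * (z.re ^ k)⁻¹ * (1 / (n:ℝ) ^ 2)) := by
        gcongr
    _ = _ := by ring

lemma Data.th_contAt (D : Data d c K) {z : ℂ} (hz : 0 < z.re) : ContinuousAt (th d c) z := by
  have h : ContinuousOn (th d c) {w | z.re / 2 < w.re} :=
    continuousOn_tsum (fun n => Continuous.continuousOn (by fun_prop))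
      ((summable_term (d := d) (by linarith [D.hd]) (half_pos hz)).mul_left K)
      (fun n w hw => D.term_le (le_of_lt hw) n)
  exact h.continuousAt ((isOpen_lt continuous_const continuous_re).mem_nhds
    (by simp only [mem_ofPred_eq]; linarith))

lemma Data.ray_loc (D : Data d c K) {u : ℂ} (hu : 0 < u.re) :
    LocallyIntegrableOn (fun x : ℝ => th d c (x * u)) (Ioi 0) := by
  refine ContinuousOn.locallyIntegrableOn (fun x hx => ContinuousAt.continuousWithinAt ?_)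
    measurableSet_Ioi
  have hx0 : 0 < x := hx
  exact ContinuousAt.comp (f := fun x : ℝ => (x:ℂ) * u)
    (D.th_contAt (by simpa using mul_pos hx0 hu)) (by fun_prop)

lemma Data.ray_bound (D : Data d c K) {k : ℕ} (hk : 3 * d ≤ 2 * k) :
    ∃ C, 0 ≤ C ∧ ∀ u : ℂ, ‖u‖ = 1 → 0 < u.re → ∀ x : ℝ, 0 < x →
      ‖th d c (x * u)‖ ≤ C * (u.re ^ k)⁻¹ * x ^ (-(k:ℝ)) ∧
      ‖th d c (x * u)‖ ≤ C * (u.re ^ k)⁻¹ * x ^ ((k:ℝ) - 1 / 2) := by
  obtain ⟨C, hC0, hC⟩ := D.th_bound hk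
  refine ⟨C, hC0, fun u hu1 hu x hx => ⟨?_, ?_⟩⟩
  · have := hC (x * u) (by simpa using mul_pos hx hu)
    rw [re_ofReal_mul, mul_pow, mul_inv] at this
    rw [Real.rpow_neg hx.le, Real.rpow_natCast]
    linarith
  · have hz : 0 < ((x:ℂ) * u).re := by simpa using mul_pos hx hu
    have h1 := hC _ (inv_re_pos hz)
    have e1 : (1 / ((x:ℂ) * u)).re = x⁻¹ * u.re := by
      rw [one_div, mul_inv, ← ofReal_inv, re_ofReal_mul, inv_re, normSq_eq_norm_sq, hu1]; simp
    have e2 : ‖(1 / ((x:ℂ) * u)) ^ (1 / 2 : ℂ)‖ = x ^ (-(1 / 2) : ℝ) := by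
      rw [show (1 / 2 : ℂ) = ((1 / 2 : ℝ) : ℂ) by simp, norm_cpow_real, norm_div, norm_mul, hu1,
        norm_real, Real.norm_of_nonneg hx.le, norm_one, mul_one, one_div x, Real.inv_rpow hx.le,
        Real.rpow_neg hx.le]
    rw [D.th_fe hz, norm_mul, e2]
    rw [e1, mul_pow, mul_inv, inv_pow, inv_inv] at h1
    rw [sub_eq_add_neg, Real.rpow_add hx, Real.rpow_natCast]
    calc _ ≤ x ^ (-(1 / 2) : ℝ) * (C * (x ^ k * (u.re ^ k)⁻¹)) := by gcongr
      _ = _ := by ring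

lemma Data.ray_top (D : Data d c K) {u : ℂ} (hu1 : ‖u‖ = 1) (hu : 0 < u.re) (r : ℝ) :
    (fun x : ℝ => th d c (x * u)) =O[atTop] (· ^ r) := by
  obtain ⟨k, hk⟩ := exists_nat_ge (max (3 * d) (-r))
  have h1 := le_max_left (3 * d) (-r)
  have h2 := le_max_right (3 * d) (-r)
  obtain ⟨C, hC0, hC⟩ := D.ray_bound (k := k) (by linarith [D.hd])
  refine IsBigO.of_bound (C * (u.re ^ k)⁻¹) ?_
  filter_upwards [eventually_ge_atTop 1] with x hx
  refine (hC u hu1 hu x (by linarith)).1.trans ?_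
  rw [Real.norm_of_nonneg (by positivity)]
  gcongr
  linarith

lemma Data.ray_bot (D : Data d c K) {u : ℂ} (hu1 : ‖u‖ = 1) (hu : 0 < u.re) (r : ℝ) :
    (fun x : ℝ => th d c (x * u)) =O[𝓝[>] 0] (· ^ r) := by
  obtain ⟨k, hk⟩ := exists_nat_ge (max (3 * d) (r + 1))
  have h1 := le_max_left (3 * d) (r + 1)
  have h2 := le_max_right (3 * d) (r + 1)
  obtain ⟨C, hC0, hC⟩ := D.ray_bound (k := k) (by linarith [D.hd])
  refine IsBigO.of_bound (C * (u.re ^ k)⁻¹) ?_
  filter_upwards [Ioo_mem_nhdsGT (zero_lt_one' ℝ)] with x hx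
  refine (hC u hu1 hu x hx.1).2.trans ?_
  have hx0 := hx.1
  rw [Real.norm_of_nonneg (by positivity)]
  refine mul_le_mul_of_nonneg_left ?_ (by positivity)
  exact Real.rpow_le_rpow_of_exponent_ge hx.1 hx.2.le (by linarith)

/-- Mellin transform along a ray -/
noncomputable def LL (d : ℝ) (c : ℕ → ℝ) (u : ℂ) : ℂ → ℂ := mellin fun x : ℝ => th d c (x * u)

lemma Data.LL_diff (D : Data d c K) {u : ℂ} (hu1 : ‖u‖ = 1) (hu : 0 < u.re) :
    Differentiable ℂ (LL d c u) := fun s =>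
  mellin_differentiableAt_of_isBigO_rpow (a := s.re + 1) (b := s.re - 1) (D.ray_loc hu)
    (D.ray_top hu1 hu _) (by linarith) (D.ray_bot hu1 hu _) (by linarith)

lemma Data.sum_lam (D : Data d c K) {σ : ℝ} (hσ : 3 * d ≤ 2 * σ) :
    Summable fun n => ‖(c n : ℂ)‖ * lam d n ^ (-σ) := by
  have hd := D.hd
  have hK := D.K_nonneg
  have hp := Real.pi_pos
  refine Summable.of_nonneg_of_le (fun n => by have := lam_nonneg d n; positivity) (fun n => ?_)
    ((Real.summable_one_div_nat_pow.mpr one_lt_two).mul_left (K * (Real.pi / 10 ^ 6) ^ (-σ)))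
  rcases Nat.eq_zero_or_pos n with rfl | hn
  · simp [D.c_zero]
  have hn1 : (1:ℝ) ≤ n := by exact_mod_cast hn
  have hn0 : (0:ℝ) < n := by linarith
  rw [lam_eq, Real.mul_rpow (by positivity) (by positivity), ← Real.rpow_mul hn0.le, norm_real,
    Real.norm_eq_abs]
  have h1 : (n:ℝ) ^ (2 / d * -σ) ≤ ((n:ℝ) ^ 3)⁻¹ := by
    rw [← Real.rpow_natCast, ← Real.rpow_neg hn0.le]
    apply Real.rpow_le_rpow_of_exponent_le hn1
    rw [div_mul_eq_mul_div, div_le_iff₀ (by linarith)]; push_cast; linarith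
  calc _ ≤ (K * n) * ((Real.pi / 10 ^ 6) ^ (-σ) * ((n:ℝ) ^ 3)⁻¹) := by gcongr; exact D.hc n
    _ = _ := by field_simp

lemma Data.LL_sum (D : Data d c K) {u : ℂ} (hu : 0 < u.re) {w : ℂ} (hw : 3 * d ≤ 2 * w.re) :
    HasSum (fun n ↦ u ^ (-w) * Gamma w * ((c n : ℂ) * (lam d n : ℂ) ^ (-w))) (LL d c u w) := by
  refine hasSum_mellin_ray' (fun n => ?_) (by linarith [D.hd]) hu (fun t ht => ?_) (D.sum_lam hw)
  · by_cases h : n = 0
    · left; simp [h, D.c_zero]
    · right; exact lam_pos d h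
  · have ht0 : 0 < t := ht
    exact (D.summable (by simpa using mul_pos ht0 hu)).hasSum

lemma Data.LL_rot (D : Data d c K) {u : ℂ} (hu1 : ‖u‖ = 1) (hu : 0 < u.re) (w : ℂ) :
    LL d c u w = u ^ (-w) * LL d c 1 w := by
  have hu0 : u ≠ 0 := by rintro rfl; simp at hu
  have a1 : AnalyticOnNhd ℂ (LL d c u) univ := fun z _ => (D.LL_diff hu1 hu).analyticAt z
  have a2 : AnalyticOnNhd ℂ (fun w => u ^ (-w) * LL d c 1 w) univ := fun z _ =>
    Differentiable.analyticAt (Differentiable.mul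
      (differentiable_id.neg.const_cpow (Or.inl hu0)) (D.LL_diff (by simp) (by simp))) z
  refine congrFun (a1.eq_of_eventuallyEq a2 (z₀ := ((2 * d : ℝ) : ℂ)) ?_) w
  have hd := D.hd
  filter_upwards [(isOpen_lt continuous_const continuous_re).mem_nhds
    (show ((2 * d : ℝ) : ℂ) ∈ {w : ℂ | 3 * d / 2 < w.re} by
      simp only [mem_ofPred_eq, ofReal_re]; linarith)] with w hw
  have hw' : 3 * d ≤ 2 * w.re := by
    have : 3 * d / 2 < w.re := hw
    linarith
  refine (D.LL_sum hu hw').unique ?_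
  have := (D.LL_sum (u := 1) (by simp) hw').mul_left (u ^ (-w))
  refine (congrArg (fun f => HasSum f _) (funext fun n => ?_)).mpr this
  simp; ring

lemma Data.LL_bound (D : Data d c K) (R : ℕ) : ∃ (C : ℝ) (k : ℕ), 0 ≤ C ∧ ∀ w : ℂ, |w.re| ≤ R →
    ‖LL d c 1 w‖ * Real.exp (Real.pi / 2 * |w.im| - 1) ≤ C * (1 + |w.im|) ^ k := by
  obtain ⟨k, hk⟩ := exists_nat_ge (max (3 * d) (R + 2))
  have h1 := le_max_left (3 * d) (R + 2)
  have h2 := le_max_right (3 * d) (R + 2)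
  obtain ⟨C, hC0, hC⟩ := D.ray_bound (k := k) (by linarith [D.hd])
  refine ⟨4 * C * 2 ^ k, k, by positivity, fun w hw => ?_⟩
  obtain ⟨h3, h4⟩ := abs_le.mp hw
  obtain ⟨u, hu1, hu2, hu3⟩ := exists_ray w.im
  have h0 := abs_nonneg w.im
  have hρ : 0 < u.re := lt_of_lt_of_le (by positivity) hu2
  have b := mellin_bound (φ := fun x : ℝ => th d c (x * u)) (w := w)
    (B := C * (u.re ^ k)⁻¹) ?_ ?_
  · have e := D.LL_rot hu1 hρ w
    rw [LL] at e
    rw [e, norm_mul] at b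
    have c := inv_pow_le hu2 k
    calc _ ≤ ‖LL d _ 1 w‖ * ‖u ^ (-w)‖ := by gcongr; exact hu3 w rfl
      _ ≤ 4 * (C * (u.re ^ k)⁻¹) := by rw [mul_comm]; exact b
      _ ≤ 4 * (C * (2 ^ k * (1 + |w.im|) ^ k)) := by gcongr
      _ = _ := by ring
  · intro x hx hx1
    have a1 : x ^ (w.re - 1) * x ^ ((k:ℝ) - 1 / 2) ≤ 1 := by
      rw [← Real.rpow_add hx]
      exact Real.rpow_le_one hx.le hx1 (by linarith)
    calc _ ≤ x ^ (w.re - 1) * (C * (u.re ^ k)⁻¹ * x ^ ((k:ℝ) - 1 / 2)) := by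
          gcongr; exact (hC u hu1 hρ x hx).2
      _ = C * (u.re ^ k)⁻¹ * (x ^ (w.re - 1) * x ^ ((k:ℝ) - 1 / 2)) := by ring
      _ ≤ C * (u.re ^ k)⁻¹ * 1 := by gcongr
      _ = _ := by ring
  · intro x hx
    have hx0 : 0 < x := by linarith
    have a1 : x ^ (w.re - 1) * x ^ (-(k:ℝ)) ≤ (x ^ 2)⁻¹ := by
      rw [← Real.rpow_add hx0, ← Real.rpow_natCast, ← Real.rpow_neg hx0.le]
      apply Real.rpow_le_rpow_of_exponent_le hx
      push_cast; linarith
    calc _ ≤ x ^ (w.re - 1) * (C * (u.re ^ k)⁻¹ * x ^ (-(k:ℝ))) := by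
          gcongr; exact (hC u hu1 hρ x hx0).1
      _ = C * (u.re ^ k)⁻¹ * (x ^ (w.re - 1) * x ^ (-(k:ℝ))) := by ring
      _ ≤ _ := by gcongr

lemma Data.LL_fe (D : Data d c K) (w : ℂ) : LL d c 1 (1 / 2 - w) = LL d c 1 w := by
  let P : WeakFEPair ℂ :=
    { f := fun x : ℝ => th d c (x * 1)
      g := fun x : ℝ => th d c (x * 1)
      k := 1 / 2
      ε := 1
      f₀ := 0
      g₀ := 0
      hf_int := D.ray_loc (by simp)
      hg_int := D.ray_loc (by simp)
      hk := by norm_num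
      hε := one_ne_zero
      h_feq := fun x hx => by
        have hx0 : 0 < x := hx
        rw [D.th_fe (by simpa using hx0), ofReal_cpow hx0.le]
        simp
      hf_top := fun r => by simpa using D.ray_top (u := 1) (by simp) (by simp) r
      hg_top := fun r => by simpa using D.ray_top (u := 1) (by simp) (by simp) r }
  have hP : IsStrongFEPair P := ⟨rfl, rfl⟩
  have := P.functional_equation w
  rw [hP.Λ_eq, hP.symm_Λ_eq] at this
  simpa [P, LL] using this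

lemma LL_conj (d : ℝ) (c : ℕ → ℝ) (w : ℂ) :
    (starRingEnd ℂ) (LL d c 1 ((starRingEnd ℂ) w)) = LL d c 1 w := by
  simp only [LL, mellin]
  rw [← integral_conj]
  refine setIntegral_congr_fun measurableSet_Ioi fun x hx => ?_
  have hx0 : 0 < x := hx
  have h1 : (starRingEnd ℂ) (th d c (x * 1)) = th d c (x * 1) := by
    simp only [th]
    rw [conj_tsum]
    congr 1; ext n
    simp [← Complex.exp_conj]
  have h2 : (starRingEnd ℂ) ((x:ℂ) ^ ((starRingEnd ℂ) w - 1)) = (x:ℂ) ^ (w - 1) := by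
    have := Complex.cpow_conj (x:ℂ) ((starRingEnd ℂ) w - 1) (arg_ne_pi (by simpa using hx0))
    simp only [map_sub, conj_conj, map_one, conj_ofReal] at this
    exact this.symm
  simp only [smul_eq_mul, map_mul, h1, h2]

/-- the entire function -/
noncomputable def FF (d : ℝ) (c : ℕ → ℝ) (w : ℂ) : ℂ := LL d c 1 w * (Gamma w)⁻¹

lemma Data.FF_diff (D : Data d c K) : Differentiable ℂ (FF d c) :=
  (D.LL_diff (by simp) (by simp)).mul differentiable_one_div_Gamma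

lemma Data.FF_bound (D : Data d c K) (R : ℕ) : ∃ (C : ℝ) (k : ℕ), 0 ≤ C ∧ ∀ w : ℂ, |w.re| ≤ R →
    ‖FF d c w‖ ≤ C * (1 + |w.im|) ^ k := by
  obtain ⟨C1, k1, h1, b1⟩ := D.LL_bound R
  obtain ⟨C2, k2, h2, b2⟩ := inv_gamma_bound R
  obtain ⟨C3, b3⟩ := (isCompact_closedBall (0:ℂ) (R + 1)).exists_bound_of_continuousOn
    D.FF_diff.continuous.continuousOn
  have h3 : 0 ≤ C3 := (norm_nonneg _).trans (b3 0 (Metric.mem_closedBall_self (by positivity)))
  refine ⟨C1 * C2 * Real.exp 2 + C3, k1 + k2, by positivity, fun w hw => ?_⟩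
  have h0 := abs_nonneg w.im
  have h4 : 1 ≤ (1 + |w.im|) ^ (k1 + k2) := one_le_pow₀ (by linarith)
  have h5 : 0 ≤ C1 * C2 * Real.exp 2 := by positivity
  rcases le_total |w.im| 1 with h | h
  · have := b3 w (by
      rw [mem_closedBall_zero_iff]
      have := norm_le_abs_re_add_abs_im w
      linarith)
    nlinarith
  · have e : Real.exp (Real.pi / 2 * |w.im| + 1) =
        Real.exp (Real.pi / 2 * |w.im| - 1) * Real.exp 2 := by
      rw [← Real.exp_add]; congr 1; ring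
    have a2 := b2 w hw h
    rw [e] at a2
    calc ‖FF d c w‖ ≤ ‖LL d c 1 w‖ * (C2 * (1 + |w.im|) ^ k2 *
          (Real.exp (Real.pi / 2 * |w.im| - 1) * Real.exp 2)) := by
          rw [FF, norm_mul]; gcongr
      _ = (‖LL d c 1 w‖ * Real.exp (Real.pi / 2 * |w.im| - 1)) *
          (C2 * (1 + |w.im|) ^ k2 * Real.exp 2) := by ring
      _ ≤ (C1 * (1 + |w.im|) ^ k1) * (C2 * (1 + |w.im|) ^ k2 * Real.exp 2) := by
          exact mul_le_mul_of_nonneg_right (b1 w hw) (by positivity)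
      _ = C1 * C2 * Real.exp 2 * (1 + |w.im|) ^ (k1 + k2) := by ring
      _ ≤ _ := by nlinarith

lemma Data.FF_sum (D : Data d c K) {w : ℂ} (hw : 3 * d ≤ 2 * w.re) :
    HasSum (fun n ↦ (c n : ℂ) * (lam d n : ℂ) ^ (-w)) (FF d c w) := by
  have g := Complex.Gamma_ne_zero_of_re_pos (s := w) (by linarith [D.hd])
  have := (D.LL_sum (u := 1) (by simp) hw).mul_right (Gamma w)⁻¹
  refine (congrArg (fun f => HasSum f _) (funext fun n => ?_)).mpr this
  simp only [one_cpow, one_mul]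
  field_simp

end Pool.Agent.H20Deg
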