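import Mathlib

namespace Pool.Agent.Lib.helper20.DomGame

variable {V : Type} [DecidableEq V]

def AllDom (H : SimpleGraph V) {k : ℕ} (c : V → Option (Fin k)) : Prop :=
  ∀ x i, ∃ y, (y = x ∨ H.Adj x y) ∧ c y = some i

inductive AliceWins (H : SimpleGraph V) (k : ℕ) : (V → Option (Fin k)) → Bool → Prop
  | done (c t) : (∀ v, c v ≠ none) → AllDom H c → AliceWins H k c t
  | alice (c v i) : c v = none → AliceWins H k (Function.update c v (some i)) false →
      AliceWins H k c true
  | bob (c) : (∃ v, c v = none) →
      (∀ v i, c v = none → AliceWins H k (Function.update c v (some i)) true) →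
      AliceWins H k c false

inductive BobWins (H : SimpleGraph V) (k : ℕ) : (V → Option (Fin k)) → Bool → Prop
  | done (c t) : (∀ v, c v ≠ none) → ¬ AllDom H c → BobWins H k c t
  | bob (c v i) : c v = none → BobWins H k (Function.update c v (some i)) true →
      BobWins H k c false
  | alice (c) : (∃ v, c v = none) →
      (∀ v i, c v = none → BobWins H k (Function.update c v (some i)) false) →
      BobWins H k c true

lemma excl (H : SimpleGraph V) (k : ℕ) (c : V → Option (Fin k)) (t : Bool)
    (h : AliceWins H k c t) : ¬ BobWins H k c t := by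
  induction h with
  | done c t h1 h2 =>
    intro h
    cases h with
    | done _ _ _ h3 => exact h3 h2
    | bob _ v _ h3 _ => exact h1 v h3
    | alice _ h3 _ => exact h3.elim h1
  | alice c v i h1 _ ih =>
    intro h
    cases h with
    | done _ _ h3 _ => exact h3 v h1
    | alice _ _ h3 => exact ih (h3 v i h1)
  | bob c h1 _ ih =>
    intro h
    cases h with
    | done _ _ h3 _ => exact h1.elim h3
    | bob _ v i h3 h4 => exact ih v i h3 h4

lemma mono (H : SimpleGraph V) (k l : ℕ) (f : Fin l → Fin k) (g : Fin k → Fin l)
    (hf : ∀ i, f (g i) = i) (c : V → Option (Fin l)) (t : Bool) (h : AliceWins H l c t) :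
    AliceWins H k (fun v => (c v).map f) t := by
  have upd : ∀ (c : V → Option (Fin l)) v i,
      (fun w => (Function.update c v (some i) w).map f) =
        Function.update (fun w => (c w).map f) v (some (f i)) := by
    intro c v i
    funext w
    by_cases e : w = v
    · subst e
      simp
    · simp [e]
  induction h with
  | done c t h1 h2 =>
    refine AliceWins.done _ _ (fun v => by simpa using h1 v) fun x i => ?_
    obtain ⟨y, a, b⟩ := h2 x (g i)
    exact ⟨y, a, by simp [b, hf]⟩
  | alice c v i h1 _ ih =>
    exact AliceWins.alice _ v (f i) (by simp [h1]) (upd c v i ▸ ih)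
  | bob c h1 _ ih =>
    refine AliceWins.bob _ (h1.imp fun v hv => by simp [hv]) fun v i hv => ?_
    have := ih v (g i) (by simpa using hv)
    rwa [upd, hf] at this

lemma main (H : SimpleGraph V) (k : ℕ) (hk : 1 ≤ k) (t : Bool)
    (h : AliceWins H (k + 1) (fun _ => none) t) :
    AliceWins H k (fun _ => none) t ∧ ¬ BobWins H k (fun _ => none) t := by
  have := mono H k (k + 1) (fun i => if h : i.val < k then ⟨i, h⟩ else ⟨0, hk⟩) Fin.castSucc
    (fun i => by simp) _ t h
  exact ⟨this, excl H k _ t this⟩

end Pool.Agent.Lib.helper20.DomGame
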