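import Mathlib

namespace Pool.Agent.Lib.helper20.FSigma

open Metric Set

noncomputable def gam (n : ℕ) (t : ℝ) : EuclideanSpace ℝ (Fin (n + 2)) :=
  EuclideanSpace.single 0 (2 * t / (1 + t ^ 2)) + EuclideanSpace.single 1 ((1 - t ^ 2) / (1 + t ^ 2))

lemma gam0 (n : ℕ) (t : ℝ) : gam n t 0 = 2 * t / (1 + t ^ 2) := by simp [gam]
lemma gam1 (n : ℕ) (t : ℝ) : gam n t 1 = (1 - t ^ 2) / (1 + t ^ 2) := by simp [gam]

lemma gam_norm (n : ℕ) (t : ℝ) : ‖gam n t‖ = 1 := by
  have h : ‖gam n t‖ ^ 2 = 1 := by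
    rw [EuclideanSpace.real_norm_sq_eq, Fin.sum_univ_succ, Fin.sum_univ_succ]
    have h2 : ∀ i : Fin n, gam n t i.succ.succ = 0 := by
      intro i
      have : i.succ.succ ≠ (1 : Fin (n + 2)) := by
        intro h
        exact Fin.succ_ne_zero i (Fin.succ_injective _ h)
      simp [gam, this]
    simp only [h2, gam0, Fin.succ_zero_eq_one, gam1]
    simp
    field_simp
    ring
  have := norm_nonneg (gam n t)
  nlinarith

lemma gam_inj (n : ℕ) : Function.Injective (gam n) := by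
  intro s t h
  have key : ∀ t : ℝ, t = gam n t 0 / (1 + gam n t 1) := by
    intro t
    rw [gam0, gam1]
    field_simp
    ring
  rw [key s, key t, h]

lemma gam_cont (n : ℕ) : Continuous (gam n) := by
  have hs : ∀ i : Fin (n + 2),
      Continuous fun r : ℝ => (EuclideanSpace.single i r : EuclideanSpace ℝ (Fin (n + 2))) := by
    intro i
    have : (fun r : ℝ => (EuclideanSpace.single i r : EuclideanSpace ℝ (Fin (n + 2)))) =
        fun r : ℝ => r • EuclideanSpace.single i (1 : ℝ) := by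
      funext r; ext j; simp
    rw [this]; fun_prop
  refine ((hs 0).comp ?_).add ((hs 1).comp ?_)
  · exact Continuous.div (by fun_prop) (by fun_prop) (fun t => by positivity)
  · exact Continuous.div (by fun_prop) (by fun_prop) (fun t => by positivity)

def CC (n : ℕ) : Set (EuclideanSpace ℝ (Fin (n + 2))) := ball 0 1 ∪ gam n '' {t | Irrational t}

lemma CC_nonempty (n : ℕ) : (CC n).Nonempty := ⟨0, Or.inl (mem_ball_self one_pos)⟩

lemma CC_sub (n : ℕ) : CC n ⊆ closedBall 0 1 := by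
  rintro x (hx | ⟨t, -, rfl⟩)
  · exact ball_subset_closedBall hx
  · simp [gam_norm]

lemma CC_convex (n : ℕ) : Convex ℝ (CC n) := by
  rw [convex_iff_forall_pos]
  intro x hx y hy a b ha hb hab
  by_cases h : x = y
  · subst h
    rw [← add_smul, hab, one_smul]; exact hx
  · exact Or.inl (combo_mem_ball_of_ne (CC_sub n hx) (CC_sub n hy) h ha hb hab)

lemma fst_ne (n : ℕ) (G : Set (EuclideanSpace ℝ (Fin (n + 2)) × EuclideanSpace ℝ (Fin (n + 2))))
    (hG : IsClosed G) : {x | ∃ u, (x, u) ∈ G} ≠ CC n := by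
  intro h
  let K : ℕ → Set (EuclideanSpace ℝ (Fin (n + 2))) := fun k =>
    Prod.fst '' ((fun p : _ × closedBall (0 : EuclideanSpace ℝ (Fin (n + 2))) k =>
      (p.1, (p.2 : EuclideanSpace ℝ (Fin (n + 2))))) ⁻¹' G)
  have hK : ∀ k, IsClosed (K k) := fun k =>
    isClosedMap_fst_of_compactSpace _ (hG.preimage (by fun_prop))
  have hirr : ∀ t, gam n t ∈ CC n ↔ Irrational t := by
    intro t
    constructor
    · rintro (hx | ⟨s, hs, hst⟩)
      · simp [gam_norm] at hx
      · rwa [← gam_inj n hst]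
    · intro ht; exact Or.inr ⟨t, ht, rfl⟩
  let T : ℕ ⊕ ℚ → Set ℝ := Sum.elim (fun k => gam n ⁻¹' K k) (fun q => {(q : ℝ)})
  have hT : ∀ i, IsClosed (T i) := by
    rintro (k | q)
    · exact (hK k).preimage (gam_cont n)
    · exact isClosed_singleton
  have hU : ⋃ i, T i = univ := by
    rw [eq_univ_iff_forall]
    intro t
    by_cases ht : Irrational t
    · have := (hirr t).mpr ht
      rw [← h] at this
      obtain ⟨u, hu⟩ := this
      obtain ⟨k, hk⟩ := exists_nat_ge ‖u‖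
      exact mem_iUnion.mpr ⟨Sum.inl k, ⟨(gam n t, ⟨u, by simpa using hk⟩), hu, rfl⟩⟩
    · obtain ⟨q, rfl⟩ := not_not.mp ht
      exact mem_iUnion.mpr ⟨Sum.inr q, rfl⟩
  obtain ⟨i, hi⟩ := nonempty_interior_of_iUnion_of_closed hT hU
  rcases i with k | q
  · obtain ⟨q, hq⟩ := Rat.denseRange_cast.exists_mem_open isOpen_interior hi
    obtain ⟨p, hp, hp1⟩ := interior_subset hq
    have : gam n q ∈ CC n := by
      rw [← h]
      exact ⟨p.2, by rw [← hp1]; exact hp⟩
    exact Rat.not_irrational q ((hirr q).mp this)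
  · simp [T] at hi

lemma snd_ne (n : ℕ) (G : Set (EuclideanSpace ℝ (Fin (n + 2)) × EuclideanSpace ℝ (Fin (n + 2))))
    (hG : IsClosed G) : {u | ∃ x, (x, u) ∈ G} ≠ CC n :=
  fst_ne n (Prod.swap ⁻¹' G) (hG.preimage continuous_swap)

variable {E : Type*} [NormedAddCommGroup E] [InnerProductSpace ℝ E]

lemma closed_of_maximal (G : Set (E × E))
    (h1 : ∀ p ∈ G, ∀ q ∈ G, 0 ≤ inner ℝ (p.2 - q.2) (p.1 - q.1))
    (h2 : ∀ H : Set (E × E), (∀ p ∈ H, ∀ q ∈ H, 0 ≤ inner ℝ (p.2 - q.2) (p.1 - q.1)) →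
      G ⊆ H → H ⊆ G) : IsClosed G := by
  rw [← closure_subset_iff_isClosed]
  refine h2 _ ?_ subset_closure
  have hc : IsClosed {z : (E × E) × (E × E) | 0 ≤ inner ℝ (z.1.2 - z.2.2) (z.1.1 - z.2.1)} :=
    isClosed_le continuous_const (by fun_prop)
  intro p hp q hq
  have : (p, q) ∈ closure (G ×ˢ G) := by rw [closure_prod_eq]; exact ⟨hp, hq⟩
  exact closure_minimal (fun z hz => h1 z.1 hz.1 z.2 hz.2) hc this

lemma closed_subdiff (f : E → EReal) (hf : LowerSemicontinuous f) (hb : ∀ x, f x ≠ ⊥) :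
    IsClosed {p : E × E | ∀ y, f p.1 + ((inner ℝ p.2 (y - p.1) : ℝ) : EReal) ≤ f y} := by
  rw [ofPred_forall]
  refine isClosed_iInter fun y => ?_
  by_cases hy : f y = ⊤
  · simp [hy]
  · obtain ⟨r, hr⟩ : ∃ r : ℝ, f y = r := ⟨(f y).toReal, (EReal.coe_toReal hy (hb y)).symm⟩
    have hepi := hf.isClosed_epigraph
    have hc : Continuous fun p : E × E => (p.1, ((r - inner ℝ p.2 (y - p.1) : ℝ) : EReal)) :=
      continuous_fst.prodMk (continuous_coe_real_ereal.comp (by fun_prop))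
    convert hepi.preimage hc using 1
    ext p
    simp only [mem_ofPred_eq, mem_preimage, hr]
    rw [EReal.coe_sub, EReal.le_sub_iff_add_le (Or.inl (EReal.coe_ne_bot _))
      (Or.inl (EReal.coe_ne_top _))]

end Pool.Agent.Lib.helper20.FSigma
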