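import Mathlib

namespace Pool.Agent.Lib.helper20.FermatK

/-- `K_c`: the positive `k` with `n ∣ (n choose (k - c n))` whenever `k/(c+1) ≤ n ≤ k/c`. -/
def K (c : ℕ) : Set ℕ :=
  {k | 0 < k ∧ ∀ n : ℕ, (k : ℚ) / (c + 1) ≤ n → (n : ℚ) ≤ k / c → n ∣ n.choose (k - c * n)}

/-- `S`: the numbers `2 q` with `q > 3` a Fermat prime. -/
def S : Set ℕ := {k | ∃ q m : ℕ, q.Prime ∧ 3 < q ∧ q = 2 ^ 2 ^ m + 1 ∧ k = 2 * q}

/-- Binary digit sum. -/
def s (n : ℕ) : ℕ := (Nat.digits 2 n).sum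

lemma s_step (n : ℕ) : s n = n % 2 + s (n / 2) := by
  rcases Nat.eq_zero_or_pos n with rfl | h
  · simp [s]
  · unfold s
    rw [Nat.digits_def' (by norm_num) h, List.sum_cons]

lemma s_two (a : ℕ) : s (2 * a) = s a := by
  rw [s_step, show 2 * a / 2 = a by omega]; omega

lemma s_two_add (a : ℕ) : s (2 * a + 1) = s a + 1 := by
  rw [s_step, show (2 * a + 1) / 2 = a by omega]; omega

lemma s_succ (a : ℕ) : s (a + 1) ≤ s a + 1 := by
  induction a using Nat.strong_induction_on with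
  | _ a ih =>
    rcases Nat.even_or_odd' a with ⟨b, rfl | rfl⟩
    · rw [s_two_add, s_two]
    · have := ih b (by omega)
      rw [show 2 * b + 1 + 1 = 2 * (b + 1) by ring, s_two, s_two_add]; omega

lemma s_pow_add (H : ℕ) : ∀ w, s (2 ^ H + w) ≤ s w + 1 := by
  induction H with
  | zero => intro w; rw [pow_zero, add_comm]; exact s_succ w
  | succ H ih =>
    intro w
    rcases Nat.even_or_odd' w with ⟨b, rfl | rfl⟩
    · rw [show 2 ^ (H + 1) + 2 * b = 2 * (2 ^ H + b) by ring, s_two, s_two]; exact ih b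
    · rw [show 2 ^ (H + 1) + (2 * b + 1) = 2 * (2 ^ H + b) + 1 by ring, s_two_add, s_two_add]
      have := ih b; omega

lemma s_ones (t w : ℕ) : ∀ u, u + 1 = 2 ^ t * (w + 1) → s u = s w + t := by
  induction t with
  | zero => intro u hu; rw [show u = w by omega]; rfl
  | succ t ih =>
    intro u hu
    have hpos : 0 < 2 ^ t * (w + 1) := by positivity
    have e : u = 2 * (2 ^ t * (w + 1) - 1) + 1 := by
      rw [pow_succ, mul_comm (2 ^ t) 2, mul_assoc] at hu; omega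
    rw [e, s_two_add, ih _ (by omega)]; ring

lemma odd_choose {n k : ℕ} (h : k ≤ n) (ho : ¬ 2 ∣ n.choose k) : s (n - k) ≤ s n := by
  have := sub_one_mul_padicValNat_choose_eq_sub_sum_digits (p := 2) h
  rw [padicValNat.eq_zero_of_not_dvd ho] at this
  unfold s; omega

lemma dvd_of_coprime {n j : ℕ} (hc : Nat.Coprime n j) : n ∣ n.choose j := by
  rcases j with _ | j
  · simp at hc; simp [hc]
  rcases n with _ | n
  · simp
  have := Nat.add_one_mul_choose_eq n j
  exact hc.dvd_of_dvd_mul_right ⟨_, this.symm⟩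

lemma main {t M n j : ℕ} (ht : 3 ≤ t) (hM : 2 ≤ M) (hq : (2 ^ M + 1).Prime) (hj : j ≤ n)
    (h : 2 * (2 ^ M + 1) + n = 2 ^ t * n + j) : n ∣ n.choose j := by
  have h8 : 8 ≤ 2 ^ t := le_trans (by norm_num) (Nat.pow_le_pow_right (by norm_num) ht)
  have h4 : 4 ≤ 2 ^ M := le_trans (by norm_num) (Nat.pow_le_pow_right (by norm_num) hM)
  have hn0 : 0 < n := by
    rcases Nat.eq_zero_or_pos n with rfl | h0
    · omega
    · exact h0
  have hnq : n < 2 ^ M + 1 := by nlinarith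
  have hcq : Nat.Coprime n (2 ^ M + 1) := (Nat.coprime_of_lt_prime hn0.ne' hnq hq).symm
  have key : ∀ d a b c : ℕ, d ∣ a → d ∣ b → c + a = 2 ^ t * a + b → d ∣ c := by
    intro d a b c ha hb e
    have : d ∣ c + a := e ▸ dvd_add (ha.mul_left _) hb
    exact (Nat.dvd_add_left ha).1 this
  rcases Nat.even_or_odd' n with ⟨a, rfl | rfl⟩
  swap
  · apply dvd_of_coprime
    have h1 := key _ _ _ _ (Nat.gcd_dvd_left (2 * a + 1) j) (Nat.gcd_dvd_right _ j) h
    have h2 : Nat.Coprime (2 * a + 1) (2 * (2 ^ M + 1)) := Nat.Coprime.mul_right (by simp) hcq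
    exact Nat.eq_one_of_dvd_coprimes h2 (Nat.gcd_dvd_left _ _) h1
  obtain ⟨T, hT⟩ : ∃ T, 2 ^ t = 2 * T := ⟨2 ^ (t - 1), by rw [← pow_succ']; congr 1; omega⟩
  obtain ⟨b, rfl⟩ : ∃ b, j = 2 * b := by
    refine ⟨2 ^ M + 1 + a - 2 ^ t * a, ?_⟩
    have : 2 ^ t * (2 * a) = 2 * (2 ^ t * a) := by ring
    omega
  have h' : 2 ^ M + 1 + a = 2 ^ t * a + b := by
    have : 2 ^ t * (2 * a) = 2 * (2 ^ t * a) := by ring
    omega
  have hab : Nat.Coprime a b := by
    have h1 := key _ _ _ _ (Nat.gcd_dvd_left a b) (Nat.gcd_dvd_right _ b) h'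
    exact Nat.eq_one_of_dvd_coprimes (Nat.Coprime.coprime_mul_left hcq) (Nat.gcd_dvd_left _ _) h1
  have d4 : ∀ x, 2 ≤ x → 4 ∣ 2 ^ x := fun x hx => pow_dvd_pow 2 hx
  have d4t := d4 t (by omega)
  have d4M := d4 M hM
  have htM : t ≤ M := by
    by_contra hlt
    have h1 : 2 ^ (M + 1) ≤ 2 ^ t := Nat.pow_le_pow_right (by norm_num) (by omega)
    rw [pow_succ] at h1
    have : 2 ^ M * 2 * a ≤ 2 ^ t * a := Nat.mul_le_mul_right _ h1
    have ha1 : a = 1 := by nlinarith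
    subst ha1
    omega
  obtain ⟨b, rfl⟩ : ∃ b', b = b' + 1 := by
    rcases b with _ | b
    · simp at hab
      subst hab
      omega
    · exact ⟨b, rfl⟩
  obtain ⟨a, rfl⟩ : ∃ a', a = a' + 1 := ⟨a - 1, by omega⟩
  have id1 : (a + 1) * (2 * a + 1).choose (2 * b + 1) =
      (2 * (a + 1)).choose (2 * (b + 1)) * (b + 1) := by
    have := Nat.add_one_mul_choose_eq (2 * a + 1) (2 * b + 1)
    rw [show 2 * a + 1 + 1 = 2 * (a + 1) by ring, show 2 * b + 1 + 1 = 2 * (b + 1) by ring] at this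
    apply Nat.eq_of_mul_eq_mul_left (by norm_num : 0 < 2)
    linarith
  rcases Nat.even_or_odd (a + 1) with he | ho
  · obtain ⟨w, m, hm, hw⟩ := Nat.exists_eq_two_pow_mul_odd (n := a + 1) (by omega)
    have hwM : w + 1 ≤ M := by
      by_contra hlt
      have h1 : 2 ^ M ≤ 2 ^ w := Nat.pow_le_pow_right (by norm_num) (by omega)
      have h2 : 2 ^ w * 1 ≤ 2 ^ w * m := Nat.mul_le_mul_left _ hm.pos
      omega
    have h1 : 2 ^ (w + 1) ∣ a + 1 - b := by
      have e : a + 1 - b + 2 ^ M = 2 ^ t * (a + 1) := by omega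
      have d1 : 2 ^ (w + 1) ∣ 2 ^ t * (a + 1) := by
        rw [hw, hT, pow_succ]; exact ⟨T * m, by ring⟩
      rw [← e] at d1
      exact (Nat.dvd_add_left (pow_dvd_pow 2 hwM)).1 d1
    have h2 : 2 ∣ a.choose b := by
      have e := Nat.choose_mul_succ_eq a b
      have d1 : 2 ^ (w + 1) ∣ a.choose b * (a + 1) := e ▸ h1.mul_left _
      rw [hw, pow_succ, mul_comm (a.choose b), mul_assoc] at d1
      have d2 := Nat.dvd_of_mul_dvd_mul_left (by positivity) d1
      exact (Nat.Coprime.dvd_of_dvd_mul_left (by simpa using hm) d2)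
    have h3 : 2 ∣ (2 * a + 1).choose (2 * b + 1) := by
      have := Choose.choose_modEq_choose_mod_mul_choose_div_nat (n := 2 * a + 1) (k := 2 * b + 1)
        (p := 2)
      rw [show (2 * a + 1) / 2 = a by omega, show (2 * b + 1) / 2 = b by omega] at this
      exact (this.dvd_iff dvd_rfl).2 (h2.mul_left _)
    obtain ⟨z, hz⟩ := h3
    have hbo : Odd (b + 1) := by
      rw [hT, mul_assoc] at h'
      obtain ⟨y, hy⟩ := he
      rw [Nat.odd_iff]; omega
    have hc : Nat.Coprime (2 * (a + 1)) (b + 1) := Nat.Coprime.mul_left (by simpa using hbo) hab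
    apply hc.dvd_of_dvd_mul_right
    rw [← id1, hz]
    exact ⟨z, by ring⟩
  · have h1 : a + 1 ∣ (2 * (a + 1)).choose (2 * (b + 1)) :=
      hab.dvd_of_dvd_mul_right ⟨_, id1.symm⟩
    refine Nat.Coprime.mul_dvd_of_dvd_of_dvd (by simpa using ho) ?_ h1
    by_contra hodd
    have h2 := odd_choose hj hodd
    rw [show 2 * (a + 1) - 2 * (b + 1) = 2 * (a - b) by omega, s_two, s_two] at h2
    obtain ⟨H, rfl⟩ := Nat.exists_eq_add_of_le htM
    have h3 : 2 ^ H < a + 1 := by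
      by_contra hle
      have : 2 ^ t * (a + 1) ≤ 2 ^ t * 2 ^ H := Nat.mul_le_mul_left _ (by omega)
      rw [← pow_add] at this
      omega
    obtain ⟨w, hw⟩ := Nat.exists_eq_add_of_lt h3
    have h4 : a - b + 1 = 2 ^ t * (w + 1) := by
      have : 2 ^ t * (a + 1) = 2 ^ (t + H) + 2 ^ t * (w + 1) := by rw [hw, pow_add]; ring
      omega
    have h5 := s_ones t w _ h4
    have h6 := s_pow_add H (w + 1)
    have h7 := s_succ w
    rw [hw, add_assoc] at h2
    omega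

lemma sub_K {t : ℕ} (ht : 3 ≤ t) : S ⊆ K (2 ^ t - 1) := by
  rintro k ⟨q, m, hq, h3, rfl, rfl⟩
  have h8 : 8 ≤ 2 ^ t := le_trans (by norm_num) (Nat.pow_le_pow_right (by norm_num) ht)
  have hM : 2 ≤ 2 ^ m := by
    rcases m with _ | m
    · norm_num at h3
    · rw [pow_succ]; have := Nat.one_le_two_pow (n := m); omega
  obtain ⟨c, hc⟩ : ∃ c, 2 ^ t = c + 1 := ⟨2 ^ t - 1, by omega⟩
  refine ⟨by positivity, fun n h1 h2 => ?_⟩
  rw [hc, Nat.add_sub_cancel] at h1 h2 ⊢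
  have hc0 : (0 : ℚ) < c := by exact_mod_cast (by omega : 0 < c)
  rw [div_le_iff₀ (by positivity)] at h1
  rw [le_div_iff₀ hc0] at h2
  have h1' : 2 * (2 ^ 2 ^ m + 1) ≤ n * (c + 1) := by exact_mod_cast h1
  have h2' : n * c ≤ 2 * (2 ^ 2 ^ m + 1) := by exact_mod_cast h2
  have e1 : n * (c + 1) = c * n + n := by ring
  have e2 : n * c = c * n := by ring
  refine main ht hM hq (by omega) ?_
  rw [hc, add_mul]
  omega

end Pool.Agent.Lib.helper20.FermatK
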