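import Mathlib

/-! Domination, irredundance and edge-criticality (MP_7f565b_co). -/

namespace Pool.Agent.Lib.helper20.Irr

open SimpleGraph

/-- `w` lies in the closed neighbourhood `N[s]`. -/
def Near {V : Type} (G : SimpleGraph V) (s w : V) : Prop := w = s ∨ G.Adj s w

/-- Every `s ∈ S` has a private neighbour: a vertex of `N[s]` outside `N[S - s]`. -/
def Irred {V : Type} (G : SimpleGraph V) (S : Finset V) : Prop :=
  ∀ s ∈ S, ∃ w, Near G s w ∧ ∀ t ∈ S, t ≠ s → ¬ Near G t w

/-- `S` is dominating. -/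
def Dom {V : Type} (G : SimpleGraph V) (S : Finset V) : Prop := ∀ w, ∃ s ∈ S, Near G s w

/-- The lower irredundance number: least size of a maximal irredundant set. -/
noncomputable def ir {V : Type} (G : SimpleGraph V) : ℕ :=
  sInf {k | ∃ S : Finset V, Maximal (Irred G) S ∧ S.card = k}

/-- The domination number. -/
noncomputable def gamma {V : Type} (G : SimpleGraph V) : ℕ :=
  sInf {k | ∃ S : Finset V, Dom G S ∧ S.card = k}

/-- Adding any missing edge strictly lowers the parameter `π`. -/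
def EdgeCritical {V : Type} (π : SimpleGraph V → ℕ) (G : SimpleGraph V) : Prop :=
  ∀ u v, u ≠ v → ¬ G.Adj u v → π (G ⊔ edge u v) < π G

variable {n : ℕ}

def irrB (N : Fin n → Fin n → Bool) (l : List (Fin n)) : Bool :=
  l.all fun s => (List.finRange n).any fun w => N s w && l.all fun t => t == s || !N t w

def domB (N : Fin n → Fin n → Bool) (l : List (Fin n)) : Bool :=
  (List.finRange n).all fun w => l.any fun s => N s w

def extB (N : Fin n → Fin n → Bool) (l : List (Fin n)) : Bool :=
  (List.finRange n).any fun v => !l.contains v && irrB N (v :: l)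

def plus (N : Fin n → Fin n → Bool) (u v : Fin n) : Fin n → Fin n → Bool :=
  fun x y => N x y || (x == u && y == v) || (x == v && y == u)

def Rep (G : SimpleGraph (Fin n)) (N : Fin n → Fin n → Bool) : Prop :=
  ∀ s w, Near G s w ↔ N s w = true

theorem Rep.plus {G : SimpleGraph (Fin n)} {N : Fin n → Fin n → Bool} (h : Rep G N) {u v : Fin n}
    (huv : u ≠ v) : Rep (G ⊔ edge u v) (plus N u v) := by
  intro s w
  have := h s w
  simp only [Near, sup_adj, edge_adj, Irr.plus, Bool.or_eq_true, Bool.and_eq_true,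
    beq_iff_eq, ← this]
  constructor
  · tauto
  · rintro ((h | ⟨rfl, rfl⟩) | ⟨rfl, rfl⟩)
    · tauto
    · tauto
    · have := huv.symm; tauto

theorem irr_iff {G : SimpleGraph (Fin n)} {N : Fin n → Fin n → Bool} (h : Rep G N)
    (l : List (Fin n)) : Irred G l.toFinset ↔ irrB N l = true := by
  simp only [Irred, irrB, h _ _, List.mem_toFinset, List.all_eq_true, List.any_eq_true,
    List.mem_finRange, true_and, Bool.and_eq_true, Bool.or_eq_true, beq_iff_eq, Bool.not_eq_true',
    Bool.not_eq_true, ne_eq]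
  refine forall₂_congr fun s _ => exists_congr fun w => and_congr_right fun _ =>
    forall₂_congr fun t _ => ?_
  tauto

theorem dom_iff {G : SimpleGraph (Fin n)} {N : Fin n → Fin n → Bool} (h : Rep G N)
    (l : List (Fin n)) : Dom G l.toFinset ↔ domB N l = true := by
  simp [Dom, domB, h _ _]

theorem irred_mono {V : Type} {G : SimpleGraph V} {S T : Finset V} (h : T ⊆ S) (hS : Irred G S) :
    Irred G T := fun s hs => (hS s (h hs)).imp fun _ hw => ⟨hw.1, fun t ht => hw.2 t (h ht)⟩

theorem max_iff {G : SimpleGraph (Fin n)} {N : Fin n → Fin n → Bool} (h : Rep G N)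
    (l : List (Fin n)) :
    Maximal (Irred G) l.toFinset ↔ irrB N l = true ∧ extB N l = false := by
  have e : extB N l = false ↔ ∀ v, v ∉ l → ¬ Irred G (insert v l.toFinset) := by
    simp only [← List.toFinset_cons, irr_iff h]
    simp [extB]
  rw [e, ← irr_iff h]
  constructor
  · rintro ⟨h1, h2⟩
    refine ⟨h1, fun v hv hi => hv ?_⟩
    simpa using h2 hi (Finset.subset_insert _ _) (Finset.mem_insert_self _ _)
  · rintro ⟨h1, h2⟩
    refine ⟨h1, fun T hT hle v hv => ?_⟩
    by_contra hn
    exact h2 v (by simpa using hn) (irred_mono (Finset.insert_subset hv hle) hT)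

theorem ir_le {G : SimpleGraph (Fin n)} {N : Fin n → Fin n → Bool} (h : Rep G N)
    (l : List (Fin n)) (h1 : irrB N l = true) (h2 : extB N l = false) : ir G ≤ l.length :=
  le_trans (Nat.sInf_le (m := l.toFinset.card) (by exact ⟨_, (max_iff h l).2 ⟨h1, h2⟩, rfl⟩))
    (List.toFinset_card_le l)

theorem gamma_le {G : SimpleGraph (Fin n)} {N : Fin n → Fin n → Bool} (h : Rep G N)
    (l : List (Fin n)) (h1 : domB N l = true) : gamma G ≤ l.length :=
  le_trans (Nat.sInf_le (m := l.toFinset.card) (by exact ⟨_, (dom_iff h l).2 h1, rfl⟩))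
    (List.toFinset_card_le l)

theorem small (S : Finset (Fin n)) (h : S.card ≤ 3) :
    S = [].toFinset ∨ (∃ a b, S = [a, b].toFinset) ∨ (S.card = 3 ∧ ∃ a b c, S = [a, b, c].toFinset) := by
  obtain h | h | h | h : S.card = 0 ∨ S.card = 1 ∨ S.card = 2 ∨ S.card = 3 := by omega
  · left; simpa using h
  · obtain ⟨a, rfl⟩ := Finset.card_eq_one.1 h
    exact Or.inr (Or.inl ⟨a, a, by simp⟩)
  · obtain ⟨a, b, -, rfl⟩ := Finset.card_eq_two.1 h
    exact Or.inr (Or.inl ⟨a, b, by simp⟩)
  · obtain ⟨a, b, c, -, -, -, e⟩ := Finset.card_eq_three.1 h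
    exact Or.inr (Or.inr ⟨h, a, b, c, by simp [e]⟩)

theorem le_ir {G : SimpleGraph (Fin n)} {N : Fin n → Fin n → Bool} (h : Rep G N) (k : ℕ)
    (hk : k ≤ 4) (h0 : extB N [] = true) (h2 : ∀ a b, irrB N [a, b] = true → extB N [a, b] = true)
    (h3 : k = 4 → ∀ a b c, irrB N [a, b, c] = true → extB N [a, b, c] = true) : k ≤ ir G := by
  refine le_csInf ?_ ?_
  · obtain ⟨S, -, hS⟩ := Finite.exists_le_maximal (p := Irred G) (a := ∅) (by simp [Irred])
    exact ⟨_, S, hS, rfl⟩
  · rintro _ ⟨S, hS, rfl⟩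
    by_contra hlt
    rcases small S (by omega) with rfl | ⟨a, b, rfl⟩ | ⟨h', a, b, c, rfl⟩
    · have := ((max_iff h _).1 hS).2
      rw [h0] at this; cases this
    · have := (max_iff h _).1 hS
      rw [h2 a b this.1] at this; cases this.2
    · have := (max_iff h _).1 hS
      rw [h3 (by omega) a b c this.1] at this; cases this.2

theorem four_le_gamma {G : SimpleGraph (Fin n)} {N : Fin n → Fin n → Bool} (h : Rep G N)
    (h0 : domB N [] = false) (h2 : ∀ a b, domB N [a, b] = false)
    (h3 : ∀ a b c, domB N [a, b, c] = false) : 4 ≤ gamma G := by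
  refine le_csInf ⟨_, Finset.univ, fun w => ⟨w, Finset.mem_univ _, Or.inl rfl⟩, rfl⟩ ?_
  rintro _ ⟨S, hS, rfl⟩
  by_contra hlt
  rcases small S (by omega) with rfl | ⟨a, b, rfl⟩ | ⟨-, a, b, c, rfl⟩
  · rw [dom_iff h, h0] at hS; cases hS
  · rw [dom_iff h, h2] at hS; cases hS
  · rw [dom_iff h, h3] at hS; cases hS

end Pool.Agent.Lib.helper20.Irr
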