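import Mathlib

namespace Pool.Agent.Lib.helper20.Known8fcc33

def Indep {G : Type} [AddCommGroup G] (t : ℕ) (A : Finset G) : Prop :=
  ∀ l : G → ℤ, 1 ≤ ∑ a ∈ A, |l a| → ∑ a ∈ A, |l a| ≤ t → ∑ a ∈ A, l a • a ≠ 0

noncomputable def tau (n t : ℕ) : ℕ := sSup {m | ∃ A : Finset (ZMod n), Indep t A ∧ A.card = m}

lemma bdd (n t : ℕ) [NeZero n] : BddAbove {m | ∃ A : Finset (ZMod n), Indep t A ∧ A.card = m} := by
  refine ⟨Fintype.card (ZMod n), ?_⟩
  rintro m ⟨A, _, rfl⟩
  exact Finset.card_le_univ A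

lemma pair (n : ℕ) [NeZero n] (hne : (1 : ZMod n) ≠ 5)
    (h : ∀ x y : ℤ, 1 ≤ |x| + |y| → |x| + |y| ≤ 5 → ¬ (n : ℤ) ∣ x + 5 * y) : 2 ≤ tau n 5 := by
  apply le_csSup (bdd n 5)
  refine ⟨{1, 5}, ?_, Finset.card_pair hne⟩
  intro l h1 h2 h3
  rw [Finset.sum_pair hne] at h1 h2 h3
  apply h (l 1) (l 5) h1 (by exact_mod_cast h2)
  rw [← ZMod.intCast_zmod_eq_zero_iff_dvd]
  push_cast
  rw [← h3, zsmul_eq_mul, zsmul_eq_mul]
  ring

lemma t18 : 2 ≤ tau 18 5 := by
  apply pair 18 (by decide)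
  intro x y h1 h2 h
  have y1 : -5 ≤ y := by rcases abs_cases x with hx | hx <;> rcases abs_cases y with hy | hy <;> omega
  have y2 : y ≤ 5 := by rcases abs_cases x with hx | hx <;> rcases abs_cases y with hy | hy <;> omega
  rcases abs_cases x with hx | hx <;> rcases abs_cases y with hy | hy <;>
    interval_cases y <;> omega

lemma t22 : 2 ≤ tau 22 5 := by
  apply pair 22 (by decide)
  intro x y h1 h2 h
  have y1 : -5 ≤ y := by rcases abs_cases x with hx | hx <;> rcases abs_cases y with hy | hy <;> omega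
  have y2 : y ≤ 5 := by rcases abs_cases x with hx | hx <;> rcases abs_cases y with hy | hy <;> omega
  rcases abs_cases x with hx | hx <;> rcases abs_cases y with hy | hy <;>
    interval_cases y <;> omega

lemma dep20 : ∀ a b : ZMod 20, ∃ x ∈ Finset.Icc (-5 : ℤ) 5, ∃ y ∈ Finset.Icc (-5 : ℤ) 5,
    1 ≤ |x| + |y| ∧ |x| + |y| ≤ 5 ∧ (x : ZMod 20) * a + (y : ZMod 20) * b = 0 := by
  decide +kernel

lemma t20 : tau 20 5 ≤ 1 := by
  apply csSup_le'
  rintro m ⟨A, hA, rfl⟩
  by_contra hlt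
  obtain ⟨a, ha, b, hb, hab⟩ := Finset.one_lt_card.mp (not_le.mp hlt)
  obtain ⟨x, _, y, _, h1, h2, h3⟩ := dep20 a b
  have hs : ({a, b} : Finset (ZMod 20)) ⊆ A := by
    intro z hz
    rcases Finset.mem_insert.mp hz with rfl | hz
    · exact ha
    · rw [Finset.mem_singleton.mp hz]
      exact hb
  have hz : ∀ z, z ∉ ({a, b} : Finset (ZMod 20)) →
      (if z = a then x else if z = b then y else (0 : ℤ)) = 0 := by
    intro z hz
    rw [Finset.mem_insert, Finset.mem_singleton, not_or] at hz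
    rw [if_neg hz.1, if_neg hz.2]
  have e1 : ∑ z ∈ A, |if z = a then x else if z = b then y else (0 : ℤ)| = |x| + |y| := by
    rw [← Finset.sum_subset hs (fun z _ h => by rw [hz z h, abs_zero]), Finset.sum_pair hab]
    simp [hab.symm]
  have e2 : ∑ z ∈ A, (if z = a then x else if z = b then y else (0 : ℤ)) • z =
      (x : ZMod 20) * a + (y : ZMod 20) * b := by
    rw [← Finset.sum_subset hs (fun z _ h => by rw [hz z h, zero_smul]), Finset.sum_pair hab]
    simp [hab.symm]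
  refine hA (fun z => if z = a then x else if z = b then y else 0) ?_ ?_ ?_
  · rw [e1]
    exact h1
  · rw [e1]
    exact_mod_cast h2
  · rw [e2, h3]

theorem result :
    (¬ Monotone (fun k : ℕ => tau (2 * (k + 1)) 5) ∧
      ¬ Antitone (fun k : ℕ => tau (2 * (k + 1)) 5)) ∧
    ¬ ∀ t : ℕ, Odd t →
      Monotone (fun k : ℕ => tau (2 * (k + 1)) t) ∨
        Antitone (fun k : ℕ => tau (2 * (k + 1)) t) := by
  have h : ¬ Monotone (fun k : ℕ => tau (2 * (k + 1)) 5) ∧
      ¬ Antitone (fun k : ℕ => tau (2 * (k + 1)) 5) := by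
    have a := t18
    have b := t20
    have c := t22
    constructor
    · intro h
      have : tau 18 5 ≤ tau 20 5 := h (show (8 : ℕ) ≤ 9 by norm_num)
      omega
    · intro h
      have : tau 22 5 ≤ tau 20 5 := h (show (9 : ℕ) ≤ 10 by norm_num)
      omega
  exact ⟨h, fun H => (H 5 (by decide)).elim h.1 h.2⟩

end Pool.Agent.Lib.helper20.Known8fcc33
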