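import Pool.Agent.Lib.helper20.AssocHomog
import Pool.Agent.Lib.helper20.AlgRegular

namespace Pool.Agent.Lib.helper20.AlgHomog

open LieModule

universe u

/-- The free nilpotent Lie algebra of class at most `n` and rank `r` over `K`: the free Lie
algebra on `r` generators modulo the `(n+1)`-st term of its lower central series
(Mathlib numbers the lower central series from `0`). -/
abbrev FreeNilLie (K : Type u) [Field K] (r n : ℕ) : Type u :=
  FreeLieAlgebra K (Fin r) ⧸
    lowerCentralSeries K (FreeLieAlgebra K (Fin r)) (FreeLieAlgebra K (Fin r)) n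

def H3 (K : Type u) : Type u := T3 K

variable {K : Type u} [Field K]

instance : AddCommGroup (H3 K) := inferInstanceAs (AddCommGroup (T3 K))
instance : Module K (H3 K) := inferInstanceAs (Module K (T3 K))

def H3.mk (a b c : K) : H3 K := T3.mk a b c
def H3.p1 : H3 K →ₗ[K] K := T3.p1
def H3.p2 : H3 K →ₗ[K] K := T3.p2
def H3.p3 : H3 K →ₗ[K] K := T3.p3

lemma H3.ext' {x z : H3 K} (h1 : H3.p1 x = H3.p1 z) (h2 : H3.p2 x = H3.p2 z)
    (h3 : H3.p3 x = H3.p3 z) : x = z := T3.ext' h1 h2 h3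

@[simp] lemma H3.p1_mk (a b c : K) : H3.p1 (H3.mk a b c) = a := rfl
@[simp] lemma H3.p2_mk (a b c : K) : H3.p2 (H3.mk a b c) = b := rfl
@[simp] lemma H3.p3_mk (a b c : K) : H3.p3 (H3.mk a b c) = c := rfl

instance : Bracket (H3 K) (H3 K) :=
  ⟨fun x z => H3.mk 0 0 (H3.p1 x * H3.p2 z - H3.p1 z * H3.p2 x)⟩

@[simp] lemma H3.p1_lie (x z : H3 K) : H3.p1 ⁅x, z⁆ = 0 := rfl
@[simp] lemma H3.p2_lie (x z : H3 K) : H3.p2 ⁅x, z⁆ = 0 := rfl
@[simp] lemma H3.p3_lie (x z : H3 K) :
    H3.p3 ⁅x, z⁆ = H3.p1 x * H3.p2 z - H3.p1 z * H3.p2 x := rfl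

instance : LieRing (H3 K) where
  add_lie a b c := H3.ext' (by simp) (by simp) (by simp; ring)
  lie_add a b c := H3.ext' (by simp) (by simp) (by simp; ring)
  lie_self a := H3.ext' (by simp) (by simp) (by simp)
  leibniz_lie a b c := H3.ext' (by simp) (by simp) (by simp)

instance : LieAlgebra K (H3 K) where
  lie_smul t a b := H3.ext' (by simp) (by simp) (by simp; ring)

lemma H3_lcs (k : ℕ) : lowerCentralSeries K (H3 K) (H3 K) (k + 2) = ⊥ := by
  have h1 : ∀ x ∈ lowerCentralSeries K (H3 K) (H3 K) (k + 1), H3.p1 x = 0 ∧ H3.p2 x = 0 := by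
    intro x hx
    rw [lowerCentralSeries_succ, ← LieSubmodule.mem_toSubmodule,
      LieSubmodule.lieIdeal_oper_eq_linear_span'] at hx
    have : Submodule.span K {m | ∃ x ∈ (⊤ : LieIdeal K (H3 K)),
        ∃ n ∈ lowerCentralSeries K (H3 K) (H3 K) k, ⁅x, n⁆ = m} ≤
        LinearMap.ker H3.p1 ⊓ LinearMap.ker H3.p2 := by
      rw [Submodule.span_le]
      rintro _ ⟨a, -, b, -, rfl⟩
      exact ⟨by simp, by simp⟩
    exact this hx
  rw [lowerCentralSeries_succ, LieSubmodule.lie_eq_bot_iff]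
  intro a _ b hb
  exact H3.ext' (by simp) (by simp) (by simp [(h1 b hb).1, (h1 b hb).2])

variable (K) in
def brk (L : Type u) [LieRing L] [LieAlgebra K L] : L →ₗ[K] L →ₗ[K] L :=
  LinearMap.mk₂ K (fun a b => ⁅a, b⁆) add_lie smul_lie lie_add lie_smul

@[simp] lemma brk_apply {L : Type u} [LieRing L] [LieAlgebra K L] (a b : L) :
    brk K L a b = ⁅a, b⁆ := rfl

lemma lie_hA {L : Type u} [LieRing L] [LieAlgebra K L] (k : ℕ) (c d b : L)
    (hb : b ∈ F (brk K L) k) : brk K L (brk K L c d) b ∈ F (brk K L) (k + 2) := by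
  have h1 := F_mul (brk K L) c (F_mul (brk K L) d hb)
  have h2 := F_mul (brk K L) d (F_mul (brk K L) c hb)
  simp only [brk_apply] at *
  rw [lie_lie]
  exact Submodule.sub_mem _ h1 h2

variable {r n : ℕ}

variable (K r n) in
noncomputable def qmk : FreeLieAlgebra K (Fin r) →ₗ⁅K⁆ FreeNilLie K r n :=
  { Submodule.mkQ (lowerCentralSeries K (FreeLieAlgebra K (Fin r))
      (FreeLieAlgebra K (Fin r)) n).toSubmodule with
    map_lie' := fun {x y} => LieSubmodule.Quotient.mk_bracket _ x y }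

lemma qmk_surj : Function.Surjective (qmk K r n) := Submodule.mkQ_surjective _

variable (K r n) in
noncomputable def gen (i : Fin r) : FreeNilLie K r n := qmk K r n (FreeLieAlgebra.of K i)

lemma nil_ext {B : Type u} [LieRing B] [LieAlgebra K B]
    (hB : lowerCentralSeries K B B n = ⊥) (b : Fin r → B) :
    ∃ f : FreeNilLie K r n →ₗ[K] B, (∀ x z, f ⁅x, z⁆ = ⁅f x, f z⁆) ∧ ∀ i, f (gen K r n i) = b i := by
  let g := FreeLieAlgebra.lift K b
  have hg : (lowerCentralSeries K (FreeLieAlgebra K (Fin r))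
      (FreeLieAlgebra K (Fin r)) n).toSubmodule ≤ LinearMap.ker (g : _ →ₗ[K] B) := by
    intro x hx
    have h1 := LieIdeal.map_lowerCentralSeries_le (R := K) n (f := g)
    rw [hB, le_bot_iff, LieIdeal.map_eq_bot_iff] at h1
    exact h1 hx
  refine ⟨Submodule.liftQ _ (g : _ →ₗ[K] B) hg, fun x z => ?_, fun i => ?_⟩
  · obtain ⟨x, rfl⟩ := qmk_surj x
    obtain ⟨z, rfl⟩ := qmk_surj z
    rw [← LieHom.map_lie]
    exact g.map_lie x z
  · exact FreeLieAlgebra.lift_of_apply b i

lemma nil_lcs : lowerCentralSeries K (FreeNilLie K r n) (FreeNilLie K r n) n = ⊥ := by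
  rw [← LieIdeal.lowerCentralSeries_map_eq n (qmk_surj (K := K) (r := r) (n := n)), LieIdeal.map_eq_bot_iff]
  intro x hx
  exact (Submodule.Quotient.mk_eq_zero _).2 hx

lemma F_le_lcs {L : Type u} [LieRing L] [LieAlgebra K L] (k : ℕ) :
    F (brk K L) k ≤ (lowerCentralSeries K L L k).toSubmodule := by
  induction k with
  | zero => exact le_top
  | succ k ih =>
    change Submodule.map₂ _ ⊤ (F _ k) ≤ _
    rw [Submodule.map₂_le]
    intro a _ b hb
    rw [lowerCentralSeries_succ]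
    exact LieSubmodule.lie_mem_lie (LieSubmodule.mem_top a) (ih hb)

lemma nil_F : F (brk K (FreeNilLie K r n)) n = ⊥ := by
  rw [eq_bot_iff]
  refine (F_le_lcs n).trans ?_
  rw [nil_lcs]
  exact le_rfl

lemma nil_gen (M : Submodule K (FreeNilLie K r n)) (hy : ∀ i, gen K r n i ∈ M)
    (hM : ∀ a ∈ M, ∀ b ∈ M, brk K _ a b ∈ M) : M = ⊤ := by
  let S : LieSubalgebra K (FreeNilLie K r n) := { M with lie_mem' := fun ha hb => hM _ ha _ hb }
  let g : FreeLieAlgebra K (Fin r) →ₗ⁅K⁆ S := FreeLieAlgebra.lift K fun i => ⟨gen K r n i, hy i⟩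
  have e : S.incl.comp g = qmk K r n := by
    apply FreeLieAlgebra.hom_ext
    intro i
    simp [g, gen]
  rw [eq_top_iff]
  intro x _
  obtain ⟨x, rfl⟩ := qmk_surj x
  rw [← e]
  exact (g x).2

theorem nil_homog (hn : 1 ≤ n) : Homogeneous K (FreeNilLie K r n) (fun a b => ⁅a, b⁆) := by
  by_cases h2 : 2 ≤ n
  · obtain ⟨k, rfl⟩ : ∃ k, n = k + 2 := ⟨n - 2, by omega⟩
    refine homogeneous_of (μ := brk K _) (y := gen K r (k + 2)) nil_F lie_hA nil_gen
      (fun y' => nil_ext nil_lcs y') 0 (fun a => by simp) ?_ ?_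
    · intro i hi
      obtain ⟨f, hf, hfy⟩ := nil_ext (r := r) (H3_lcs (K := K) k) (fun _ => H3.mk 1 0 0)
      have : F (brk K (FreeNilLie K r (k + 2))) 1 ≤ LinearMap.ker (H3.p1.comp f) := by
        change Submodule.map₂ _ ⊤ ⊤ ≤ _
        rw [Submodule.map₂_le]
        intro a _ b _
        simp [hf]
      have h2 := this hi
      simp [hfy] at h2
    · intro a b hab l m hl hm
      obtain ⟨f, hf, hfy⟩ := nil_ext (r := r) (H3_lcs (K := K) k)
        (fun i => H3.mk (l (gen K r (k + 2) i)) (m (gen K r (k + 2) i)) 0)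
      have h1 := lin_eq_of (y := gen K r (k + 2)) nil_gen l (H3.p1.comp f) hl
        (fun a b => by simp [hf]) (fun i => by simp [hfy])
      have h2 := lin_eq_of (y := gen K r (k + 2)) nil_gen m (H3.p2.comp f) hm
        (fun a b => by simp [hf]) (fun i => by simp [hfy])
      have h3 : ⁅a, b⁆ = 0 := by simpa using hab
      have h4 := congrArg (fun x => H3.p3 (f x)) h3
      simp only [hf, H3.p3_lie, map_zero] at h4
      rw [h1 a, h1 b, h2 a, h2 b]
      exact sub_eq_zero.1 h4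
  · apply homogeneous_zero
    intro a b
    obtain rfl : n = 1 := by omega
    have : brk K _ a b ∈ F (brk K (FreeNilLie K r 1)) 1 :=
      F_mul _ a (Submodule.mem_top : b ∈ F _ 0)
    rwa [nil_F] at this

end Pool.Agent.Lib.helper20.AlgHomog
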