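import Mathlib

namespace Pool.Agent.Lib.helper20.OntoL1

/-- Formulas of the propositional ontology: atoms `ε a b`, negation, disjunction. -/
inductive LF : Type
  | eps (a b : ℕ) : LF
  | neg (x : LF) : LF
  | or (x y : LF) : LF

def LF.imp (x y : LF) : LF := .or (.neg x) y

def LF.and (x y : LF) : LF := .neg (.or (.neg x) (.neg y))

/-- Classical truth value under an assignment of truth values to the atoms. -/
def LF.eval (v : ℕ → ℕ → Prop) : LF → Prop
  | .eps a b => v a b
  | .neg x => ¬ LF.eval v x
  | .or x y => LF.eval v x ∨ LF.eval v y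

/-- Theorems of `L₁`. -/
inductive L1 : LF → Prop
  | taut {x : LF} : (∀ v, x.eval v) → L1 x
  | ax1 (a b : ℕ) : L1 ((LF.eps a b).imp (.eps a a))
  | ax2 (a b c : ℕ) : L1 (((LF.eps a b).and (.eps b c)).imp (.eps a c))
  | ax3 (a b c : ℕ) : L1 (((LF.eps a b).and (.eps b c)).imp (.eps b a))
  | mp {x y : LF} : L1 (x.imp y) → L1 x → L1 y

/-- Modal formulas with variables in `α`. -/
inductive MF (α : Type) : Type
  | var (p : α) : MF α
  | neg (x : MF α) : MF α
  | or (x y : MF α) : MF α
  | box (x : MF α) : MF α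

variable {α β : Type}

def MF.imp (x y : MF α) : MF α := .or (.neg x) y

def MF.dia (x : MF α) : MF α := .neg (.box (.neg x))

/-- Uniform substitution. -/
def MF.subst (σ : α → MF β) : MF α → MF β
  | .var p => σ p
  | .neg x => .neg (MF.subst σ x)
  | .or x y => .or (MF.subst σ x) (MF.subst σ y)
  | .box x => .box (MF.subst σ x)

/-- Classical truth value, variables and boxed formulas being treated as atoms. -/
def MF.eval (v : α → Prop) (w : MF α → Prop) : MF α → Prop
  | .var p => v p
  | .neg x => ¬ MF.eval v w x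
  | .or x y => MF.eval v w x ∨ MF.eval v w y
  | .box x => w x

/-- The smallest normal modal logic containing the set `Ax`. -/
inductive Normal (Ax : Set (MF ℕ)) : MF ℕ → Prop
  | taut {x : MF ℕ} : (∀ v w, x.eval v w) → Normal Ax x
  | k : Normal Ax ((MF.box ((MF.var 0).imp (.var 1))).imp ((MF.box (.var 0)).imp (.box (.var 1))))
  | ax {x : MF ℕ} : x ∈ Ax → Normal Ax x
  | mp {x y : MF ℕ} : Normal Ax (x.imp y) → Normal Ax x → Normal Ax y
  | nec {x : MF ℕ} : Normal Ax x → Normal Ax (.box x)
  | sub {x : MF ℕ} (σ : ℕ → MF ℕ) : Normal Ax x → Normal Ax (x.subst σ)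

/-- The translation determined by `χ(p, q)` and the assignment `ι` of variables to names. -/
def trans (ι : ℕ → ℕ) (χ : MF (Fin 2)) : LF → MF ℕ
  | .eps a b => χ.subst ![.var (ι a), .var (ι b)]
  | .neg x => .neg (trans ι χ x)
  | .or x y => .or (trans ι χ x) (trans ι χ y)

def MF.and (x y : MF α) : MF α := .neg (.or (.neg x) (.neg y))

def le (x y : MF α) : MF α := .box ((MF.box x).imp (.box y))

def chi : MF (Fin 2) :=
  ((MF.var 0).and (le (.var 0) (.var 1))).and ((MF.var 1).imp (le (.var 1) (.var 0)))

lemma trans_eps (ι : ℕ → ℕ) (a b : ℕ) : trans ι chi (.eps a b) =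
    ((MF.var (ι a)).and (le (.var (ι a)) (.var (ι b)))).and
      ((MF.var (ι b)).imp (le (.var (ι b)) (.var (ι a)))) := rfl

variable {Ax : Set (MF ℕ)}

lemma kk (x y : MF ℕ) : Normal Ax ((MF.box (x.imp y)).imp ((MF.box x).imp (.box y))) :=
  Normal.sub (fun n => if n = 0 then x else y) Normal.k

lemma le_refl' (x : MF ℕ) : Normal Ax (le x x) :=
  .nec (.taut fun v w => by simp only [MF.imp, MF.eval]; tauto)

lemma le_trans' (x y z : MF ℕ) : Normal Ax ((le x y).imp ((le y z).imp (le x z))) := by
  have h1 : Normal Ax (((MF.box x).imp (.box y)).imp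
      (((MF.box y).imp (.box z)).imp ((MF.box x).imp (.box z)))) :=
    .taut fun v w => by simp only [MF.imp, MF.eval]; tauto
  have h2 := (kk _ _).mp h1.nec
  have h3 := kk (Ax := Ax) ((MF.box y).imp (.box z)) ((MF.box x).imp (.box z))
  refine Normal.mp (Normal.mp (Normal.taut fun v w => ?_) h2) h3
  simp only [MF.imp, MF.eval, le]
  tauto

lemma eval_trans (ι : ℕ → ℕ) (χ : MF (Fin 2)) (v : ℕ → Prop) (w : MF ℕ → Prop) (x : LF) :
    (trans ι χ x).eval v w ↔ x.eval (fun a b => (trans ι χ (.eps a b)).eval v w) := by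
  induction x with
  | eps a b => rfl
  | neg x ih => exact not_congr ih
  | or x y ihx ihy => exact or_congr ihx ihy

theorem sound (ι : ℕ → ℕ) {x : LF} (h : L1 x) : Normal Ax (trans ι chi x) := by
  induction h with
  | taut h => exact .taut fun v w => (eval_trans ι chi v w _).2 (h _)
  | ax1 a b =>
    refine Normal.mp (Normal.taut fun v w => ?_) (le_refl' (.var (ι a)))
    simp only [LF.imp, trans, chi, MF.subst, MF.imp, MF.and, MF.eval, le, Matrix.cons_val_zero,
      Matrix.cons_val_one]
    tauto
  | ax2 a b c =>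
    refine Normal.mp (Normal.mp (Normal.taut fun v w => ?_)
      (le_trans' (.var (ι a)) (.var (ι b)) (.var (ι c))))
      (le_trans' (.var (ι c)) (.var (ι b)) (.var (ι a)))
    simp only [LF.imp, LF.and, trans, chi, MF.subst, MF.imp, MF.and, MF.eval, le,
      Matrix.cons_val_zero, Matrix.cons_val_one]
    tauto
  | ax3 a b c =>
    refine Normal.taut fun v w => ?_
    simp only [LF.imp, LF.and, trans, chi, MF.subst, MF.imp, MF.and, MF.eval, le,
      Matrix.cons_val_zero, Matrix.cons_val_one]
    tauto
  | mp _ _ h1 h2 => exact h1.mp h2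

/-- Good valuations of the atoms. -/
def GoodV (E : ℕ → ℕ → Prop) : Prop :=
  (∀ a b, E a b → E a a) ∧ (∀ a b c, E a b → E b c → E a c) ∧ ∀ a b c, E a b → E b c → E b a

def LF.Below (N : ℕ) : LF → Prop
  | .eps a b => a < N ∧ b < N
  | .neg x => LF.Below N x
  | .or x y => LF.Below N x ∧ LF.Below N y

lemma LF.exists_below (x : LF) : ∃ N, ∀ M, N ≤ M → x.Below M := by
  induction x with
  | eps a b => exact ⟨max a b + 1, fun M h => ⟨by omega, by omega⟩⟩
  | neg x ih => exact ih
  | or x y ihx ihy =>
    obtain ⟨n, hn⟩ := ihx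
    obtain ⟨m, hm⟩ := ihy
    exact ⟨max n m, fun M h => ⟨hn M (by omega), hm M (by omega)⟩⟩

lemma LF.eval_congr {N : ℕ} {v v' : ℕ → ℕ → Prop} (h : ∀ a b, a < N → b < N → (v a b ↔ v' a b))
    (x : LF) (hx : x.Below N) : x.eval v ↔ x.eval v' := by
  induction x with
  | eps a b => exact h a b hx.1 hx.2
  | neg x ih => exact not_congr (ih hx)
  | or x y ihx ihy => exact or_congr (ihx hx.1) (ihy hx.2)

lemma of_list (l : List LF) (hl : ∀ y ∈ l, L1 y) (x : LF)
    (h : ∀ v, (∀ y ∈ l, y.eval v) → x.eval v) : L1 x := by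
  induction l generalizing x with
  | nil => exact .taut fun v => h v (by simp)
  | cons y l ih =>
    refine L1.mp (ih (fun z hz => hl z (List.mem_cons_of_mem _ hz)) (y.imp x) fun v hv => ?_)
      (hl y List.mem_cons_self)
    simp only [LF.imp, LF.eval]
    by_cases hy : y.eval v
    · exact Or.inr (h v (by simpa [hy] using hv))
    · exact Or.inl hy

theorem complete (x : LF) (h : ∀ E, GoodV E → x.eval E) : L1 x := by
  obtain ⟨N, hN⟩ := x.exists_below
  let l : List LF := (List.range N).flatMap fun a => (List.range N).flatMap fun b =>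
    (List.range N).flatMap fun c => [(LF.eps a b).imp (.eps a a),
      ((LF.eps a b).and (.eps b c)).imp (.eps a c), ((LF.eps a b).and (.eps b c)).imp (.eps b a)]
  refine of_list l (fun y hy => ?_) x fun v hv => ?_
  · simp only [l, List.mem_flatMap, List.mem_cons, List.not_mem_nil, or_false] at hy
    obtain ⟨a, -, b, -, c, -, rfl | rfl | rfl⟩ := hy
    · exact .ax1 a b
    · exact .ax2 a b c
    · exact .ax3 a b c
  · have key : ∀ a b c, a < N → b < N → c < N →
        (v a b → v a a) ∧ (v a b → v b c → v a c) ∧ (v a b → v b c → v b a) := by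
      intro a b c ha hb hc
      have m : ∀ y ∈ [(LF.eps a b).imp (.eps a a), ((LF.eps a b).and (.eps b c)).imp (.eps a c),
          ((LF.eps a b).and (.eps b c)).imp (.eps b a)], y.eval v := fun y hy => hv y (by
        simp only [l, List.mem_flatMap, List.mem_range]
        exact ⟨a, ha, b, hb, c, hc, hy⟩)
      simp only [List.mem_cons, List.not_mem_nil, or_false, forall_eq_or_imp, forall_eq, LF.imp,
        LF.and, LF.eval] at m
      tauto
    refine (LF.eval_congr (v' := fun a b => a < N ∧ b < N ∧ v a b) (fun a b ha hb => by tauto) x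
      (hN N le_rfl)).2 (h _ ⟨?_, ?_, ?_⟩)
    · rintro a b ⟨ha, hb, h⟩
      exact ⟨ha, ha, (key a b b ha hb hb).1 h⟩
    · rintro a b c ⟨ha, hb, h⟩ ⟨-, hc, h'⟩
      exact ⟨ha, hc, (key a b c ha hb hc).2.1 h h'⟩
    · rintro a b c ⟨ha, hb, h⟩ ⟨-, hc, h'⟩
      exact ⟨hb, ha, (key a b c ha hb hc).2.2 h h'⟩

/-- Points of the test frame. -/
inductive Pt : Type
  | root | leaf (x : Option ℕ) | top

def R (x y : Pt) : Prop := x = y ∨ x = .root ∨ y = .top

def Holds (V : ℕ → Pt → Prop) : MF ℕ → Pt → Prop
  | .var p, w => V p w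
  | .neg x, w => ¬ Holds V x w
  | .or x y, w => Holds V x w ∨ Holds V y w
  | .box x, w => ∀ u, R w u → Holds V x u

lemma holds_eval (V : ℕ → Pt → Prop) (u : Pt) (x : MF ℕ) :
    Holds V x u ↔ x.eval (fun p => V p u) (fun y => Holds V (.box y) u) := by
  induction x with
  | var p => rfl
  | neg x ih => exact not_congr ih
  | or x y ihx ihy => exact or_congr ihx ihy
  | box x _ => rfl

lemma holds_subst (V : ℕ → Pt → Prop) (σ : ℕ → MF ℕ) (x : MF ℕ) (u : Pt) :
    Holds V (x.subst σ) u ↔ Holds (fun p => Holds V (σ p)) x u := by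
  induction x generalizing u with
  | var p => rfl
  | neg x ih => exact not_congr (ih u)
  | or x y ihx ihy => exact or_congr (ihx u) (ihy u)
  | box x ih => exact forall_congr' fun w => imp_congr_right fun _ => ih w

lemma valid (hAx : ∀ x ∈ Ax, ∀ V u, Holds V x u) {x : MF ℕ} (h : Normal Ax x) :
    ∀ V u, Holds V x u := by
  induction h with
  | taut h => exact fun V u => (holds_eval V u _).2 (h _ _)
  | k =>
    intro V u
    simp only [MF.imp, Holds]
    by_contra hh
    push Not at hh
    obtain ⟨h1, h2, w, r, h3⟩ := hh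
    exact (h1 w r).elim (fun h => h (h2 w r)) h3
  | ax h => exact hAx _ h
  | mp _ _ h1 h2 => exact fun V u => (h1 V u).elim (fun h => absurd (h2 V u) h) id
  | nec _ h => exact fun V u w _ => h V w
  | sub σ _ h => exact fun V u => (holds_subst V σ _ u).2 (h _ u)

theorem faithful (hAx : ∀ x ∈ Ax, ∀ V u, Holds V x u) (ι : ℕ → ℕ) (hι : Function.Injective ι)
    (x : LF) : L1 x ↔ Normal Ax (trans ι chi x) := by
  refine ⟨sound ι, fun h => complete x fun E hE => ?_⟩
  let V : ℕ → Pt → Prop := fun p u => match u with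
    | .root => ∃ a, ι a = p ∧ E a a
    | .leaf none => False
    | .leaf (some y) => ∃ a, ι a = p ∧ E y a
    | .top => True
  have hle : ∀ a b, Holds V (le (.var (ι a)) (.var (ι b))) .root ↔ ∀ y, E y a → E y b := by
    intro a b
    simp only [le, MF.imp, Holds]
    constructor
    · intro h y hy
      rcases h (.leaf (some y)) (Or.inr (Or.inl rfl)) with h | h
      · refine absurd (fun u r => ?_) h
        rcases r with rfl | r | rfl
        · exact ⟨a, rfl, hy⟩
        · cases r
        · trivial
      · obtain ⟨c, hc, h⟩ := h _ (Or.inl rfl)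
        exact hι hc ▸ h
    · intro h u _
      by_cases hu : ∀ w, R u w → V (ι a) w
      · right
        intro w r
        cases u with
        | root => exact (hu (.leaf none) (Or.inr (Or.inl rfl))).elim
        | leaf o =>
          rcases r with rfl | r | rfl
          · cases o with
            | none => exact hu _ (Or.inl rfl)
            | some y =>
              obtain ⟨c, hc, h'⟩ := hu _ (Or.inl rfl)
              exact ⟨b, rfl, h y (hι hc ▸ h')⟩
          · cases r
          · trivial
        | top =>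
          rcases r with rfl | r | rfl
          · trivial
          · cases r
          · trivial
      · exact Or.inl hu
  have hv : ∀ a, Holds V (.var (ι a)) .root ↔ E a a := fun a =>
    ⟨fun ⟨c, hc, h⟩ => hι hc ▸ h, fun h => ⟨a, rfl, h⟩⟩
  have key : ∀ y : LF, Holds V (trans ι chi y) .root ↔ y.eval E := by
    intro y
    induction y with
    | eps a b =>
      rw [trans_eps]
      change ¬ (¬ ¬ (¬ Holds V (.var (ι a)) .root ∨ ¬ Holds V (le _ _) .root) ∨
        ¬ (¬ Holds V (.var (ι b)) .root ∨ Holds V (le _ _) .root)) ↔ E a b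
      rw [hv, hv, hle, hle]
      constructor
      · intro h
        push Not at h
        exact h.1.2 a h.1.1
      · intro h
        push Not
        refine ⟨⟨hE.1 a b h, fun y hy => hE.2.1 y a b hy h⟩, ?_⟩
        by_cases hb : E b b
        · exact Or.inr fun y hy => hE.2.1 y b a hy (hE.2.2 a b b h hb)
        · exact Or.inl hb
    | neg y ih => exact not_congr ih
    | or y z ihy ihz => exact or_congr ihy ihz
  exact (key x).1 (valid hAx h V .root)

end Pool.Agent.Lib.helper20.OntoL1
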