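import Mathlib

open Finset PowerSeries

namespace Pool.Agent.Lib.helper20.PartSums

/-- The entry `λ_{i+1}` of a tuple, with the value `0` beyond its end. -/
def ent {n : ℕ} (l : Fin n → ℕ) (i : ℕ) : ℕ := if h : i < n then l ⟨i, h⟩ else 0

open Classical in
/-- `Λ_n`: weakly decreasing `n`-tuples of natural numbers with sum `n`. -/
noncomputable def Lam (n : ℕ) : Finset (Fin n → ℕ) :=
  (Finset.Nat.antidiagonalTuple n n).filter Antitone

/-- `C(λ)`, the product of the binomial coefficients `(λ_i choose λ_{i+1})`. -/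
def Cc {n : ℕ} (l : Fin n → ℕ) : ℕ := ∏ i : Fin n, (l i).choose (ent l (i + 1))

/-- `a_1 = 1`, `a_i = 2 i - 3` for `i ≥ 2`. -/
def a (i : ℕ) : ℚ := if i = 1 then 1 else 2 * i - 3

/-- The weight `u(λ)`. -/
def u {n : ℕ} (l : Fin n → ℕ) : ℚ := ∏ i : Fin n, (a (i + 1) / ((i : ℚ) + 1)) ^ l i

/-- The weight `v(λ)`. -/
def v {n : ℕ} (l : Fin n → ℕ) : ℚ := ∏ i : Fin n, ((2 * ((i : ℚ) + 1) - 1) / ((i : ℚ) + 1)) ^ l i

/-- `A_n`. -/
noncomputable def A (n : ℕ) : ℚ := ∑ l ∈ Lam n, (1 + (ent l 0 : ℚ)) * Cc l * u l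

/-- `B_n`. -/
noncomputable def B (n : ℕ) : ℚ :=
  ∑ l ∈ Lam n, (-1) ^ (1 + ent l 0) * (1 + (ent l 0 : ℚ)) * Cc l * v l

lemma sum_succ (L n : ℕ) (f : (Fin (L + 1) → ℕ) → ℚ) :
    ∑ l ∈ Finset.Nat.antidiagonalTuple (L + 1) n, f l =
      ∑ p ∈ HasAntidiagonal.antidiagonal n, ∑ l ∈ Finset.Nat.antidiagonalTuple L p.2, f (Fin.cons p.1 l) := by
  rw [Finset.sum_sigma']
  refine Finset.sum_nbij' (fun l => ⟨(l 0, ∑ i, Fin.tail l i), Fin.tail l⟩)
    (fun z => Fin.cons z.1.1 z.2) ?_ ?_ ?_ ?_ ?_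
  · intro l hl
    simp only [Finset.Nat.mem_antidiagonalTuple, mem_sigma, HasAntidiagonal.mem_antidiagonal] at hl ⊢
    rw [Fin.sum_univ_succ] at hl
    exact ⟨hl, trivial⟩
  · rintro ⟨⟨j, m⟩, l⟩ hz
    simp only [Finset.Nat.mem_antidiagonalTuple, mem_sigma, HasAntidiagonal.mem_antidiagonal] at hz ⊢
    rw [Fin.sum_univ_succ]
    simp only [Fin.cons_zero, Fin.cons_succ]
    omega
  · intro l _
    simp
  · rintro ⟨⟨j, m⟩, l⟩ hz
    simp only [Finset.Nat.mem_antidiagonalTuple, mem_sigma, HasAntidiagonal.mem_antidiagonal] at hz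
    obtain ⟨_, h2⟩ := hz
    subst h2
    simp
  · intro l _
    simp

lemma ent_cons_zero {L : ℕ} (j : ℕ) (l : Fin L → ℕ) : ent (Fin.cons j l : Fin (L + 1) → ℕ) 0 = j := by
  simp [ent]

lemma ent_cons_succ {L : ℕ} (j : ℕ) (l : Fin L → ℕ) (i : ℕ) :
    ent (Fin.cons j l : Fin (L + 1) → ℕ) (i + 1) = ent l i := by
  unfold ent
  by_cases h : i < L
  · rw [dif_pos (by omega), dif_pos h]
    exact Fin.cons_succ (α := fun _ => ℕ) j l ⟨i, h⟩
  · rw [dif_neg (by omega), dif_neg h]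

lemma Cc_cons {L : ℕ} (j : ℕ) (l : Fin L → ℕ) :
    Cc (Fin.cons j l : Fin (L + 1) → ℕ) = j.choose (ent l 0) * Cc l := by
  unfold Cc
  rw [Fin.prod_univ_succ]
  simp only [Fin.cons_zero, Fin.cons_succ, Fin.val_zero, Fin.val_succ, ent_cons_succ]

/-- The nested series `w_0 X (1 + w_1 X (1 + ⋯))` of depth `L`. -/
noncomputable def y : ℕ → (ℕ → ℚ) → ℚ⟦X⟧
  | 0, _ => 0
  | L + 1, w => X * (C (w 0) * (1 + y L (fun i => w (i + 1))))

lemma gen (L : ℕ) : ∀ (w φ : ℕ → ℚ) (n N : ℕ), n < N →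
    ∑ l ∈ Finset.Nat.antidiagonalTuple L n, φ (ent l 0) * Cc l * ∏ i : Fin L, w i ^ l i =
      ∑ j ∈ range N, φ j * coeff n (y L w ^ j) := by
  induction L with
  | zero =>
    intro w φ n N hN
    obtain ⟨N, rfl⟩ : ∃ M, N = M + 1 := ⟨N - 1, by omega⟩
    rw [Finset.sum_range_succ']
    rcases n with _ | n
    · simp [y, ent, Cc]
    · simp [y, coeff_one]
  | succ L ih =>
    intro w φ n N hN
    rw [sum_succ]
    have h1 : ∀ p ∈ HasAntidiagonal.antidiagonal n, ∑ l ∈ Finset.Nat.antidiagonalTuple L p.2,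
        φ (ent (Fin.cons p.1 l : Fin (L + 1) → ℕ) 0) * Cc (Fin.cons p.1 l : Fin (L + 1) → ℕ) *
          ∏ i : Fin (L + 1), w i ^ (Fin.cons p.1 l : Fin (L + 1) → ℕ) i =
        φ p.1 * coeff p.2 ((C (w 0) * (1 + y L (fun i => w (i + 1)))) ^ p.1) := by
      rintro ⟨j, m⟩ hp
      simp only [HasAntidiagonal.mem_antidiagonal] at hp
      have e := ih (fun i => w (i + 1)) (fun i => (j.choose i : ℚ)) m N (by omega)
      have e2 : ∑ i ∈ range N, (j.choose i : ℚ) * coeff m (y L (fun i => w (i + 1)) ^ i) =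
          coeff m ((1 + y L (fun i => w (i + 1))) ^ j) := by
        rw [add_comm, add_pow, map_sum]
        symm
        apply Finset.sum_subset_zero_on_sdiff (range_subset_range.2 (by omega))
        · intro i hi
          simp only [mem_sdiff, mem_range] at hi
          rw [Nat.choose_eq_zero_of_lt (by omega)]; simp
        · intro i _
          rw [one_pow, mul_one, ← map_natCast C, coeff_mul_C, mul_comm]
      simp only
      rw [mul_pow, ← map_pow, coeff_C_mul, ← e2, ← e, Finset.mul_sum, Finset.mul_sum]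
      refine Finset.sum_congr rfl fun l _ => ?_
      rw [ent_cons_zero, Cc_cons, Fin.prod_univ_succ]
      simp only [Fin.cons_zero, Fin.cons_succ, Fin.val_zero, Fin.val_succ]
      push_cast; ring
    rw [Finset.sum_congr rfl h1, Finset.Nat.sum_antidiagonal_eq_sum_range_succ_mk]
    apply Finset.sum_subset_zero_on_sdiff (range_subset_range.2 (by omega))
    · intro j hj
      simp only [mem_sdiff, mem_range] at hj
      rw [y, mul_pow, coeff_X_pow_mul', if_neg (by omega), mul_zero]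
    · intro j hj
      simp only [mem_range] at hj
      rw [y, mul_pow X, coeff_X_pow_mul', if_pos (by omega)]

/-- The limit series. -/
noncomputable def Y (w : ℕ → ℚ) : ℚ⟦X⟧ := mk fun k => if k = 0 then 0 else ∏ i ∈ range k, w i

lemma coeff_y (L : ℕ) : ∀ (w : ℕ → ℚ) (k : ℕ), k ≤ L → coeff k (y L w) = coeff k (Y w) := by
  induction L with
  | zero => intro w k hk; obtain rfl : k = 0 := by omega
            simp [y, Y]
  | succ L ih =>
    intro w k hk
    rcases k with _ | k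
    · simp [y, Y]
    · rw [y, coeff_succ_X_mul, coeff_C_mul, map_add, ih _ k (by omega)]
      simp only [Y, coeff_mk, coeff_one, Nat.succ_ne_zero, if_false]
      rw [Finset.prod_range_succ']
      split_ifs with h
      · subst h; simp
      · ring

lemma Cc_eq_zero {n : ℕ} (l : Fin n → ℕ) (h : ¬ Antitone l) : Cc l = 0 := by
  by_contra hne
  apply h
  rcases n with _ | n
  · intro i; exact i.elim0
  rw [Fin.antitone_iff_succ_le]
  intro i
  have := Finset.prod_ne_zero_iff.1 hne i.castSucc (mem_univ _)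
  rw [Nat.choose_ne_zero_iff] at this
  have e : ent l ((i.castSucc : ℕ) + 1) = l i.succ := by
    unfold ent
    rw [dif_pos (by simp)]
    rfl
  rwa [e] at this

lemma red (w φ : ℕ → ℚ) (n : ℕ) :
    ∑ l ∈ Lam n, φ (ent l 0) * Cc l * ∏ i : Fin n, w i ^ l i =
      coeff n (∑ j ∈ range (n + 1), C (φ j) * Y w ^ j) := by
  classical
  rw [Lam, Finset.sum_filter_of_ne, gen n w φ n (n + 1) (by omega), map_sum]
  · refine Finset.sum_congr rfl fun j _ => ?_
    rw [coeff_C_mul]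
    have h1 : (X : ℚ⟦X⟧) ^ (n + 1) ∣ y n w - Y w := by
      rw [X_pow_dvd_iff]
      intro k hk
      rw [map_sub, coeff_y n w k (by omega), sub_self]
    have h2 := h1.trans (sub_dvd_pow_sub_pow _ _ j)
    rw [X_pow_dvd_iff] at h2
    have h3 := h2 n (by omega)
    rw [map_sub, sub_eq_zero] at h3
    rw [h3]
  · intro l _ hne
    by_contra h
    rw [Cc_eq_zero l h] at hne
    simp at hne

lemma geom (z : ℚ⟦X⟧) (N : ℕ) :
    (∑ j ∈ range N, C (1 + (j : ℚ)) * z ^ j) * (1 - z) ^ 2 = 1 - z ^ N * (N + 1 - N * z) := by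
  induction N with
  | zero => simp
  | succ N ih =>
    rw [Finset.sum_range_succ, add_mul, ih, map_add, map_one, map_natCast]
    push_cast; ring

/-- The weights of `v`. -/
def wv (i : ℕ) : ℚ := (2 * ((i : ℚ) + 1) - 1) / ((i : ℚ) + 1)

/-- The weights of `u`. -/
def wu (i : ℕ) : ℚ := a (i + 1) / ((i : ℚ) + 1)

lemma coeff_G (k : ℕ) : coeff k (1 + Y wv) = ∏ i ∈ range k, wv i := by
  simp only [map_add, Y, coeff_mk, coeff_one]
  split_ifs with h
  · subst h; simp
  · simp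

lemma G_ode : derivative ℚ (1 + Y wv) * (1 - 2 * X) = 1 + Y wv := by
  ext k
  rw [mul_sub, mul_one, map_sub, show derivative ℚ (1 + Y wv) * (2 * X) =
    C 2 * (derivative ℚ (1 + Y wv) * X) by rw [map_ofNat]; ring, coeff_C_mul]
  rcases k with _ | k
  · rw [coeff_zero_mul_X, coeff_derivative, coeff_G, coeff_G]
    simp [wv]; norm_num
  · rw [coeff_succ_mul_X, coeff_derivative, coeff_derivative, coeff_G, coeff_G,
      Finset.prod_range_succ _ (k + 1)]
    simp only [wv]
    push_cast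
    field_simp
    ring

lemma G_sq : (1 + Y wv) ^ 2 * (1 - 2 * X) = 1 := by
  apply derivative.ext
  · rw [Derivation.leibniz, Derivation.leibniz_pow, Derivation.map_one_eq_zero]
    simp only [smul_eq_mul, map_sub, Derivation.map_one_eq_zero, Derivation.leibniz, derivative_X]
    have h2 : derivative ℚ (2 : ℚ⟦X⟧) = 0 := by
      rw [← map_ofNat (C : ℚ →+* ℚ⟦X⟧) 2, derivative_C]
    rw [h2]
    have := G_ode
    simp only [nsmul_eq_mul]
    push_cast
    linear_combination (2 * (1 + Y wv)) * this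
  · simp [Y]

lemma H_eq : 1 - Y wu = (1 + Y wv) * (1 - 2 * X) := by
  ext k
  rw [mul_sub, mul_one, map_sub, map_sub, show (1 + Y wv) * (2 * X) =
    C 2 * ((1 + Y wv) * X) by rw [map_ofNat]; ring, coeff_C_mul]
  rcases k with _ | k
  · rw [coeff_zero_mul_X, coeff_G]; simp [Y]
  · rw [coeff_succ_mul_X, coeff_G, coeff_G]
    simp only [Y, coeff_mk, coeff_one, Nat.succ_ne_zero, if_false]
    have key : ∀ k : ℕ, ∏ i ∈ range (k + 1), wu i = (∏ i ∈ range k, wv i) / (k + 1) := by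
      intro k
      induction k with
      | zero => simp [wu, a]
      | succ k ih =>
        rw [Finset.prod_range_succ, ih, Finset.prod_range_succ]
        simp only [wu, wv, a]
        rw [if_neg (by omega)]
        push_cast
        field_simp
        ring
    rw [key, Finset.prod_range_succ]
    simp only [wv]
    field_simp
    ring

lemma X_dvd_Y (w : ℕ → ℚ) : (X : ℚ⟦X⟧) ∣ Y w := by
  rw [X_dvd_iff]; simp [Y]

lemma resA (n : ℕ) : A n = 2 ^ n := by
  have h := red wu (fun j => 1 + (j : ℚ)) n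
  have e : A n = coeff n (∑ j ∈ range (n + 1), C (1 + (j : ℚ)) * Y wu ^ j) := h
  rw [e]
  have h1 := geom (Y wu) (n + 1)
  have h2 : (1 - Y wu) ^ 2 = 1 - 2 * X := by
    rw [H_eq]; linear_combination (1 - 2 * X) * G_sq
  rw [h2] at h1
  generalize (∑ j ∈ range (n + 1), C (1 + (j : ℚ)) * Y wu ^ j) = S at h1
  have h3 : (X : ℚ⟦X⟧) ^ (n + 1) ∣ 1 - S * (1 - 2 * X) := by
    rw [h1, sub_sub_cancel]
    exact (pow_dvd_pow_of_dvd (X_dvd_Y wu) _).mul_right _
  rw [X_pow_dvd_iff] at h3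
  have key : ∀ k, k ≤ n → coeff k S = 2 ^ k := by
    intro k
    induction k with
    | zero =>
      intro _
      have := h3 0 (by omega)
      simp at this
      simp; linarith
    | succ k ih =>
      intro hk
      have := h3 (k + 1) (by omega)
      rw [mul_sub, mul_one, map_sub, map_sub, show S * (2 * X) = C 2 * (S * X) by
        rw [map_ofNat]; ring, coeff_C_mul, coeff_succ_mul_X, ih (by omega), coeff_one,
        if_neg (by omega)] at this
      rw [pow_succ]; linarith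
  exact key n le_rfl

lemma resB (n : ℕ) (hn : 1 < n) : B n = 0 := by
  have h := red wv (fun j => (-1) ^ (1 + j) * (1 + (j : ℚ))) n
  have e : B n = coeff n (∑ j ∈ range (n + 1), C ((-1) ^ (1 + j) * (1 + (j : ℚ))) * Y wv ^ j) := h
  rw [e]
  have e2 : ∑ j ∈ range (n + 1), C ((-1) ^ (1 + j) * (1 + (j : ℚ))) * Y wv ^ j =
      -∑ j ∈ range (n + 1), C (1 + (j : ℚ)) * (-Y wv) ^ j := by
    rw [← Finset.sum_neg_distrib]
    refine Finset.sum_congr rfl fun j _ => ?_
    rw [map_mul, map_pow, map_neg, map_one, neg_pow (Y wv)]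
    ring
  rw [e2]
  have h1 := geom (-Y wv) (n + 1)
  generalize (∑ j ∈ range (n + 1), C (1 + (j : ℚ)) * (-Y wv) ^ j) = S at h1
  have h3 : (X : ℚ⟦X⟧) ^ (n + 1) ∣ (1 - 2 * X) - S := by
    have : (1 - 2 * X) - S = (-Y wv) ^ (n + 1) *
        ((((n + 1 : ℕ) : ℚ⟦X⟧) + 1 - ((n + 1 : ℕ) : ℚ⟦X⟧) * -Y wv) * (1 - 2 * X)) := by
      linear_combination (-(1 - 2 * X)) * h1 + S * G_sq
    rw [this]
    exact (pow_dvd_pow_of_dvd (X_dvd_Y wv).neg_right _).mul_right _
  rw [X_pow_dvd_iff] at h3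
  have h4 := h3 n (by omega)
  rw [map_sub, map_sub, show (2 * X : ℚ⟦X⟧) = C 2 * X by rw [map_ofNat], coeff_C_mul, coeff_X,
    coeff_one, if_neg (by omega), if_neg (by omega)] at h4
  rw [map_neg]; linarith

end Pool.Agent.Lib.helper20.PartSums
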