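import Mathlib

namespace Pool.Agent.Lib.helper20.TMFib

/-- The Prouhet-Thue-Morse sequence in `±1` form: `(-1)` to the number of binary ones of `n`. -/
def t (n : ℕ) : ℤ := (-1) ^ (Nat.digits 2 n).count 1

/-- `h 0 = 0`, `h 1 = 1`, `h n = t n * h (n - 1) + h (n - 2)` for `n ≥ 2`. -/
def h : ℕ → ℤ
  | 0 => 0
  | 1 => 1
  | (n + 2) => t (n + 2) * h (n + 1) + h n

lemma t_even (n : ℕ) : t (2 * n) = t n := by
  rcases Nat.eq_zero_or_pos n with rfl | hn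
  · rfl
  unfold t
  rw [Nat.digits_def' (by norm_num) (by omega), show 2 * n % 2 = 0 by omega,
    show 2 * n / 2 = n by omega]
  simp

lemma t_odd (n : ℕ) : t (2 * n + 1) = -t n := by
  unfold t
  rw [Nat.digits_def' (by norm_num) (by omega), show (2 * n + 1) % 2 = 1 by omega,
    show (2 * n + 1) / 2 = n by omega]
  simp [pow_succ]

lemma t_zero : t 0 = 1 := by simp [t]

lemma t_one : t 1 = -1 := by
  have := t_odd 0
  rw [t_zero] at this
  exact this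

lemma t_shift (k : ℕ) : ∀ i, i < 2 ^ k → t (2 ^ k + i) = -t i := by
  induction k with
  | zero =>
    intro i hi
    have : i = 0 := by omega
    subst this
    rw [t_zero]
    exact t_one
  | succ k ih =>
    intro i hi
    have p : 2 ^ (k + 1) = 2 * 2 ^ k := by ring
    obtain ⟨j, rfl | rfl⟩ := Nat.even_or_odd' i
    · rw [p, ← mul_add, t_even, t_even, ih j (by omega)]
    · rw [p, ← add_assoc, ← mul_add, t_odd, t_odd, ih j (by omega)]

lemma t_top (k : ℕ) : ∀ m, m + 1 = 2 ^ k → t m = (-1) ^ k := by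
  induction k with
  | zero =>
    intro m hm
    have : m = 0 := by omega
    subst this
    exact t_zero
  | succ k ih =>
    intro m hm
    have p : 2 ^ (k + 1) = 2 * 2 ^ k := by ring
    have hp : 1 ≤ 2 ^ k := Nat.one_le_two_pow
    have : m = 2 * (2 ^ k - 1) + 1 := by omega
    rw [this, t_odd, ih _ (by omega), pow_succ]
    ring

def x (u v : ℤ) : ℕ → ℤ
  | 0 => u
  | 1 => v
  | (n + 2) => t n * x u v (n + 1) + x u v n

lemma x_succ (u v : ℤ) (n : ℕ) : x u v (n + 2) = t n * x u v (n + 1) + x u v n := by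
  rw [x]

lemma h_succ (n : ℕ) : h (n + 2) = t (n + 2) * h (n + 1) + h n := by
  rw [h]

lemma h_eq (n : ℕ) : h n = x 0 1 (n + 2) - x 1 0 (n + 2) ∧
    h (n + 1) = x 0 1 (n + 3) - x 1 0 (n + 3) := by
  induction n with
  | zero => simp [h, x, t_zero, t_one]
  | succ n ih =>
    refine ⟨ih.2, ?_⟩
    rw [h_succ, ih.1, ih.2, x_succ 0 1 (n + 2), x_succ 1 0 (n + 2)]
    ring

lemma x_shift (u v : ℤ) (k L : ℕ) (hL : L ≤ 2 ^ k) :
    x u v (2 ^ k + L) = (-1) ^ L * (-x 0 1 L * x u v (2 ^ k + 1) + x 1 0 L * x u v (2 ^ k)) ∧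
    x u v (2 ^ k + (L + 1)) = (-1) ^ (L + 1) *
      (-x 0 1 (L + 1) * x u v (2 ^ k + 1) + x 1 0 (L + 1) * x u v (2 ^ k)) := by
  induction L with
  | zero => simp [x]
  | succ L ih =>
    obtain ⟨h1, h2⟩ := ih (by omega)
    refine ⟨h2, ?_⟩
    rw [show 2 ^ k + (L + 1 + 1) = (2 ^ k + L) + 2 by ring, x_succ, t_shift k L (by omega),
      h1, add_assoc, h2, x_succ 0 1 L, x_succ 1 0 L]
    ring

lemma x_double (u v : ℤ) (k : ℕ) :
    x u v (2 ^ (k + 2)) = -x 0 1 (2 ^ (k + 1)) * x u v (2 ^ (k + 1) + 1) +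
      x 1 0 (2 ^ (k + 1)) * x u v (2 ^ (k + 1)) ∧
    x u v (2 ^ (k + 2) + 1) = x 0 1 (2 ^ (k + 1) + 1) * x u v (2 ^ (k + 1) + 1) -
      x 1 0 (2 ^ (k + 1) + 1) * x u v (2 ^ (k + 1)) := by
  obtain ⟨h1, h2⟩ := x_shift u v (k + 1) (2 ^ (k + 1)) le_rfl
  have e : (-1 : ℤ) ^ 2 ^ (k + 1) = 1 := by
    rw [pow_succ 2 k, mul_comm, pow_mul]
    simp
  rw [← add_assoc, pow_succ (-1 : ℤ), e] at h2
  rw [e] at h1
  rw [show 2 ^ (k + 2) = 2 ^ (k + 1) + 2 ^ (k + 1) by ring, h1, h2]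
  constructor <;> ring

lemma invar (k : ℕ) :
    x 0 1 (2 ^ (k + 1) + 1) * x 1 0 (2 ^ (k + 1)) -
      x 1 0 (2 ^ (k + 1) + 1) * x 0 1 (2 ^ (k + 1)) = 1 ∧
    x 0 1 (2 ^ (k + 1)) = (-1) ^ (k + 1) * x 1 0 (2 ^ (k + 1) + 1) := by
  induction k with
  | zero => simp [x, t_zero, t_one]
  | succ k ih =>
    obtain ⟨h1, h2⟩ := ih
    obtain ⟨a1, a2⟩ := x_double 0 1 k
    obtain ⟨b1, b2⟩ := x_double 1 0 k
    rw [show k + 1 + 1 = k + 2 by ring, a1, a2, b1, b2]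
    generalize x 0 1 (2 ^ (k + 1) + 1) = A at *
    generalize x 1 0 (2 ^ (k + 1) + 1) = B at *
    generalize x 0 1 (2 ^ (k + 1)) = C at *
    generalize x 1 0 (2 ^ (k + 1)) = D at *
    constructor
    · linear_combination (A * D - B * C + 1) * h1
    · rw [h2]
      ring

/-- The doubling identity, for `m = 2 ^ (k + 2) - 3` and `s = (-1) ^ k`. -/
lemma doubling (k m : ℕ) (hm : m + 3 = 2 ^ (k + 2)) :
    h m ∣ h (2 * m) - ((-1) ^ k - 1) := by
  obtain ⟨h1, h2⟩ := invar (k + 1)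
  obtain ⟨a1, a2⟩ := x_double 0 1 (k + 1)
  obtain ⟨b1, b2⟩ := x_double 1 0 (k + 1)
  have p : 2 ^ (k + 1 + 2) = 2 * m + 6 := by
    rw [show 2 ^ (k + 1 + 2) = 2 * 2 ^ (k + 2) by ring]
    omega
  have s0 : t (m + 2) = (-1) ^ (k + 2) := t_top _ _ (by omega)
  have p2 : 2 ^ (k + 2) = 2 * 2 ^ (k + 1) := by ring
  have hp : 1 ≤ 2 ^ (k + 1) := Nat.one_le_two_pow
  have s1 : t (m + 1) = (-1) ^ (k + 1) := by
    rw [show m + 1 = 2 * (2 ^ (k + 1) - 1) by omega, t_even, t_top (k + 1) _ (by omega)]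
  rw [show k + 1 + 1 = k + 2 by ring, ← hm] at h1 h2 a1 a2 b1 b2
  rw [p] at a1 a2 b1 b2
  have e1 := (h_eq (m + 1)).1
  have e2 := (h_eq (m + 1)).2
  have e3 := (h_eq (2 * m + 4)).1
  have e4 := (h_eq (2 * m + 4)).2
  rw [show m + 1 + 2 = m + 3 by ring] at e1
  rw [show m + 1 + 1 = m + 2 by ring, show m + 1 + 3 = m + 3 + 1 by ring] at e2
  rw [show 2 * m + 4 + 2 = 2 * m + 6 by ring, a1, b1] at e3
  rw [show 2 * m + 4 + 1 = 2 * m + 3 + 2 by ring, show 2 * m + 4 + 3 = 2 * m + 6 + 1 by ring,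
    a2, b2] at e4
  have s2 : t (2 * m + 2) = t (m + 1) := by rw [← t_even (m + 1)]; rfl
  have s3 : t (2 * m + 1 + 2) = -t (m + 1) := by rw [← t_odd (m + 1)]; rfl
  have s5 : t (2 * m + 3 + 2) = -t (m + 2) := by rw [← t_odd (m + 2)]; rfl
  have r0 := h_succ m
  have r2 := h_succ (2 * m)
  have r3 := h_succ (2 * m + 1)
  have r5 := h_succ (2 * m + 3)
  rw [s0, e1, e2] at r0
  rw [s2, s1] at r2
  rw [s3, s1] at r3
  rw [s5, s0] at r5
  rw [show 2 * m + 1 + 1 = 2 * m + 2 by ring, show 2 * m + 1 + 2 = 2 * m + 3 by ring] at r3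
  rw [show 2 * m + 3 + 1 = 2 * m + 4 by ring] at r5
  generalize x 0 1 (m + 3 + 1) = A at *
  generalize x 1 0 (m + 3 + 1) = B at *
  generalize x 0 1 (m + 3) = C at *
  generalize x 1 0 (m + 3) = D at *
  rcases Nat.even_or_odd k with hk | hk
  · have q : (-1 : ℤ) ^ k = 1 := hk.neg_one_pow
    simp only [pow_succ, q] at *
    refine ⟨A - D, ?_⟩
    subst h2
    linear_combination -r2 - r3 - r5 + (A - D) * r0 + e3 + e4
  · have q : (-1 : ℤ) ^ k = -1 := hk.neg_one_pow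
    simp only [pow_succ, q] at *
    refine ⟨D - A, ?_⟩
    subst h2
    linear_combination -r2 + r3 + r5 + (D - A) * r0 + e3 - e4 - 2 * h1

end Pool.Agent.Lib.helper20.TMFib
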