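import Pool.Agent.Lib.helper20.TMFib

namespace Pool.Agent.Lib.helper20.TMFib

lemma t_mul (k j : ℕ) : ∀ i, i < 2 ^ k → t (2 ^ k * j + i) = t j * t i := by
  induction k with
  | zero =>
    intro i hi
    have : i = 0 := by omega
    subst this
    simp [t_zero]
  | succ k ih =>
    intro i hi
    have p : 2 ^ (k + 1) = 2 * 2 ^ k := by ring
    obtain ⟨l, rfl | rfl⟩ := Nat.even_or_odd' i
    · rw [p, mul_assoc, ← mul_add, t_even, t_even, ih l (by omega)]
    · rw [p, mul_assoc, ← add_assoc, ← mul_add, t_odd, t_odd, ih l (by omega), mul_neg]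

lemma t_pm (j : ℕ) : t j = 1 ∨ t j = -1 := neg_one_pow_eq_or ℤ _

lemma t_vals : ∀ i < 16, t i =
    [1, -1, -1, 1, -1, 1, 1, -1, -1, 1, 1, -1, 1, -1, -1, 1].getD i 0 := by
  decide +kernel

lemma block (s : ℤ) (hs : s = 1 ∨ s = -1) (g : ℕ → ℤ)
    (hg : ∀ i < 16, g (i + 2) = s * t i * g (i + 1) + g i)
    (h0 : 100 * (g 1).natAbs ≤ 31 * (g 0).natAbs) :
    100 * (g 17).natAbs ≤ 31 * (g 16).natAbs ∧
      ∀ i < 16, 29 * (g (i + 1)).natAbs ≤ 100 * (g (i + 2)).natAbs := by
  have e : ∀ i < 16, g (i + 2) = s *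
      [1, -1, -1, 1, -1, 1, 1, -1, -1, 1, 1, -1, 1, -1, -1, 1].getD i 0 * g (i + 1) + g i := by
    intro i hi
    rw [hg i hi, t_vals i hi]
  have e0 := e 0 (by norm_num)
  have e1 := e 1 (by norm_num)
  have e2 := e 2 (by norm_num)
  have e3 := e 3 (by norm_num)
  have e4 := e 4 (by norm_num)
  have e5 := e 5 (by norm_num)
  have e6 := e 6 (by norm_num)
  have e7 := e 7 (by norm_num)
  have e8 := e 8 (by norm_num)
  have e9 := e 9 (by norm_num)
  have e10 := e 10 (by norm_num)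
  have e11 := e 11 (by norm_num)
  have e12 := e 12 (by norm_num)
  have e13 := e 13 (by norm_num)
  have e14 := e 14 (by norm_num)
  have e15 := e 15 (by norm_num)
  clear e hg
  rcases hs with rfl | rfl
  · norm_num at e0 e1 e2 e3 e4 e5 e6 e7 e8 e9 e10 e11 e12 e13 e14 e15
    refine ⟨by omega, fun i hi => ?_⟩
    interval_cases i <;> norm_num <;> omega
  · norm_num at e0 e1 e2 e3 e4 e5 e6 e7 e8 e9 e10 e11 e12 e13 e14 e15
    refine ⟨by omega, fun i hi => ?_⟩
    interval_cases i <;> norm_num <;> omega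

lemma block_h (j : ℕ) (h0 : 100 * (h (16 * j + 15)).natAbs ≤ 31 * (h (16 * j + 14)).natAbs) :
    100 * (h (16 * (j + 1) + 15)).natAbs ≤ 31 * (h (16 * (j + 1) + 14)).natAbs ∧
      ∀ i < 16, 29 * (h (16 * j + 14 + (i + 1))).natAbs ≤
        100 * (h (16 * j + 14 + (i + 2))).natAbs := by
  refine block (t (j + 1)) (t_pm _) (fun i => h (16 * j + 14 + i)) (fun i hi => ?_) h0
  have := t_mul 4 (j + 1) i (by omega)
  rw [← this, ← add_assoc, h_succ]
  congr 3
  ring

lemma small : ∀ n < 16, h n =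
    [0, 1, -1, 0, -1, -1, -2, 1, -3, -2, -5, 3, -2, 5, -7, -2].getD n 0 := by
  decide +kernel

lemma ends (j : ℕ) : 100 * (h (16 * j + 15)).natAbs ≤ 31 * (h (16 * j + 14)).natAbs := by
  induction j with
  | zero =>
    rw [small _ (by norm_num), small _ (by norm_num)]
    decide
  | succ j ih => exact (block_h j ih).1

lemma ratio (n : ℕ) (hn : 15 ≤ n) : 29 * (h n).natAbs ≤ 100 * (h (n + 1)).natAbs := by
  have := (block_h ((n - 15) / 16) (ends _)).2 ((n - 15) % 16) (Nat.mod_lt _ (by norm_num))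
  rwa [show 16 * ((n - 15) / 16) + 14 + ((n - 15) % 16 + 1) = n by omega,
    show 16 * ((n - 15) / 16) + 14 + ((n - 15) % 16 + 2) = n + 1 by omega] at this

lemma h_ne (n : ℕ) : h (n + 15) ≠ 0 := by
  induction n with
  | zero =>
    rw [small _ (by norm_num)]
    decide
  | succ n ih =>
    have := ratio (n + 15) (by omega)
    rw [show n + 1 + 15 = n + 15 + 1 by ring]
    omega

end Pool.Agent.Lib.helper20.TMFib
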