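import Mathlib

namespace Pool.Agent.Lib.helper20.WqoTune

universe u

variable {W : Type u} (R : W → W → Prop)

/-- `d` is a colouring that refines `c` on `X` and is tuned on `X`. -/
def Good (X : Set W) {γ δ : Type} (c : W → γ) (d : W → δ) : Prop :=
  (∀ x ∈ X, ∀ y ∈ X, d x = d y → c x = c y) ∧
    ∀ x ∈ X, ∀ x' ∈ X, ∀ y ∈ X, d x = d x' → R x y → ∃ y' ∈ X, d y' = d y ∧ R x' y'

def HasGood (X : Set W) {γ : Type} (c : W → γ) : Prop :=
  ∃ (δ : Type) (_ : Finite δ) (d : W → δ), Good R X c d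

def TT (X : Set W) : Prop := ∀ (γ : Type) [Finite γ] (c : W → γ), HasGood R X c

variable {R}

lemma TT.sub {X Y : Set W} (h : TT R X) (hY : Y ⊆ X) : TT R Y := by
  intro γ _ c
  obtain ⟨δ, _, d, h1, h2⟩ := h (γ × Prop) (fun x => (c x, x ∈ Y))
  refine ⟨δ, inferInstance, d, fun x hx y hy e => ?_, fun x hx x' hx' y hy e r => ?_⟩
  · exact congrArg Prod.fst (h1 x (hY hx) y (hY hy) e)
  · obtain ⟨y', hy', e', r'⟩ := h2 x (hY hx) x' (hY hx') y (hY hy) e r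
    have : (y' ∈ Y) = (y ∈ Y) := congrArg Prod.snd (h1 y' hy' y (hY hy) e')
    exact ⟨y', this ▸ hy, e', r'⟩

lemma glue {X U : Set W} (hU : U ⊆ X) (hup : ∀ x ∈ U, ∀ y ∈ X, R x y → y ∈ U)
    (hL : TT R (X \ U)) {γ : Type} [Finite γ] (c : W → γ) (hc : HasGood R U c) :
    HasGood R X c := by
  classical
  obtain ⟨δ, _, d, h1, h2⟩ := hc
  obtain ⟨ε, _, e, k1, k2⟩ := hL (γ × Set δ) (fun x => (c x, {j | ∃ y ∈ U, R x y ∧ d y = j}))
  refine ⟨δ ⊕ ε, inferInstance, fun x => if x ∈ U then Sum.inl (d x) else Sum.inr (e x),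
    fun x hx y hy h => ?_, fun x hx x' hx' y hy h r => ?_⟩
  · by_cases a : x ∈ U <;> by_cases b : y ∈ U <;> simp only [a, b, if_true, if_false] at h
    · exact h1 x a y b (Sum.inl.inj h)
    · cases h
    · cases h
    · exact congrArg Prod.fst (k1 x ⟨hx, a⟩ y ⟨hy, b⟩ (Sum.inr.inj h))
  · by_cases a : x ∈ U <;> by_cases b : x' ∈ U <;> simp only [a, b, if_true, if_false] at h
    · have hyU := hup x a y hy r
      obtain ⟨y', hy', e', r'⟩ := h2 x a x' b y hyU (Sum.inl.inj h) r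
      exact ⟨y', hU hy', by simp [hy', hyU, e'], r'⟩
    · cases h
    · cases h
    · by_cases hyU : y ∈ U
      · have : {j | ∃ y ∈ U, R x y ∧ d y = j} = {j | ∃ y ∈ U, R x' y ∧ d y = j} :=
          congrArg Prod.snd (k1 x ⟨hx, a⟩ x' ⟨hx', b⟩ (Sum.inr.inj h))
        have hm : d y ∈ {j | ∃ y ∈ U, R x y ∧ d y = j} := ⟨y, hyU, r, rfl⟩
        rw [this] at hm
        obtain ⟨y', hy', r', e'⟩ := hm
        exact ⟨y', hU hy', by simp [hy', hyU, e'], r'⟩
      · obtain ⟨y', hy', e', r'⟩ := k2 x ⟨hx, a⟩ x' ⟨hx', b⟩ y ⟨hy, hyU⟩ (Sum.inr.inj h) r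
        exact ⟨y', hy'.1, by simp [hy'.2, hyU, e'], r'⟩

lemma TT_empty : TT R ∅ := fun _ _ c =>
  ⟨Unit, inferInstance, fun _ => (), fun _ h => h.elim, fun _ h => h.elim⟩

variable [Preorder W]

lemma TT_union (hR : ∀ x y, R x y → x ≤ y) {D E : Set W} (hD : IsLowerSet D) (h1 : TT R D)
    (h2 : TT R E) : TT R (D ∪ E) := by
  intro γ _ c
  refine glue (U := E \ D) (fun x hx => Or.inr hx.1) ?_ (h1.sub ?_) c (h2.sub Set.diff_subset γ c)
  · rintro x hx y (hy | hy) r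
    · exact absurd (hD (hR x y r) hy) hx.2
    · exact ⟨hy, fun hy' => hx.2 (hD (hR x y r) hy')⟩
  · rintro x ⟨hx | hx, hx'⟩
    · exact hx
    · by_contra h
      exact hx' ⟨hx, h⟩

lemma TT_biUnion (hR : ∀ x y, R x y → x ≤ y) {ι : Type} (s : Finset ι) (D : ι → Set W)
    (hD : ∀ i, IsLowerSet (D i)) (h : ∀ i ∈ s, TT R (D i)) : TT R (⋃ i ∈ s, D i) := by
  classical
  induction s using Finset.induction_on with
  | empty => simpa using TT_empty
  | insert a s ha ih =>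
    rw [Finset.set_biUnion_insert]
    exact TT_union hR (hD a) (h a (Finset.mem_insert_self _ _))
      (ih fun i hi => h i (Finset.mem_insert_of_mem hi))

lemma wf_lower [WellQuasiOrderedLE W] : WellFoundedLT (LowerSet W) := by
  refine ⟨wellFounded_iff_isEmpty_descending_chain.2 ⟨fun ⟨f, hf⟩ => ?_⟩⟩
  have hanti : StrictAnti f := strictAnti_nat_of_succ_lt hf
  have : ∀ n, ∃ x, x ∈ f n ∧ x ∉ f (n + 1) := fun n =>
    Set.exists_of_ssubset (LowerSet.coe_ssubset_coe.2 (hf n))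
  choose x hx using this
  obtain ⟨m, n, hmn, h⟩ := wellQuasiOrdered_le x
  exact (hx m).2 ((f (m + 1)).lower h (hanti.antitone (Nat.succ_le_of_lt hmn) (hx n).1))

theorem TT_lower [WellQuasiOrderedLE W] (hR : ∀ x y, R x y → x ≤ y)
    (hl : ∀ x y z, x ≤ y → R y z → R x z) (hr : ∀ x y z, R x y → y ≤ z → R x z)
    (D : LowerSet W) : TT R D := by
  classical
  have := wf_lower (W := W)
  induction D using WellFoundedLT.induction with
  | ind D ih =>
  have cut : ∀ x ∈ D, TT R ((D : Set W) \ (Set.Ici x ∩ D)) := by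
    intro x hx
    let E : LowerSet W := ⟨(D : Set W) \ (Set.Ici x ∩ D), fun a b hab ha =>
      ⟨D.lower hab ha.1, fun hb => ha.2 ⟨le_trans hb.1 hab, ha.1⟩⟩⟩
    refine ih E (lt_of_le_of_ne (fun a ha => ha.1) fun e => ?_)
    have : x ∈ E := e ▸ hx
    exact this.2 ⟨le_rfl, hx⟩
  intro γ _ c
  by_cases hB : ∃ x ∈ D, ∀ w ∈ D, ¬ R x w
  · obtain ⟨x, hx, hB⟩ := hB
    refine glue (U := Set.Ici x ∩ D) Set.inter_subset_right
      (fun a ha b hb r => ⟨le_trans ha.1 (hR a b r), hb⟩) (cut x hx) c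
      ⟨γ, inferInstance, c, fun _ _ _ _ e => e, fun a ha _ _ b hb _ r => ?_⟩
    exact absurd (hl x a b ha.1 r) (hB b hb.2)
  push Not at hB
  let L : γ → LowerSet W := fun j => lowerClosure {y | y ∈ D ∧ c y = j}
  have hL : ∀ j, L j ≤ D := fun j a ⟨y, hy, hay⟩ => D.lower hay hy.1
  have := Fintype.ofFinite γ
  let s : Finset γ := Finset.univ.filter fun j => L j ≠ D
  by_cases hs : (D : Set W) ⊆ ⋃ j ∈ s, (L j : Set W)
  · exact (TT_biUnion hR s (fun j => (L j : Set W)) (fun j => (L j).lower)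
      (fun j hj => ih _ (lt_of_le_of_ne (hL j) (Finset.mem_filter.1 hj).2))).sub hs γ c
  · obtain ⟨x, hx, hx'⟩ := Set.not_subset.1 hs
    refine glue (U := Set.Ici x ∩ D) Set.inter_subset_right
      (fun a ha b hb r => ⟨le_trans ha.1 (hR a b r), hb⟩) (cut x hx) c
      ⟨γ, inferInstance, c, fun _ _ _ _ e => e, fun a _ a' ha' b hb _ _ => ?_⟩
    have hb' : L (c b) = D := by
      by_contra h
      apply hx'
      simp only [Set.mem_iUnion]
      exact ⟨c b, Finset.mem_filter.2 ⟨Finset.mem_univ _, h⟩, b, ⟨hb.2, rfl⟩, hb.1⟩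
    obtain ⟨w, hw, r⟩ := hB a' ha'.2
    have hw' : w ∈ L (c b) := hb' ▸ hw
    obtain ⟨v, hv, hwv⟩ := hw'
    exact ⟨v, ⟨le_trans ha'.1 (le_trans (hR _ _ r) hwv), hv.1⟩, hv.2, hr _ _ _ r hwv⟩

theorem tune [WellQuasiOrderedLE W] (hR : ∀ x y, R x y → x ≤ y)
    (hl : ∀ x y z, x ≤ y → R y z → R x z) (hr : ∀ x y z, R x y → y ≤ z → R x z)
    {γ : Type} [Finite γ] (c : W → γ) : ∃ (δ : Type) (_ : Finite δ) (d : W → δ),
      (∀ x y, d x = d y → c x = c y) ∧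
      ∀ x x' y, d x = d x' → R x y → ∃ y', d y' = d y ∧ R x' y' := by
  obtain ⟨δ, _, d, h1, h2⟩ := TT_lower hR hl hr ⊤ γ c
  refine ⟨δ, inferInstance, d, fun x y => h1 x trivial y trivial, fun x x' y e r => ?_⟩
  obtain ⟨y', -, h⟩ := h2 x trivial x' trivial y trivial e r
  exact ⟨y', h⟩

def Tun {V : Type u} (R : V → V → Prop) : Prop :=
  ∀ (γ : Type) [Finite γ] (c : V → γ), ∃ (δ : Type) (_ : Finite δ) (d : V → δ),
      (∀ x y, d x = d y → c x = c y) ∧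
      ∀ x x' y, d x = d x' → R x y → ∃ y', d y' = d y ∧ R x' y'

theorem tun_le {k : ℕ} (α : Fin k → Ordinal.{u}) :
    Tun (fun x y : ∀ i, Set.Iio (α i) => ∀ i, x i ≤ y i) := fun _ _ c =>
  tune (W := ∀ i, Set.Iio (α i)) (fun _ _ h => Pi.le_def.2 h)
    (fun _ _ _ h h' i => le_trans (Pi.le_def.1 h i) (h' i))
    (fun _ _ _ h h' i => le_trans (h i) (Pi.le_def.1 h' i)) c

theorem tun_lt {k : ℕ} (α : Fin k → Ordinal.{u}) :
    Tun (fun x y : ∀ i, Set.Iio (α i) => ∀ i, x i < y i) := fun _ _ c =>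
  tune (W := ∀ i, Set.Iio (α i)) (fun _ _ h => Pi.le_def.2 fun i => (h i).le)
    (fun _ _ _ h h' i => lt_of_le_of_lt (Pi.le_def.1 h i) (h' i))
    (fun _ _ _ h h' i => lt_of_lt_of_le (h i) (Pi.le_def.1 h' i)) c

end Pool.Agent.Lib.helper20.WqoTune
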